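import Pool.Agent.Work.MP_6da7fa_al.MB.Stmts

set_option autoImplicit false

/-!
# Theorem MB: item Dec

Decomposition of the complement of an up-set.
-/

namespace Pool.Agent.Work.MP_6da7fa_al.MB

namespace IDec

variable {r : ℕ}

/-- One slice of a cone. -/
lemma cone_split (k : Fin r → ℕ) (J : Finset (Fin r)) (i : Fin r) (hi : i ∈ J) :
    cone k J = cone (k + Pi.single i 1) J ∪ cone k (J.erase i) := by
  ext x
  simp only [cone, Set.mem_union, Set.mem_ofPred_eq, Pi.add_apply, Finset.mem_erase]
  constructor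
  · rintro ⟨h1, h2⟩
    rcases (h1 i).eq_or_lt with h | h
    · right
      refine ⟨h1, fun j hj => ?_⟩
      by_cases hji : j = i
      · rw [hji]
        exact h.symm
      · exact h2 j fun hjJ => hj ⟨hji, hjJ⟩
    · left
      refine ⟨fun j => ?_, fun j hj => ?_⟩
      · by_cases hji : j = i
        · subst hji
          rw [Pi.single_eq_same]
          omega
        · rw [Pi.single_eq_of_ne hji]
          have := h1 j
          omega
      · have hji : j ≠ i := fun h => hj (h ▸ hi)
        rw [Pi.single_eq_of_ne hji, h2 j hj]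
        omega
  · rintro (⟨h1, h2⟩ | ⟨h1, h2⟩)
    · refine ⟨fun j => ?_, fun j hj => ?_⟩
      · have := h1 j
        omega
      · have hji : j ≠ i := fun h => hj (h ▸ hi)
        have := h2 j hj
        rw [Pi.single_eq_of_ne hji] at this
        omega
    · exact ⟨h1, fun j hj => h2 j fun h => hj h.2⟩

lemma cone_disj (k : Fin r → ℕ) (J : Finset (Fin r)) (i : Fin r) :
    Disjoint (cone (k + Pi.single i 1) J) (cone k (J.erase i)) := by
  rw [Set.disjoint_left]
  rintro x ⟨h1, _⟩ ⟨_, h4⟩
  have h5 := h1 i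
  have h6 := h4 i (by simp)
  rw [Pi.add_apply, Pi.single_eq_same] at h5
  omega

/-- Going back from a translated cone. -/
lemma back (𝒟' : Set (Set (Fin r → ℕ))) (hun : ∀ S ∈ 𝒟', ∀ T ∈ 𝒟', Disjoint S T → S ∪ T ∈ 𝒟')
    (J : Finset (Fin r)) (hJ : ∀ i ∈ J, ∀ k, cone k (J.erase i) ∈ 𝒟') :
    ∀ (n : ℕ) (k0 m0 : Fin r → ℕ), ∑ i, m0 i = n → (∀ i, i ∉ J → m0 i = 0) →
      cone (k0 + m0) J ∈ 𝒟' → cone k0 J ∈ 𝒟' := by
  intro n
  induction n with
  | zero =>
    intro k0 m0 hs _ h
    have hm : m0 = 0 := by
      funext i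
      exact (Finset.sum_eq_zero_iff.1 hs) i (Finset.mem_univ i)
    rw [hm, add_zero] at h
    exact h
  | succ n ih =>
    intro k0 m0 hs hz h
    have hex : ∃ i, m0 i ≠ 0 := by
      by_contra hne
      push Not at hne
      rw [Finset.sum_eq_zero fun i _ => hne i] at hs
      omega
    obtain ⟨i, hi⟩ := hex
    have hiJ : i ∈ J := by
      by_contra hc
      exact hi (hz i hc)
    obtain ⟨m1, hm1⟩ : ∃ m1 : Fin r → ℕ, m0 = m1 + Pi.single i 1 := by
      refine ⟨m0 - Pi.single i 1, ?_⟩
      funext j
      simp only [Pi.add_apply, Pi.sub_apply]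
      by_cases hji : j = i
      · subst hji
        rw [Pi.single_eq_same]
        omega
      · rw [Pi.single_eq_of_ne hji]
        omega
    subst hm1
    refine ih k0 m1 ?_ ?_ ?_
    · simp only [Pi.add_apply, Finset.sum_add_distrib] at hs
      rw [Finset.sum_pi_single'] at hs
      simpa using hs
    · intro j hj
      have := hz j hj
      rw [Pi.add_apply] at this
      omega
    · rw [cone_split (k0 + m1) J i hiJ]
      refine hun _ ?_ _ (hJ i hiJ _) (cone_disj _ _ _)
      rw [add_assoc]
      exact h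

lemma cone_sub (k0 m0 : Fin r → ℕ) (J : Finset (Fin r)) (hm : ∀ i, i ∉ J → m0 i = 0) :
    cone (k0 + m0) J ⊆ cone k0 J := by
  rintro x ⟨h1, h2⟩
  refine ⟨fun i => ?_, fun i hi => ?_⟩
  · have := h1 i
    rw [Pi.add_apply] at this
    omega
  · rw [h2 i hi, Pi.add_apply, hm i hi, add_zero]

end IDec

open IDec in
theorem prDec : StDec := by
  intro r U 𝒟 hU hemp hun hc
  have hun' : ∀ S ∈ {S : Set (Fin r → ℕ) | S \ U ∈ 𝒟}, ∀ T ∈ {S : Set (Fin r → ℕ) | S \ U ∈ 𝒟},
      Disjoint S T → S ∪ T ∈ {S : Set (Fin r → ℕ) | S \ U ∈ 𝒟} := by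
    intro S hS T hT hd
    simp only [Set.mem_ofPred_eq] at hS hT ⊢
    rw [Set.union_sdiff_distrib]
    exact hun _ hS _ hT (hd.mono Set.sdiff_subset Set.sdiff_subset)
  have claim : ∀ (n : ℕ) (J : Finset (Fin r)), J.card = n → ∀ k0, cone k0 J \ U ∈ 𝒟 := by
    intro n
    induction n using Nat.strong_induction_on with
    | _ n ih =>
      intro J hJ k0
      obtain ⟨m0, hm0, hm1⟩ : ∃ m0 : Fin r → ℕ, (∀ i, i ∉ J → m0 i = 0) ∧
          cone (k0 + m0) J \ U ∈ 𝒟 := by
        by_cases hd : Disjoint (cone k0 J) U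
        · obtain ⟨m0, h1, h2⟩ := hc k0 J hd
          refine ⟨m0, h1, ?_⟩
          have h3 : Disjoint (cone (k0 + m0) J) U := hd.mono_left (cone_sub k0 m0 J h1)
          rw [h3.sdiff_eq_left]
          exact h2
        · obtain ⟨k, ⟨hk1, hk2⟩, hkU⟩ := Set.not_disjoint_iff.1 hd
          have hk : k0 + (k - k0) = k := by
            funext i
            have := hk1 i
            simp only [Pi.add_apply, Pi.sub_apply]
            omega
          refine ⟨k - k0, fun i hi => ?_, ?_⟩
          · rw [Pi.sub_apply, hk2 i hi]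
            omega
          · rw [hk]
            have : cone k J \ U = ∅ := by
              rw [Set.sdiff_eq_empty]
              rintro x ⟨hx, _⟩
              have hx' : x = k + (x - k) := by
                funext i
                have := hx i
                simp only [Pi.add_apply, Pi.sub_apply]
                omega
              rw [hx']
              exact hU _ _ hkU
            rw [this]
            exact hemp
      refine back {S : Set (Fin r → ℕ) | S \ U ∈ 𝒟} hun' J ?_ _ k0 m0 rfl hm0 hm1
      intro i hi k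
      exact ih (J.erase i).card (by rw [← hJ]; exact Finset.card_erase_lt_of_mem hi) _ rfl k
  have h := claim _ Finset.univ rfl 0
  have e : cone (0 : Fin r → ℕ) Finset.univ \ U = Uᶜ := by
    ext x
    simp [cone]
  rw [e] at h
  exact h

end Pool.Agent.Work.MP_6da7fa_al.MB
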