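import Pool.Agent.Work.MP_6da7fa_al.MB.Stmts

set_option autoImplicit false

/-! Item A1: the derivatives of a D-finite series, up to denominators. -/

namespace Pool.Agent.Work.MP_6da7fa_al.MB

open Equiv

open scoped Polynomial PowerSeries

namespace IA1

/-- combinations of the first `r` derivatives -/
def InM (f : ℂ⟦X⟧) (r : ℕ) (g : ℂ⟦X⟧) : Prop :=
  ∃ c : Fin r → ℂ[X], g = ∑ j, ((c j : ℂ[X]) : ℂ⟦X⟧) * (PowerSeries.derivative ℂ)^[(j : ℕ)] f

theorem InM.zero (f : ℂ⟦X⟧) (r : ℕ) : InM f r 0 := ⟨0, by simp⟩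

theorem InM.add {f : ℂ⟦X⟧} {r : ℕ} {g h : ℂ⟦X⟧} (hg : InM f r g) (hh : InM f r h) :
    InM f r (g + h) := by
  obtain ⟨c, rfl⟩ := hg
  obtain ⟨e, rfl⟩ := hh
  refine ⟨c + e, ?_⟩
  rw [← Finset.sum_add_distrib]
  refine Finset.sum_congr rfl fun j _ => ?_
  rw [Pi.add_apply, Polynomial.coe_add, add_mul]

theorem InM.mul {f : ℂ⟦X⟧} {r : ℕ} {g : ℂ⟦X⟧} (p : ℂ[X]) (hg : InM f r g) :
    InM f r ((p : ℂ⟦X⟧) * g) := by
  obtain ⟨c, rfl⟩ := hg
  refine ⟨fun j => p * c j, ?_⟩
  rw [Finset.mul_sum]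
  refine Finset.sum_congr rfl fun j _ => ?_
  rw [Polynomial.coe_mul, mul_assoc]

theorem InM.sum {f : ℂ⟦X⟧} {r : ℕ} {ι : Type} (s : Finset ι) (g : ι → ℂ⟦X⟧)
    (hg : ∀ i ∈ s, InM f r (g i)) : InM f r (∑ i ∈ s, g i) := by
  classical
  induction s using Finset.induction_on with
  | empty => rw [Finset.sum_empty]; exact InM.zero f r
  | insert a s ha ih =>
    rw [Finset.sum_insert ha]
    exact (hg a (Finset.mem_insert_self a s)).add
      (ih fun i hi => hg i (Finset.mem_insert_of_mem hi))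

theorem InM.single (f : ℂ⟦X⟧) (r : ℕ) {j : ℕ} (hj : j < r) :
    InM f r ((PowerSeries.derivative ℂ)^[j] f) := by
  classical
  refine ⟨Pi.single ⟨j, hj⟩ 1, ?_⟩
  rw [Finset.sum_eq_single ⟨j, hj⟩]
  · rw [Pi.single_eq_same, Polynomial.coe_one, one_mul]
  · intro b _ hb
    rw [Pi.single_eq_of_ne hb, Polynomial.coe_zero, zero_mul]
  · intro h
    exact absurd (Finset.mem_univ _) h

/-- the leading coefficient relation -/
theorem lead (f : ℂ⟦X⟧) (hf : DFinite f) : ∃ (r : ℕ) (P : ℂ[X]), P ≠ 0 ∧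
    InM f r ((P : ℂ⟦X⟧) * (PowerSeries.derivative ℂ)^[r] f) := by
  classical
  obtain ⟨r, p, ⟨i0, hi0⟩, hsum⟩ := hf
  have hne : (Finset.univ.filter (fun i : Fin (r + 1) => p i ≠ 0)).Nonempty :=
    ⟨i0, Finset.mem_filter.2 ⟨Finset.mem_univ _, hi0⟩⟩
  obtain ⟨m, hm, hmax⟩ := Finset.exists_max_image _ (fun i : Fin (r + 1) => (i : ℕ)) hne
  rw [Finset.mem_filter] at hm
  refine ⟨m, p m, hm.2, fun j => - p ⟨j, by have := j.isLt; have := m.isLt; omega⟩, ?_⟩
  -- pass to sums over natural numbers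
  set q : ℕ → ℂ[X] := fun i => if h : i < r + 1 then p ⟨i, h⟩ else 0 with hq
  have h1 : ∑ i ∈ Finset.range (r + 1),
      ((q i : ℂ[X]) : ℂ⟦X⟧) * (PowerSeries.derivative ℂ)^[i] f = 0 := by
    rw [Finset.sum_range]
    rw [← hsum]
    refine Finset.sum_congr rfl fun i _ => ?_
    have : q i = p i := by
      rw [hq]
      simp only [dif_pos i.isLt]
    rw [this]
  have h2 : ∑ i ∈ Finset.range ((m : ℕ) + 1),
      ((q i : ℂ[X]) : ℂ⟦X⟧) * (PowerSeries.derivative ℂ)^[i] f = 0 := by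
    rw [← h1]
    refine Finset.sum_subset ?_ ?_
    · intro i hi
      rw [Finset.mem_range] at hi ⊢
      have := m.isLt
      omega
    · intro i hi hi'
      rw [Finset.mem_range] at hi hi'
      have hqi : q i = 0 := by
        rw [hq]
        simp only [dif_pos hi]
        by_contra hne'
        have h3 := hmax ⟨i, hi⟩ (Finset.mem_filter.2 ⟨Finset.mem_univ _, hne'⟩)
        simp only at h3
        omega
      rw [hqi, Polynomial.coe_zero, zero_mul]
  rw [Finset.sum_range_succ] at h2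
  have hqm : q (m : ℕ) = p m := by
    rw [hq]
    simp only [dif_pos m.isLt]
  rw [hqm] at h2
  have h3 : ((p m : ℂ[X]) : ℂ⟦X⟧) * (PowerSeries.derivative ℂ)^[(m : ℕ)] f =
      - ∑ i ∈ Finset.range (m : ℕ),
        ((q i : ℂ[X]) : ℂ⟦X⟧) * (PowerSeries.derivative ℂ)^[i] f := by
    rw [eq_neg_iff_add_eq_zero, add_comm]
    exact h2
  rw [h3, Finset.sum_range, ← Finset.sum_neg_distrib]
  refine Finset.sum_congr rfl fun j _ => ?_
  have hj : (j : ℕ) < r + 1 := by
    have := j.isLt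
    have := m.isLt
    omega
  have hqj : q (j : ℕ) = p ⟨j, hj⟩ := by
    rw [hq]
    simp only [dif_pos hj]
  rw [hqj, Polynomial.coe_neg, neg_mul]

end IA1

open IA1 in
theorem prA1 : StA1 := by
  classical
  intro f hf
  obtain ⟨r, P, hP, hlead⟩ := lead f hf
  refine ⟨r, P, hP, ?_⟩
  have main : ∀ k : ℕ, ∃ N : ℕ,
      InM f r (((P ^ N : ℂ[X]) : ℂ⟦X⟧) * (PowerSeries.derivative ℂ)^[k] f) := by
    intro k
    induction k with
    | zero =>
      rcases Nat.eq_zero_or_pos r with hr | hr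
      · subst hr
        refine ⟨1, ?_⟩
        rw [pow_one]
        exact hlead
      · refine ⟨0, ?_⟩
        rw [pow_zero, Polynomial.coe_one, one_mul]
        exact InM.single f r hr
    | succ k ih =>
      obtain ⟨N, hN⟩ := ih
      have hN' := hN
      obtain ⟨c, hc⟩ := hN'
      refine ⟨2 * N + 1, ?_⟩
      -- differentiate
      have h1 := congrArg (PowerSeries.derivative ℂ) hc
      rw [Derivation.leibniz, map_sum, PowerSeries.derivative_coe] at h1
      simp only [smul_eq_mul] at h1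
      have hit : ∀ i : ℕ, (PowerSeries.derivative ℂ) ((PowerSeries.derivative ℂ)^[i] f) =
          (PowerSeries.derivative ℂ)^[i + 1] f := fun i =>
        (Function.iterate_succ_apply' (PowerSeries.derivative ℂ) i f).symm
      rw [hit] at h1
      have h2 : ∀ j : Fin r, (PowerSeries.derivative ℂ)
          (((c j : ℂ[X]) : ℂ⟦X⟧) * (PowerSeries.derivative ℂ)^[(j : ℕ)] f) =
          ((c j : ℂ[X]) : ℂ⟦X⟧) * (PowerSeries.derivative ℂ)^[(j : ℕ) + 1] f +
          ((Polynomial.derivative (c j) : ℂ[X]) : ℂ⟦X⟧) *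
            (PowerSeries.derivative ℂ)^[(j : ℕ)] f := by
        intro j
        rw [Derivation.leibniz, PowerSeries.derivative_coe, hit, smul_eq_mul, smul_eq_mul]
        ring
      rw [Finset.sum_congr rfl fun j _ => h2 j] at h1
      have h3 : ((P ^ (2 * N + 1) : ℂ[X]) : ℂ⟦X⟧) * (PowerSeries.derivative ℂ)^[k + 1] f =
          (∑ j : Fin r, ((P ^ (N + 1) : ℂ[X]) : ℂ⟦X⟧) *
            (((c j : ℂ[X]) : ℂ⟦X⟧) * (PowerSeries.derivative ℂ)^[(j : ℕ) + 1] f +
            ((Polynomial.derivative (c j) : ℂ[X]) : ℂ⟦X⟧) *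
              (PowerSeries.derivative ℂ)^[(j : ℕ)] f)) +
          ((- (P * Polynomial.derivative (P ^ N)) : ℂ[X]) : ℂ⟦X⟧) *
            (((P ^ N : ℂ[X]) : ℂ⟦X⟧) * (PowerSeries.derivative ℂ)^[k] f) := by
        rw [← Finset.mul_sum, ← h1]
        have e1 : (P ^ (2 * N + 1) : ℂ[X]) = P ^ (N + 1) * P ^ N := by
          rw [← pow_add]
          congr 1
          omega
        have e2 : (P ^ (N + 1) : ℂ[X]) = P * P ^ N := by
          rw [pow_succ]
          ring
        rw [e1, e2]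
        simp only [Polynomial.coe_mul, Polynomial.coe_neg]
        ring
      rw [h3]
      refine InM.add (InM.sum _ _ fun j _ => ?_) (InM.mul _ hN)
      rw [mul_add]
      refine InM.add ?_ (InM.mul _ (InM.mul _ (InM.single f r j.isLt)))
      rcases Nat.lt_or_ge ((j : ℕ) + 1) r with hj | hj
      · exact InM.mul _ (InM.mul _ (InM.single f r hj))
      · have hjr : (j : ℕ) + 1 = r := by
          have := j.isLt
          omega
        rw [hjr]
        have e3 : ((P ^ (N + 1) : ℂ[X]) : ℂ⟦X⟧) *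
            (((c j : ℂ[X]) : ℂ⟦X⟧) * (PowerSeries.derivative ℂ)^[r] f) =
            ((P ^ N * c j : ℂ[X]) : ℂ⟦X⟧) *
              (((P : ℂ[X]) : ℂ⟦X⟧) * (PowerSeries.derivative ℂ)^[r] f) := by
          rw [pow_succ]
          simp only [Polynomial.coe_mul]
          ring
        rw [e3]
        exact InM.mul _ hlead
  intro k
  obtain ⟨N, c, hc⟩ := main k
  exact ⟨N, c, hc⟩

end Pool.Agent.Work.MP_6da7fa_al.MB
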