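import Pool.Agent.Work.MP_6da7fa_al.MB.Stmts

set_option autoImplicit false

/-!
# Item A2: sums of D-finite series
-/

namespace Pool.Agent.Work.MP_6da7fa_al.MB

open Equiv

open scoped Polynomial PowerSeries

namespace IA2

/-- the final cancellation: a combination of the rows is zero, so the combination of the series is -/
theorem comb {m r : ℕ} (w : Fin m → ℂ[X]) (C : Fin m → Fin r → ℂ[X]) (u : Fin r → ℂ⟦X⟧)
    (h : ∀ j, ∑ k, w k * C k j = 0) :
    ∑ k, ((w k : ℂ[X]) : ℂ⟦X⟧) * ∑ j, ((C k j : ℂ[X]) : ℂ⟦X⟧) * u j = 0 := by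
  have h1 : ∀ k, ((w k : ℂ[X]) : ℂ⟦X⟧) * ∑ j, ((C k j : ℂ[X]) : ℂ⟦X⟧) * u j =
      ∑ j, ((w k * C k j : ℂ[X]) : ℂ⟦X⟧) * u j := by
    intro k
    rw [Finset.mul_sum]
    refine Finset.sum_congr rfl (fun j _ => ?_)
    rw [Polynomial.coe_mul]
    ring
  rw [Finset.sum_congr rfl (fun k _ => h1 k), Finset.sum_comm]
  refine Finset.sum_eq_zero (fun j _ => ?_)
  rw [← Finset.sum_mul]
  have h2 : ∑ k, ((w k * C k j : ℂ[X]) : ℂ⟦X⟧) = ((∑ k, w k * C k j : ℂ[X]) : ℂ⟦X⟧) := by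
    exact (map_sum (Polynomial.coeToPowerSeries.ringHom (R := ℂ)) (fun k => w k * C k j)
      Finset.univ).symm
  rw [h2, h j]
  simp

/-- linear dependence of `r + s + 1` rows of length `r + s` -/
theorem dep (r s : ℕ) (C : Fin (r + s + 1) → Fin r ⊕ Fin s → ℂ[X]) :
    ∃ w : Fin (r + s + 1) → ℂ[X], (∃ k, w k ≠ 0) ∧ ∀ l, ∑ k, w k * C k l = 0 := by
  have h1 : ¬ LinearIndependent ℂ[X] C := by
    intro h
    have h2 := h.fintype_card_le_finrank
    rw [Module.finrank_fintype_fun_eq_card, Fintype.card_fin, Fintype.card_sum, Fintype.card_fin,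
      Fintype.card_fin] at h2
    omega
  obtain ⟨w, hw, hne⟩ := Fintype.not_linearIndependent_iff.1 h1
  refine ⟨w, hne, fun l => ?_⟩
  have h2 := congrFun hw l
  simpa [Finset.sum_apply] using h2

end IA2

open IA2 in
/-- Sums of D-finite series. -/
theorem prA2 : StA2 := by
  intro hA1 f g hf hg
  obtain ⟨r, P, hP, h1⟩ := hA1 f hf
  obtain ⟨s, Q, hQ, h2⟩ := hA1 g hg
  choose N c hc using h1
  choose M e he using h2
  obtain ⟨w, ⟨k0, hk0⟩, hw⟩ := dep r s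
    (fun k => Sum.elim (fun j => Q ^ M k * c k j) (fun j => P ^ N k * e k j))
  refine ⟨r + s, fun k => w k * (P ^ N k * Q ^ M k), ⟨k0, ?_⟩, ?_⟩
  · exact mul_ne_zero hk0 (mul_ne_zero (pow_ne_zero _ hP) (pow_ne_zero _ hQ))
  · have e1 := comb w (fun k j => Q ^ M k * c k j)
      (fun j => (PowerSeries.derivative ℂ)^[(j : ℕ)] f) (fun j => hw (Sum.inl j))
    have e2 := comb w (fun k j => P ^ N k * e k j)
      (fun j => (PowerSeries.derivative ℂ)^[(j : ℕ)] g) (fun j => hw (Sum.inr j))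
    have e3 : ∀ k : Fin (r + s + 1),
        ((w k * (P ^ N k * Q ^ M k) : ℂ[X]) : ℂ⟦X⟧) *
          (PowerSeries.derivative ℂ)^[(k : ℕ)] (f + g) =
        ((w k : ℂ[X]) : ℂ⟦X⟧) * (∑ j, ((Q ^ M k * c k j : ℂ[X]) : ℂ⟦X⟧) *
          (PowerSeries.derivative ℂ)^[(j : ℕ)] f) +
        ((w k : ℂ[X]) : ℂ⟦X⟧) * (∑ j, ((P ^ N k * e k j : ℂ[X]) : ℂ⟦X⟧) *
          (PowerSeries.derivative ℂ)^[(j : ℕ)] g) := by
      intro k
      rw [iterate_map_add (PowerSeries.derivative ℂ) (k : ℕ) f g]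
      have e4 : ∑ j, ((Q ^ M k * c k j : ℂ[X]) : ℂ⟦X⟧) *
          (PowerSeries.derivative ℂ)^[(j : ℕ)] f =
          ((Q ^ M k : ℂ[X]) : ℂ⟦X⟧) * (((P ^ N k : ℂ[X]) : ℂ⟦X⟧) *
            (PowerSeries.derivative ℂ)^[(k : ℕ)] f) := by
        rw [hc k, Finset.mul_sum]
        refine Finset.sum_congr rfl (fun j _ => ?_)
        rw [Polynomial.coe_mul]
        ring
      have e5 : ∑ j, ((P ^ N k * e k j : ℂ[X]) : ℂ⟦X⟧) *
          (PowerSeries.derivative ℂ)^[(j : ℕ)] g =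
          ((P ^ N k : ℂ[X]) : ℂ⟦X⟧) * (((Q ^ M k : ℂ[X]) : ℂ⟦X⟧) *
            (PowerSeries.derivative ℂ)^[(k : ℕ)] g) := by
        rw [he k, Finset.mul_sum]
        refine Finset.sum_congr rfl (fun j _ => ?_)
        rw [Polynomial.coe_mul]
        ring
      rw [e4, e5, Polynomial.coe_mul, Polynomial.coe_mul]
      ring
    rw [Finset.sum_congr rfl (fun k _ => e3 k), Finset.sum_add_distrib, e1, e2, add_zero]

end Pool.Agent.Work.MP_6da7fa_al.MB
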