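import Pool.Agent.Work.MP_6da7fa_al.MB.Stmts

set_option autoImplicit false

/-!
# Theorem MB: item B1, the system of groups of a monomial module
-/

namespace Pool.Agent.Work.MP_6da7fa_al.MB

open Equiv

namespace IB1

theorem map_id' {B : ℕ → Type} {A : SetSeq B} {S : Type} (x : A.Sp S) : x.map id = x := by
  refine SetSeq.Sp.ind (p := fun x => x.map id = x) ?_ x
  intro N u ℓ
  rw [SetSeq.Sp.map_cls, Function.id_comp]

theorem map_comp' {B : ℕ → Type} {A : SetSeq B} {S T U : Type} (f : S → T) (g : T → U)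
    (x : A.Sp S) : (x.map f).map g = x.map (g ∘ f) := by
  refine SetSeq.Sp.ind (p := fun x => (x.map f).map g = x.map (g ∘ f)) ?_ x
  intro N u ℓ
  rfl

variable {J : Type} [Fintype J] {d : J → ℕ} {B : ℕ → Type} {A : SetSeq B}

/-- the group of level `m` -/
def grp (Q : MM d A) {e : ℕ} (y : B e) (m : J → ℕ) : Subgroup (Perm (Om (Fin e) d)) where
  carrier := {g | (∀ ω, ω ∉ lev m → g ω = ω) ∧ (Q.X y m).map g = Q.X y m}
  mul_mem' := by
    rintro a b ⟨ha1, ha2⟩ ⟨hb1, hb2⟩
    refine ⟨fun ω hω => ?_, ?_⟩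
    · rw [Perm.mul_apply, hb1 ω hω, ha1 ω hω]
    · rw [Perm.coe_mul, ← map_comp', hb2, ha2]
  one_mem' := by
    refine ⟨fun ω _ => rfl, ?_⟩
    rw [Perm.coe_one, map_id']
  inv_mem' := by
    rintro a ⟨ha1, ha2⟩
    refine ⟨fun ω hω => ?_, ?_⟩
    · rw [Perm.inv_eq_iff_eq]
      exact (ha1 ω hω).symm
    · have h1 : ((Q.X y m).map a).map (a⁻¹ : Perm (Om (Fin e) d)) = Q.X y m := by
        rw [map_comp', ← Perm.coe_mul, inv_mul_cancel, Perm.coe_one, map_id']
      rw [ha2] at h1
      exact h1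

theorem mem_grp (Q : MM d A) {e : ℕ} (y : B e) (m : J → ℕ) (g : Perm (Om (Fin e) d)) :
    g ∈ grp Q y m ↔ (∀ ω, ω ∉ lev m → g ω = ω) ∧ (Q.X y m).map g = Q.X y m := Iff.rfl

omit [Fintype J] in
theorem bp_blk {Z : Type} (s : J → Perm ℕ) (i : J) (j : ℕ) :
    (bp s : Perm (Om Z d)) ∘ (blk i j : Fin (d i) → Om Z d) = blk i (s i j) := rfl

theorem map_range_perm (n : ℕ) (s : Perm ℕ) (hs : ∀ j, n ≤ j → s j = j) :
    (Multiset.range n).map s = Multiset.range n := by
  have hn : ((Multiset.range n).map s).Nodup :=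
    Multiset.Nodup.map s.injective (Multiset.nodup_range n)
  refine (Multiset.Nodup.ext hn (Multiset.nodup_range n)).2 fun k => ?_
  rw [Multiset.mem_map, Multiset.mem_range]
  constructor
  · rintro ⟨j, hj, rfl⟩
    rw [Multiset.mem_range] at hj
    by_contra hcon
    have h1 := hs (s j) (not_lt.1 hcon)
    have h2 := s.injective h1
    rw [h2] at hcon
    exact hcon hj
  · intro hk
    refine ⟨s.symm k, ?_, by simp⟩
    rw [Multiset.mem_range]
    by_contra hcon
    have h1 := hs (s.symm k) (not_lt.1 hcon)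
    rw [Equiv.apply_symm_apply] at h1
    rw [← h1] at hcon
    exact hcon hk

/-- change of labels of a labelled generator -/
abbrev chg {S T : Type} (g : S → T) : LG d S → LG d T := fun β => ⟨β.1, g ∘ β.2⟩

theorem map_blk_sum {Z : Type} (r : J → Multiset ℕ) (g : Om Z d → Om Z d) :
    (∑ i, (r i).map fun j => (⟨i, blk i j⟩ : LG d (Om Z d))).map (chg g) =
      ∑ i, (r i).map fun j => (⟨i, g ∘ blk i j⟩ : LG d (Om Z d)) := by
  rw [← Multiset.coe_mapAddMonoidHom, map_sum]
  refine Finset.sum_congr rfl fun i _ => ?_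
  rw [Multiset.coe_mapAddMonoidHom, Multiset.map_map]
  rfl

omit [Fintype J] in
theorem lev_mono {Z : Type} {m m' : J → ℕ} (h : m ≤ m') : (lev m : Set (Om Z d)) ⊆ lev m' :=
  fun _ hω x hx => lt_of_lt_of_le (hω x hx) (h x.1)

omit [Fintype J] in
theorem blk_notMem {Z : Type} {m : J → ℕ} {i : J} {j : ℕ} (h : m i ≤ j) (a : Fin (d i)) :
    (blk i j a : Om Z d) ∉ lev m := fun hmem =>
  absurd (hmem ⟨i, (j, a)⟩ rfl) (not_lt.2 h)

theorem blks_add {Z : Type} {m m' : J → ℕ} (h : m ≤ m') :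
    blks Z d m' = (∑ i, ((Multiset.range (m' i - m i)).map (m i + ·)).map
      fun j => (⟨i, blk i j⟩ : LG d (Om Z d))) + blks Z d m := by
  unfold blks
  rw [← Finset.sum_add_distrib]
  refine Finset.sum_congr rfl fun i _ => ?_
  have h1 : m' i = m i + (m' i - m i) := (Nat.add_sub_of_le (h i)).symm
  rw [← Multiset.map_add]
  congr 1
  conv_lhs => rw [h1]
  rw [Multiset.range_add, add_comm]

end IB1

theorem prB1 : StB1 := by
  intro J _ _ d B A Q e y
  refine ⟨IB1.grp Q y, ⟨fun m g hg ω hω => hg.1 ω hω, ?_, ?_⟩, fun m g => IB1.mem_grp Q y m g⟩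
  · intro m m' hm g hg
    refine ⟨fun ω hω => hg.1 ω fun h => hω (IB1.lev_mono hm h), ?_⟩
    have h1 : Q.X y m' = Q.prod (∑ i, ((Multiset.range (m' i - m i)).map (m i + ·)).map
        fun j => (⟨i, blk i j⟩ : LG d (Om (Fin e) d))) (Q.X y m) := by
      unfold MM.X
      rw [IB1.blks_add hm, Q.prod_add]
    rw [h1, Q.map_prod, hg.2]
    congr 1
    refine (IB1.map_blk_sum _ _).trans ?_
    refine Finset.sum_congr rfl fun i _ => ?_
    refine Multiset.map_congr rfl fun j hj => ?_
    rw [Multiset.mem_map] at hj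
    obtain ⟨k, -, rfl⟩ := hj
    congr 1
    funext a
    exact hg.1 _ (IB1.blk_notMem (Nat.le_add_right _ _) a)
  · intro m s hs
    refine ⟨fun ω hω => ?_, ?_⟩
    · rcases ω with z | x
      · rfl
      · have h1 : m x.1 ≤ x.2.1 := by
          by_contra hcon
          apply hω
          intro x' hx'
          have h2 : x = x' := Sum.inr_injective hx'
          subst h2
          exact not_le.1 hcon
        show (Sum.inr ⟨x.1, (s x.1 x.2.1, x.2.2)⟩ : Om (Fin e) d) = Sum.inr x
        rw [hs x.1 x.2.1 h1]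
    · unfold MM.X
      rw [Q.map_prod]
      have h1 : (A.cls e (some y) (Sum.inl : Fin e → Om (Fin e) d)).map (bp s) =
          A.cls e (some y) Sum.inl := rfl
      rw [h1]
      congr 1
      refine (IB1.map_blk_sum _ _).trans ?_
      unfold blks
      refine Finset.sum_congr rfl fun i _ => ?_
      have h2 : (Multiset.range (m i)).map (fun j => (⟨i, (bp s : Perm (Om (Fin e) d)) ∘ blk i j⟩ :
          LG d (Om (Fin e) d))) = ((Multiset.range (m i)).map (s i)).map
          fun j => (⟨i, blk i j⟩ : LG d (Om (Fin e) d)) := by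
        rw [Multiset.map_map]
        rfl
      rw [h2, IB1.map_range_perm (m i) (s i) (hs i)]

end Pool.Agent.Work.MP_6da7fa_al.MB
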