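import Pool.Agent.Work.MP_6da7fa_al.MB.Stmts

set_option autoImplicit false

/-!
# Theorem MB, item B2: the shape of `X y m`
-/

namespace Pool.Agent.Work.MP_6da7fa_al.MB

open Equiv

namespace IB2

theorem cls_cast {B : ℕ → Type} (A : SetSeq B) {S : Type} {N N' : ℕ} (h : N = N')
    (u : Option (B N)) (ℓ : Fin N → S) :
    ∃ u' : Option (B N'), A.cls N u ℓ = A.cls N' u' (ℓ ∘ Fin.cast h.symm) := by
  subst h
  exact ⟨u, rfl⟩

theorem range_append {S : Type} {a n M : ℕ} (h : a + n = M) (β : Fin a → S) (ℓ : Fin n → S) :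
    Set.range (Fin.append β ℓ ∘ Fin.cast h.symm) = Set.range ℓ ∪ Set.range β := by
  ext ω
  constructor
  · rintro ⟨x, rfl⟩
    obtain ⟨y, rfl⟩ : ∃ y : Fin (a + n), x = Fin.cast h y := ⟨Fin.cast h.symm x, by simp⟩
    refine Fin.addCases (fun z => ?_) (fun z => ?_) y
    · right
      exact ⟨z, by simp⟩
    · left
      exact ⟨z, by simp⟩
  · rintro (⟨z, rfl⟩ | ⟨z, rfl⟩)
    · exact ⟨Fin.cast h (Fin.natAdd a z), by simp⟩
    · exact ⟨Fin.cast h (Fin.castAdd n z), by simp⟩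

/-- the number of labels of a multiset of labelled generators -/
def tot {J : Type} (d : J → ℕ) (S : Type) : Multiset (LG d S) →+ ℕ :=
  (Multiset.sumAddMonoidHom (M := ℕ)).comp (Multiset.mapAddMonoidHom fun β : LG d S => d β.1)

theorem tot_cons {J : Type} {d : J → ℕ} {S : Type} (β : LG d S) (s : Multiset (LG d S)) :
    tot d S (β ::ₘ s) = d β.1 + tot d S s := by
  simp [tot]

theorem gen {B : ℕ → Type} {J : Type} {d : J → ℕ} {A : SetSeq B} (Q : MM d A) {S : Type}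
    (s : Multiset (LG d S)) (N : ℕ) (u : Option (B N)) (ℓ : Fin N → S) :
    ∃ (u' : Option (B (N + tot d S s))) (ℓ' : Fin (N + tot d S s) → S),
      Q.prod s (A.cls N u ℓ) = A.cls (N + tot d S s) u' ℓ' ∧
      Set.range ℓ' = Set.range ℓ ∪ {ω | ∃ β ∈ s, ω ∈ Set.range β.2} := by
  induction s using Multiset.induction with
  | empty =>
    refine ⟨u, ℓ, rfl, ?_⟩
    have h0 : {ω : S | ∃ β ∈ (0 : Multiset (LG d S)), ω ∈ Set.range β.2} = ∅ := by
      ext ω
      simp
    rw [h0, Set.union_empty]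
    rfl
  | cons β s ih =>
    obtain ⟨u', ℓ', h1, h2⟩ := ih
    have h : d β.1 + (N + tot d S s) = N + tot d S (β ::ₘ s) := by
      rw [tot_cons]; omega
    refine ⟨u'.bind (Q.g β.1 h), Fin.append β.2 ℓ' ∘ Fin.cast h.symm, ?_, ?_⟩
    · rw [Q.prod_cons, h1, Q.op_cls β.1 β.2 h]
    · rw [range_append h, h2, Set.union_assoc]
      congr 1
      ext ω
      constructor
      · rintro (⟨γ, hγ, h3⟩ | h3)
        · exact ⟨γ, Multiset.mem_cons_of_mem hγ, h3⟩
        · exact ⟨β, Multiset.mem_cons_self β s, h3⟩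
      · rintro ⟨γ, hγ, h3⟩
        rcases Multiset.mem_cons.mp hγ with h4 | h4
        · subst h4
          exact Or.inr h3
        · exact Or.inl ⟨γ, h4, h3⟩

theorem tot_blks {J : Type} [Fintype J] (d : J → ℕ) (e : ℕ) (m : J → ℕ) :
    tot d (Om (Fin e) d) (blks (Fin e) d m) = ∑ i, d i * m i := by
  unfold blks
  rw [map_sum]
  refine Finset.sum_congr rfl fun i _ => ?_
  simp [tot, mul_comm]

theorem union_eq {J : Type} [Fintype J] (d : J → ℕ) (e : ℕ) (m : J → ℕ) :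
    Set.range (Sum.inl : Fin e → Om (Fin e) d) ∪
      {ω | ∃ β ∈ blks (Fin e) d m, ω ∈ Set.range β.2} = lev m := by
  ext ω
  constructor
  · rintro (⟨z, rfl⟩ | ⟨β, hβ, ⟨a, rfl⟩⟩)
    · intro x hx
      exact absurd hx (by simp)
    · unfold blks at hβ
      rw [Multiset.mem_sum] at hβ
      obtain ⟨i, -, hβ⟩ := hβ
      rw [Multiset.mem_map] at hβ
      obtain ⟨j, hj, rfl⟩ := hβ
      rw [Multiset.mem_range] at hj
      intro x hx
      have h1 : (⟨i, (j, a)⟩ : Σ i : J, ℕ × Fin (d i)) = x := Sum.inr_injective hx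
      subst h1
      exact hj
  · intro h
    rcases ω with z | x
    · exact Or.inl ⟨z, rfl⟩
    · right
      have hx := h x rfl
      obtain ⟨i, j, a⟩ := x
      refine ⟨⟨i, blk i j⟩, ?_, a, rfl⟩
      unfold blks
      rw [Multiset.mem_sum]
      refine ⟨i, Finset.mem_univ i, ?_⟩
      rw [Multiset.mem_map]
      exact ⟨j, Multiset.mem_range.mpr hx, rfl⟩

/-- the enumeration of `lev m` -/
def F {J : Type} (d : J → ℕ) (e : ℕ) (m : J → ℕ) :
    (Fin e ⊕ (Σ i : J, Fin (m i) × Fin (d i))) → Om (Fin e) d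
  | Sum.inl z => Sum.inl z
  | Sum.inr x => Sum.inr ⟨x.1, ((x.2.1 : ℕ), x.2.2)⟩

theorem F_inj {J : Type} (d : J → ℕ) (e : ℕ) (m : J → ℕ) : Function.Injective (F d e m) := by
  rintro (z | ⟨i, j, a⟩) (z' | ⟨i', j', a'⟩) h
  · exact congrArg Sum.inl (Sum.inl_injective h)
  · exact absurd h (by simp [F])
  · exact absurd h (by simp [F])
  · have h1 : (⟨i, ((j : ℕ), a)⟩ : Σ i : J, ℕ × Fin (d i)) = ⟨i', ((j' : ℕ), a')⟩ :=
      Sum.inr_injective h
    obtain ⟨h2, h3⟩ := Sigma.mk.inj_iff.mp h1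
    subst h2
    have h4 := eq_of_heq h3
    obtain ⟨h5, h6⟩ := Prod.ext_iff.mp h4
    have h7 : j = j' := Fin.ext h5
    subst h7
    subst h6
    rfl

theorem F_range {J : Type} (d : J → ℕ) (e : ℕ) (m : J → ℕ) : Set.range (F d e m) = lev m := by
  ext ω
  constructor
  · rintro ⟨(z | ⟨i, j, a⟩), rfl⟩
    · intro x hx
      exact absurd hx (by simp [F])
    · intro x hx
      have h1 : (⟨i, ((j : ℕ), a)⟩ : Σ i : J, ℕ × Fin (d i)) = x := Sum.inr_injective hx
      subst h1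
      exact j.isLt
  · intro h
    rcases ω with z | ⟨i, j, a⟩
    · exact ⟨Sum.inl z, rfl⟩
    · have hx : j < m i := h ⟨i, (j, a)⟩ rfl
      exact ⟨Sum.inr ⟨i, (⟨j, hx⟩, a)⟩, rfl⟩

theorem card_lev {J : Type} [Fintype J] (d : J → ℕ) (e : ℕ) (m : J → ℕ) :
    (lev (Z := Fin e) (d := d) m).ncard = wt e d m := by
  rw [← F_range, Set.ncard_range_of_injective (F_inj d e m), Nat.card_eq_fintype_card]
  simp [wt, Fintype.card_sum, Fintype.card_sigma, Fintype.card_prod, mul_comm]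

end IB2

theorem prB2 : StB2 := by
  intro J _ _ d B A Q e y m
  obtain ⟨u1, ℓ1, h1, h2⟩ := IB2.gen Q (blks (Fin e) d m) e (some y)
    (Sum.inl : Fin e → Om (Fin e) d)
  rw [IB2.union_eq] at h2
  have hN : e + IB2.tot d (Om (Fin e) d) (blks (Fin e) d m) = wt e d m := by
    rw [IB2.tot_blks]
    rfl
  obtain ⟨u, hu⟩ := IB2.cls_cast A hN u1 ℓ1
  have h3 : Set.range (ℓ1 ∘ Fin.cast hN.symm) = lev m := by
    rw [← h2]
    exact (Fin.castOrderIso hN.symm).surjective.range_comp ℓ1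
  refine ⟨u, ℓ1 ∘ Fin.cast hN.symm, ?_, ?_, h3⟩
  · unfold MM.X
    rw [h1, hu]
  · classical
    have h4 : (Finset.univ.image (ℓ1 ∘ Fin.cast hN.symm)).card =
        (Finset.univ : Finset (Fin (wt e d m))).card := by
      rw [← Set.ncard_coe_finset, Finset.coe_image, Finset.coe_univ, Set.image_univ, h3,
        IB2.card_lev, Finset.card_univ, Fintype.card_fin]
    have h5 := Finset.card_image_iff.mp h4
    intro a b hab
    exact h5 (Finset.mem_coe.mpr (Finset.mem_univ a)) (Finset.mem_coe.mpr (Finset.mem_univ b)) hab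

end Pool.Agent.Work.MP_6da7fa_al.MB
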