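import Pool.Agent.Work.MP_6da7fa_al.MB.Stmts

set_option autoImplicit false

/-!
# Theorem MB, item B3: orbit and stabilizer
-/

namespace Pool.Agent.Work.MP_6da7fa_al.MB

open Equiv

namespace IB3

/-- the action of the symmetric group on `B N` -/
@[reducible] def act {B : ℕ → Type} (A : SetSeq B) (N : ℕ) : MulAction (Perm (Fin N)) (B N) where
  smul := A.act N
  one_smul := A.act_one N
  mul_smul := A.act_mul N

/-- the extension of a permutation of `Fin N` to the labels -/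
noncomputable def ext {Ω : Type} {N : ℕ} (ℓ : Fin N → Ω) (hℓ : Function.Injective ℓ) (σ : Perm (Fin N)) :
    Perm Ω :=
  open Classical in σ.extendDomain (p := fun ω => ω ∈ Set.range ℓ) (Equiv.ofInjective ℓ hℓ)

theorem ext_in {Ω : Type} {N : ℕ} (ℓ : Fin N → Ω) (hℓ : Function.Injective ℓ) (σ : Perm (Fin N))
    (a : Fin N) : ext ℓ hℓ σ (ℓ a) = ℓ (σ a) := by
  classical
  exact Equiv.Perm.extendDomain_apply_image (p := fun ω => ω ∈ Set.range ℓ) σ
    (Equiv.ofInjective ℓ hℓ) a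

theorem ext_out {Ω : Type} {N : ℕ} (ℓ : Fin N → Ω) (hℓ : Function.Injective ℓ) (σ : Perm (Fin N))
    {ω : Ω} (h : ω ∉ Set.range ℓ) : ext ℓ hℓ σ ω = ω := by
  classical
  exact Equiv.Perm.extendDomain_apply_not_subtype (p := fun ω => ω ∈ Set.range ℓ) σ
    (Equiv.ofInjective ℓ hℓ) h

theorem osz_eq {B : ℕ → Type} (A : SetSeq B) {N : ℕ} (b : B N) :
    let _ := act A N
    A.osz (A.pt b) = Nat.card (MulAction.orbit (Perm (Fin N)) b) := by
  let _ := act A N
  show Nat.card {b' : B N // A.pt b' = A.pt b} = _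
  refine Nat.card_congr (Equiv.subtypeEquivRight fun b' => ?_)
  constructor
  · intro h
    obtain ⟨σ, h1, -⟩ := SetSeq.cls_eq.mp h
    have h2 : b = A.act N σ b' := Option.some.inj h1
    refine ⟨σ⁻¹, ?_⟩
    show A.act N σ⁻¹ b = b'
    rw [h2, ← A.act_mul, inv_mul_cancel, A.act_one]
  · rintro ⟨σ, h⟩
    have h2 : A.act N σ b = b' := h
    refine (SetSeq.cls_eq.mpr ⟨σ, ?_, rfl⟩).symm
    rw [← h2]
    rfl

end IB3

open IB3 in
theorem prB3 : StB3 := by
  intro J Z d B A m N ℓ b hℓ hr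
  let _ := act A N
  have h1 : Nat.card {g : Perm (Om Z d) // (∀ ω, ω ∉ lev m → g ω = ω) ∧
      (A.cls N (some b) ℓ).map g = A.cls N (some b) ℓ} =
      Nat.card (MulAction.stabilizer (Perm (Fin N)) b) := by
    symm
    refine Nat.card_eq_of_bijective (fun σ => ⟨ext ℓ hℓ σ.1, ?_, ?_⟩) ⟨?_, ?_⟩
    · intro ω hω
      rw [← hr] at hω
      exact ext_out ℓ hℓ _ hω
    · rw [SetSeq.Sp.map_cls]
      refine SetSeq.cls_eq.mpr ⟨σ.1, ?_, ?_⟩
      · have h2 : A.act N σ.1 b = b := σ.2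
        show some b = some (A.act N σ.1 b)
        rw [h2]
      · funext a
        exact ext_in ℓ hℓ σ.1 a
    · intro σ τ h
      have h2 : ext ℓ hℓ σ.1 = ext ℓ hℓ τ.1 := congrArg Subtype.val h
      refine Subtype.ext (Equiv.ext fun a => hℓ ?_)
      rw [← ext_in ℓ hℓ σ.1 a, ← ext_in ℓ hℓ τ.1 a, h2]
    · rintro ⟨g, hg1, hg2⟩
      rw [SetSeq.Sp.map_cls] at hg2
      obtain ⟨σ, h2, h3⟩ := SetSeq.cls_eq.mp hg2
      have h4 : A.act N σ b = b := (Option.some.inj h2).symm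
      refine ⟨⟨σ, h4⟩, Subtype.ext (Equiv.ext fun ω => ?_)⟩
      show ext ℓ hℓ σ ω = g ω
      by_cases hω : ω ∈ Set.range ℓ
      · obtain ⟨a, rfl⟩ := hω
        rw [ext_in]
        exact (congrFun h3 a).symm
      · rw [ext_out ℓ hℓ σ hω]
        rw [hr] at hω
        exact (hg1 ω hω).symm
  rw [h1, osz_eq A b, Nat.card_congr (MulAction.orbitEquivQuotientStabilizer (Perm (Fin N)) b), mul_comm,
    ← Subgroup.card_eq_card_quotient_mul_card_subgroup, Nat.card_eq_fintype_card, Fintype.card_perm,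
    Fintype.card_fin]

end Pool.Agent.Work.MP_6da7fa_al.MB
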