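import Pool.Agent.Work.MP_6da7fa_al.MB.Stmts

set_option autoImplicit false

/-! Item B4 (helper86): forgetting the labels of `x^m y`, and the degree of `x^m x`. -/

namespace Pool.Agent.Work.MP_6da7fa_al.MB

open Equiv

namespace IB4

theorem map_blks (J : Type) [Fintype J] (d : J → ℕ) (e : ℕ) (m : J → ℕ) :
    (blks (Fin e) d m).map (fun β => (⟨β.1, (fun _ => ()) ∘ β.2⟩ : LG d Unit)) = uns d m := by
  unfold blks uns
  have h := map_sum (Multiset.mapAddMonoidHom
    (fun β : LG d (Om (Fin e) d) => (⟨β.1, (fun _ => ()) ∘ β.2⟩ : LG d Unit)))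
    (fun i => (Multiset.range (m i)).map fun j => (⟨i, blk i j⟩ : LG d (Om (Fin e) d)))
    (Finset.univ : Finset J)
  simp only [Multiset.coe_mapAddMonoidHom] at h
  rw [h]
  refine Finset.sum_congr rfl fun i _ => ?_
  rw [Multiset.map_map]
  have h2 : ((fun β : LG d (Om (Fin e) d) => (⟨β.1, (fun _ => ()) ∘ β.2⟩ : LG d Unit)) ∘
      fun j => (⟨i, blk i j⟩ : LG d (Om (Fin e) d))) =
      Function.const ℕ (⟨i, fun _ => ()⟩ : LG d Unit) := rfl
  rw [h2, Multiset.map_const, Multiset.card_range]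

theorem deg {J : Type} {d : J → ℕ} {B : ℕ → Type} {A : SetSeq B} (Q : MM d A) (x : A.Sp Unit)
    (s : Multiset (LG d Unit)) : (Q.prod s x).1 = x.1 + (s.map fun β => d β.1).sum := by
  induction s using Multiset.induction with
  | empty =>
    rw [Q.prod_zero, Multiset.map_zero, Multiset.sum_zero, add_zero]
  | cons β s ih =>
    rw [Q.prod_cons, Multiset.map_cons, Multiset.sum_cons]
    have h : (Q.op β.1 β.2 (Q.prod s x)).1 = d β.1 + (Q.prod s x).1 := rfl
    rw [h, ih]
    omega

theorem sum_uns (J : Type) [Fintype J] (d : J → ℕ) (m : J → ℕ) :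
    ((uns d m).map fun β => d β.1).sum = ∑ i, d i * m i := by
  unfold uns
  have h := map_sum (Multiset.sumAddMonoidHom.comp (Multiset.mapAddMonoidHom
    (fun β : LG d Unit => d β.1)))
    (fun i => Multiset.replicate (m i) (⟨i, fun _ => ()⟩ : LG d Unit))
    (Finset.univ : Finset J)
  simp only [AddMonoidHom.comp_apply, Multiset.coe_mapAddMonoidHom,
    Multiset.coe_sumAddMonoidHom] at h
  rw [h]
  refine Finset.sum_congr rfl fun i _ => ?_
  rw [Multiset.map_replicate, Multiset.sum_replicate, smul_eq_mul, mul_comm]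

end IB4

theorem prB4 : StB4 := by
  intro J _ d B A Q e y m
  constructor
  · unfold MM.X MM.pw
    rw [Q.map_prod, SetSeq.Sp.map_cls, IB4.map_blks]
    rfl
  · intro x
    unfold MM.pw wt
    rw [IB4.deg, IB4.sum_uns]

end Pool.Agent.Work.MP_6da7fa_al.MB
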