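import Pool.Agent.Work.MP_6da7fa_al.MB.Stmts

set_option autoImplicit false

/-!
# Theorem MB, item C: the combinatorial theorem
-/

namespace Pool.Agent.Work.MP_6da7fa_al.MB

open Equiv PowerSeries

namespace IC

/-- the denominator `n!` can be pulled out of the fibre sums -/
theorem coeff_gs_div {T : Type} (N : T → ℕ) (P : T → Prop) [DecidablePred P] (a : T → ℂ) (n : ℕ) :
    (∑ᶠ (k : T) (_ : N k = n), if P k then a k else 0) / (n.factorial : ℂ) =
      PowerSeries.coeff n (gs N (fun k => if P k then a k / ((N k).factorial : ℂ) else 0)) := by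
  unfold gs
  rw [PowerSeries.coeff_mk, div_eq_inv_mul, ← smul_eq_mul, smul_finsum]
  refine finsum_congr fun k => ?_
  rw [smul_finsum]
  refine finsum_congr fun hk => ?_
  rw [smul_eq_mul]
  by_cases h : P k
  · simp only [if_pos h]
    rw [hk, div_eq_inv_mul]
  · simp only [if_neg h]
    rw [mul_zero]

end IC

theorem prC : StC := by
  intro hO hCnt hA hP r p d B _ A Q y hy
  obtain ⟨-, hcard⟩ := hCnt hO r p d B A Q y hy
  have hF := hP r p d B A Q y hy
  have heq : (PowerSeries.mk fun n => (Nat.card (B n) : ℂ) / (n.factorial : ℂ)) =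
      ∑ j : Fin p, gs (fun k : Fin r → ℕ => (Q.pw (y j) k).1) (fun k => open Classical in
        if (k, j) ∈ Mn Q y then (A.osz (Q.pw (y j) k) : ℂ) / (((Q.pw (y j) k).1).factorial : ℂ) else 0) := by
    ext n
    rw [PowerSeries.coeff_mk, hcard n, map_sum, Finset.sum_div]
    refine Finset.sum_congr rfl fun j _ => ?_
    exact @IC.coeff_gs_div _ (fun k : Fin r → ℕ => (Q.pw (y j) k).1) (fun k => (k, j) ∈ Mn Q y)
      (fun k => Classical.propDecidable _) (fun k => (A.osz (Q.pw (y j) k) : ℂ)) n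
  rw [heq]
  refine Finset.sum_induction _ DFinite hA ?_ (fun j _ => hF j)
  refine ⟨0, fun _ => 1, ⟨0, one_ne_zero⟩, ?_⟩
  simp

end Pool.Agent.Work.MP_6da7fa_al.MB
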