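import Pool.Agent.Work.MP_6da7fa_al.MB.Stmts

set_option autoImplicit false

namespace Pool.Agent.Work.MP_6da7fa_al.MB

open Equiv

namespace ICnt

variable {B : ℕ → Type} {A : SetSeq B}

theorem osz_pt [∀ n, Finite (B n)] {n : ℕ} (b : B n) : A.osz (A.pt b) ≠ 0 := by
  haveI : Finite (B (A.pt b).1) := inferInstanceAs (Finite (B n))
  haveI : Nonempty {b' : B (A.pt b).1 // A.pt b' = A.pt b} := ⟨⟨b, rfl⟩⟩
  exact Nat.card_pos.ne'

theorem osz_ex (x : A.Sp Unit) {n : ℕ} (hn : x.1 = n) (h : A.osz x ≠ 0) :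
    ∃ b : B n, A.pt b = x := by
  subst hn
  have h1 : Nonempty {b : B x.1 // A.pt b = x} := by
    by_contra hc
    rw [not_nonempty_iff] at hc
    exact h Nat.card_of_isEmpty
  obtain ⟨b, hb⟩ := h1
  exact ⟨b, hb⟩

end ICnt

open ICnt in
theorem prCnt : StCnt := by
  intro hO r p d B _ A Q y hy
  classical
  obtain ⟨hwf, htri, -⟩ := hO r p
  have inj : ∀ s ∈ Mn Q y, ∀ t ∈ Mn Q y, Q.pw (y s.2) s.1 = Q.pw (y t.2) t.1 → s = t := by
    intro s hs t ht h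
    rcases htri s t with h1 | h1 | h1
    · exact absurd h (ht.2 s h1)
    · exact h1
    · exact absurd h.symm (hs.2 t h1)
  have ex : ∀ (n : ℕ) (b : B n), ∃ t ∈ Mn Q y, Q.pw (y t.2) t.1 = A.pt b := by
    intro n b
    obtain ⟨j, k, h⟩ := hy n b
    have hne : {t : (Fin r → ℕ) × Fin p | Q.pw (y t.2) t.1 = A.pt b}.Nonempty := ⟨(k, j), h⟩
    have h1 := hwf.min_mem _ hne
    refine ⟨hwf.min _ hne, ⟨?_, fun t' ht' he => ?_⟩, h1⟩
    · rw [show Q.pw (y (hwf.min _ hne).2) (hwf.min _ hne).1 = A.pt b from h1]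
      exact osz_pt b
    · exact hwf.not_lt_min _ (show t' ∈ {t : (Fin r → ℕ) × Fin p | Q.pw (y t.2) t.1 = A.pt b} from
        he.trans h1) ht'
  choose τ hτM hτF using ex
  have mem : ∀ (n : ℕ) (t : (Fin r → ℕ) × Fin p),
      ((Q.pw (y t.2) t.1).1 = n ∧ t ∈ Mn Q y) ↔ ∃ b : B n, τ n b = t := by
    intro n t
    constructor
    · rintro ⟨h1, h2⟩
      obtain ⟨b, hb⟩ := osz_ex _ h1 h2.1
      exact ⟨b, inj _ (hτM n b) _ h2 ((hτF n b).trans hb)⟩
    · rintro ⟨b, rfl⟩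
      refine ⟨?_, hτM n b⟩
      rw [hτF n b]
      rfl
  have hfin : ∀ j n, {k : Fin r → ℕ | (Q.pw (y j) k).1 = n ∧ (k, j) ∈ Mn Q y}.Finite := by
    intro j n
    have h1 : (Set.range (τ n)).Finite := Set.finite_range _
    refine Set.Finite.subset (h1.image Prod.fst) ?_
    rintro k ⟨h2, h3⟩
    obtain ⟨b, hb⟩ := (mem n (k, j)).mp ⟨h2, h3⟩
    exact ⟨(k, j), ⟨b, hb⟩, rfl⟩
  refine ⟨hfin, fun n => ?_⟩
  haveI : Fintype (B n) := Fintype.ofFinite _
  have hfib : ∀ t ∈ Finset.univ.image (τ n),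
      ((Finset.univ.filter fun b => τ n b = t).card : ℂ) = (A.osz (Q.pw (y t.2) t.1) : ℂ) := by
    intro t ht
    obtain ⟨b0, -, rfl⟩ := Finset.mem_image.mp ht
    rw [hτF n b0]
    have h1 : A.osz (A.pt b0) = Nat.card {b : B n // A.pt b = A.pt b0} := rfl
    rw [h1, Nat.card_eq_fintype_card, Fintype.card_subtype]
    congr 2
    refine Finset.filter_congr fun b _ => ⟨fun h => ?_, fun h => ?_⟩
    · rw [← hτF n b, h, hτF n b0]
    · exact inj _ (hτM n b) _ (hτM n b0) (by rw [hτF n b, hτF n b0, h])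
  have h1 : (Nat.card (B n) : ℂ) = ∑ t ∈ Finset.univ.image (τ n),
      (A.osz (Q.pw (y t.2) t.1) : ℂ) := by
    rw [Nat.card_eq_fintype_card, ← Finset.card_univ,
      Finset.card_eq_sum_card_image (τ n) Finset.univ, Nat.cast_sum]
    exact Finset.sum_congr rfl hfib
  have h2 : ∑ t ∈ Finset.univ.image (τ n), (A.osz (Q.pw (y t.2) t.1) : ℂ) =
      ∑ j ∈ (Finset.univ : Finset (Fin p)), ∑ k ∈ (hfin j n).toFinset,
        (A.osz (Q.pw (y j) k) : ℂ) := by
    refine Finset.sum_finset_product_right _ _ _ ?_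
    intro t
    rw [Set.Finite.mem_toFinset]
    constructor
    · intro h
      obtain ⟨b, -, hb⟩ := Finset.mem_image.mp h
      exact ⟨Finset.mem_univ _, (mem n t).mpr ⟨b, hb⟩⟩
    · rintro ⟨-, h⟩
      obtain ⟨b, hb⟩ := (mem n t).mp h
      exact Finset.mem_image.mpr ⟨b, Finset.mem_univ _, hb⟩
  rw [h1, h2]
  refine Finset.sum_congr rfl fun j _ => ?_
  have h3 : ∑ᶠ k ∈ {k : Fin r → ℕ | (Q.pw (y j) k).1 = n},
      (if (k, j) ∈ Mn Q y then (A.osz (Q.pw (y j) k) : ℂ) else 0) =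
      ∑ k ∈ (hfin j n).toFinset,
      (if (k, j) ∈ Mn Q y then (A.osz (Q.pw (y j) k) : ℂ) else 0) := by
    refine finsum_mem_eq_sum_of_inter_support_eq _ ?_
    ext k
    simp only [Set.mem_inter_iff, Set.mem_setOf_eq, Set.Finite.coe_toFinset, Function.mem_support]
    constructor
    · rintro ⟨h4, h5⟩
      refine ⟨⟨h4, ?_⟩, h5⟩
      by_contra hc
      rw [if_neg hc] at h5
      exact h5 rfl
    · rintro ⟨⟨h4, -⟩, h5⟩
      exact ⟨h4, h5⟩
  refine Eq.trans ?_ h3.symm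
  refine Finset.sum_congr rfl fun k hk => ?_
  rw [Set.Finite.mem_toFinset] at hk
  rw [if_pos hk.2]

end Pool.Agent.Work.MP_6da7fa_al.MB
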