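import Pool.Agent.Work.MP_6da7fa_al.MB.Stmts

set_option autoImplicit false

/-!
# Theorem MB, item Cone: the cone theorem
-/

namespace Pool.Agent.Work.MP_6da7fa_al.MB

open Equiv

namespace ICone

/-- Shift of the variables of a polynomial. -/
theorem shift {J : Type} [Fintype J] (P : MvPolynomial J ℂ) (K : J → ℕ) :
    ∃ P' : MvPolynomial J ℂ, ∀ m : J → ℕ, ev P' m = ev P (K + m) := by
  refine ⟨MvPolynomial.bind₁ (fun j => MvPolynomial.X j + MvPolynomial.C (K j : ℂ)) P, fun m => ?_⟩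
  unfold ev
  induction P using MvPolynomial.induction_on with
  | C a => simp
  | add p q hp hq => rw [map_add, map_add, map_add, hp, hq]
  | mul_X p n hp =>
    rw [map_mul, map_mul, map_mul, hp, MvPolynomial.bind₁_X_right]
    simp only [map_add, MvPolynomial.eval_X, MvPolynomial.eval_C, Pi.add_apply, Nat.cast_add]
    ring

/-- The orbit of zero is empty. -/
theorem osz_none {B : ℕ → Type} (A : SetSeq B) (N : ℕ) (ℓ : Fin N → Unit) :
    A.osz (A.cls N none ℓ) = 0 := by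
  unfold SetSeq.osz
  have h : IsEmpty {b : B (A.cls N none ℓ).1 // A.pt b = A.cls N none ℓ} := by
    refine ⟨fun b => ?_⟩
    obtain ⟨b, hb⟩ := b
    have hb' : A.cls N (some b) (fun _ => ()) = A.cls N none ℓ := hb
    obtain ⟨σ, h1, -⟩ := SetSeq.cls_eq.mp hb'
    simp at h1
  exact Nat.card_of_isEmpty

/-- The order of the group times the size of the orbit. -/
theorem key (h2 : StB2) (h3 : StB3) (h4 : StB4) {J : Type} [Fintype J] [DecidableEq J] {d : J → ℕ}
    {B : ℕ → Type} {A : SetSeq B} (Q : MM d A) {e : ℕ} (y : B e)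
    (hne : ∀ m, A.osz (Q.pw (A.pt y) m) ≠ 0) (G : (J → ℕ) → Subgroup (Perm (Om (Fin e) d)))
    (hG : ∀ m g, g ∈ G m ↔ (∀ ω, ω ∉ lev m → g ω = ω) ∧ (Q.X y m).map g = Q.X y m) (m : J → ℕ) :
    Nat.card (G m) * A.osz (Q.pw (A.pt y) m) = (wt e d m).factorial := by
  obtain ⟨u, ℓ, hX, hinj, hran⟩ := h2 J d B A Q e y m
  have h5 := (h4 J d B A Q e y m).1
  rw [hX, SetSeq.Sp.map_cls] at h5
  have h6 := hne m
  cases u with
  | none =>
    rw [← h5] at h6
    exact absurd (osz_none A _ _) h6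
  | some b =>
    have h7 : Q.pw (A.pt y) m = A.pt b := by
      rw [← h5]
      rfl
    rw [h7, ← h3 J (Fin e) d B A m (wt e d m) ℓ b hinj hran]
    congr 1
    refine Nat.card_congr (Equiv.subtypeEquivRight fun g => ?_)
    rw [hG m g, hX]

end ICone

/-- The cone theorem. -/
theorem prCone : StCone := by
  intro h1 h2 h3 h4 hG J _ _ d B A Q e y hne
  obtain ⟨G, hS, hm⟩ := h1 J d B A Q e y
  obtain ⟨K, P', hP'⟩ := hG J (Fin e) d G hS
  choose P hP using fun i => ICone.shift (P' i) K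
  refine ⟨K, P, fun m i => ?_⟩
  have hk := ICone.key h2 h3 h4 Q y hne G hm
  have hinv : ∀ m : J → ℕ, (A.osz (Q.pw (A.pt y) m) : ℂ) / ((wt e d m).factorial : ℂ) =
      ((Nat.card (G m) : ℕ) : ℂ)⁻¹ := by
    intro m
    have ho : (A.osz (Q.pw (A.pt y) m) : ℂ) ≠ 0 := Nat.cast_ne_zero.mpr (hne m)
    rw [← hk m, Nat.cast_mul, div_mul_eq_div_div_swap, div_self ho, one_div]
  have hc : ∀ m : J → ℕ, ((Nat.card (G m) : ℕ) : ℂ) ≠ 0 := by
    intro m h0
    have h5 := hk m
    rw [Nat.cast_eq_zero.mp h0, zero_mul] at h5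
    exact (Nat.factorial_ne_zero _) h5.symm
  have hKm : K ≤ K + m := fun j => Nat.le_add_right _ _
  have h6 := hP' (K + m) i hKm
  rw [hinv, hinv, hP i m, ← add_assoc]
  have h7 := hc (K + m)
  have h8 := hc (K + m + Pi.single i 1)
  rw [inv_eq_iff_eq_inv, mul_inv, inv_inv, h6]
  have h9 : ev (P' i) (K + m) ≠ 0 := by
    intro h0
    rw [h6, h0, zero_mul] at h8
    exact h8 rfl
  rw [← mul_assoc, inv_mul_cancel₀ h9, one_mul]

end Pool.Agent.Work.MP_6da7fa_al.MB
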