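import Pool.Agent.Work.MP_6da7fa_al.MB.Stmts

set_option autoImplicit false

/-!
# Theorem MB: item Fin
-/

namespace Pool.Agent.Work.MP_6da7fa_al.MB

open Equiv

theorem prFin : StFin := by
  intro hT1 hT2 hC A _ _ R M _ _ S r d x β b hgen hfg hfd hmon
  obtain ⟨T, Q, hfit⟩ := hT1 A R M S r d x β b hmon
  obtain ⟨p, y, hy⟩ := hT2 A R M S r d x β b T Q hgen hfg hfit
  have hfin : ∀ n, Finite (β n) := fun n => by
    have := hfd n
    exact Module.Finite.finite_basis (b n)
  have h1 := hC r p d β T Q y hy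
  have h2 : hilb M = PowerSeries.mk fun n => (Nat.card (β n) : ℂ) / (n.factorial : ℂ) := by
    unfold hilb
    congr 1
    funext n
    rw [Module.finrank_eq_nat_card_basis (b n)]
  rw [h2]
  exact h1

end Pool.Agent.Work.MP_6da7fa_al.MB
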