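import Pool.Agent.Work.MP_6da7fa_al.MB.Stmts

set_option autoImplicit false

namespace Pool.Agent.Work.MP_6da7fa_al.MB

namespace IG1a

/-- binomial coefficients are polynomial -/
theorem ch (r : ℕ) : ∃ q : Polynomial ℂ, ∀ x : ℕ, q.eval (x : ℂ) = (x.choose r : ℂ) := by
  induction r with
  | zero => exact ⟨1, fun x => by simp⟩
  | succ r ih =>
    obtain ⟨q, hq⟩ := ih
    refine ⟨Polynomial.C (((r : ℂ) + 1)⁻¹) * (q * (Polynomial.X - Polynomial.C (r : ℂ))), ?_⟩
    intro x
    have hr : ((r : ℂ) + 1) ≠ 0 := by exact_mod_cast Nat.succ_ne_zero r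
    rw [Polynomial.eval_mul, Polynomial.eval_C, Polynomial.eval_mul, hq, Polynomial.eval_sub,
      Polynomial.eval_X, Polynomial.eval_C, inv_mul_eq_iff_eq_mul₀ hr]
    rcases le_or_gt r x with h | h
    · have h1 := Nat.choose_succ_right_eq x r
      have h2 : ((x.choose (r + 1) * (r + 1) : ℕ) : ℂ) = ((x.choose r * (x - r) : ℕ) : ℂ) := by
        rw [h1]
      push_cast [Nat.cast_sub h] at h2
      rw [← h2]
      ring
    · rw [Nat.choose_eq_zero_of_lt h, Nat.choose_eq_zero_of_lt (by omega)]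
      simp

end IG1a

theorem prG1a : StG1a := by
  intro J _ r
  choose q hq using IG1a.ch
  refine ⟨∏ i, Polynomial.aeval (MvPolynomial.X i) (q (r i)), ?_⟩
  intro m
  unfold ev
  rw [map_prod]
  refine Finset.prod_congr rfl fun i _ => ?_
  rw [← hq, Polynomial.aeval_def, Polynomial.hom_eval₂, MvPolynomial.eval_X,
    Polynomial.eval₂_eq_eval_map]
  have : (MvPolynomial.eval fun j => (m j : ℂ)).comp (algebraMap ℂ (MvPolynomial J ℂ)) =
      RingHom.id ℂ := by
    ext x
    simp [MvPolynomial.algebraMap_eq]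
  rw [this, Polynomial.map_id]

end Pool.Agent.Work.MP_6da7fa_al.MB
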