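import Pool.Agent.Work.MP_6da7fa_al.MB.Stmts

set_option autoImplicit false

/-!
# Item G1b: counting tuples of labels
-/

namespace Pool.Agent.Work.MP_6da7fa_al.MB

open Equiv

namespace IG1b

open Classical

/-- Two finite sets of the same size are exchanged by a finitely supported permutation. -/
theorem exists_perm (S S' : Finset ℕ) (h : S.card = S'.card) :
    ∃ s : Perm ℕ, (∃ n, ∀ j, n ≤ j → s j = j) ∧ ∀ j, j ∈ S ↔ s j ∈ S' := by
  obtain ⟨n, hn⟩ : ∃ n : ℕ, ∀ j ∈ S ∪ S', j < n := by
    refine ⟨(S ∪ S').sup id + 1, fun j hj => ?_⟩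
    exact Nat.lt_succ_of_le (Finset.le_sup (f := id) hj)
  have card1 : ∀ U : Finset ℕ, U ⊆ S ∪ S' →
      Fintype.card {x : Fin n // (x : ℕ) ∈ U} = U.card := by
    intro U hU
    rw [← Fintype.card_coe U]
    refine Fintype.card_congr
      { toFun := fun x => ⟨(x.1 : ℕ), x.2⟩
        invFun := fun x => ⟨⟨x.1, hn x.1 (hU x.2)⟩, x.2⟩
        left_inv := fun x => rfl
        right_inv := fun x => rfl }
  have e : {x : Fin n // (x : ℕ) ∈ S} ≃ {x : Fin n // (x : ℕ) ∈ S'} :=
    Fintype.equivOfCardEq (by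
      rw [card1 S Finset.subset_union_left, card1 S' Finset.subset_union_right, h])
  let t : Perm (Fin n) := e.extendSubtype
  let s : Perm ℕ := t.extendDomain (Fin.equivSubtype (n := n))
  have hs1 : ∀ x : Fin n, s (x : ℕ) = (t x : ℕ) := by
    intro x
    exact Perm.extendDomain_apply_image t (Fin.equivSubtype (n := n)) x
  have hs2 : ∀ j, n ≤ j → s j = j := by
    intro j hj
    exact Perm.extendDomain_apply_not_subtype t (Fin.equivSubtype (n := n)) (not_lt.mpr hj)
  refine ⟨s, ⟨n, hs2⟩, fun j => ?_⟩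
  by_cases hj : j < n
  · have h1 := hs1 ⟨j, hj⟩
    have h2 : s j = (t ⟨j, hj⟩ : ℕ) := h1
    rw [h2]
    constructor
    · intro h3
      exact e.extendSubtype_mem ⟨j, hj⟩ h3
    · intro h3
      by_contra h4
      exact e.extendSubtype_not_mem ⟨j, hj⟩ h4 h3
  · rw [hs2 j (not_lt.mp hj)]
    constructor
    · intro h3
      exact absurd (hn j (Finset.mem_union_left _ h3)) hj
    · intro h3
      exact absurd (hn j (Finset.mem_union_right _ h3)) hj

variable {J Z : Type} {d : J → ℕ} {D : ℕ}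

/-- the block number of a label, for the type `i` -/
noncomputable def bn (i : J) (ω : Om Z d) : Finset ℕ :=
  match ω with
  | Sum.inl _ => ∅
  | Sum.inr x => if x.1 = i then {x.2.1} else ∅

theorem card_bn (i : J) (ω : Om Z d) : (bn i ω).card ≤ 1 := by
  rcases ω with z | x
  · simp [bn]
  · simp only [bn]
    split_ifs <;> simp

theorem bn_bp (s : J → Perm ℕ) (i : J) (ω : Om Z d) (j : ℕ) :
    j ∈ bn i ω ↔ s i j ∈ bn i (bp s ω) := by
  rcases ω with z | x
  · simp [bn, bp]
  · simp only [bn, bp, Equiv.coe_fn_mk]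
    split_ifs with h
    · subst h
      simp
    · simp

theorem lev_iff (m : J → ℕ) (ω : Om Z d) : ω ∈ lev m ↔ ∀ i, bn i ω ⊆ Finset.range (m i) := by
  rcases ω with z | x
  · simp [bn, lev]
  · constructor
    · intro h i
      have h1 := h x rfl
      simp only [bn]
      split_ifs with h2
      · subst h2
        simpa using h1
      · simp
    · intro h y hy
      have hy' : x = y := Sum.inr.inj hy
      subst hy'
      have h1 := h x.1
      simpa [bn] using h1

/-- the block numbers of the labels of a tuple -/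
noncomputable def sp (τ : Fin D → Om Z d) (i : J) : Finset ℕ :=
  Finset.univ.biUnion fun a => bn i (τ a)

theorem card_sp (τ : Fin D → Om Z d) (i : J) : (sp τ i).card ≤ D := by
  refine Finset.card_biUnion_le.trans ?_
  refine (Finset.sum_le_sum fun a _ => card_bn i (τ a)).trans ?_
  simp

theorem sp_bp (s : J → Perm ℕ) (τ : Fin D → Om Z d) (i : J) (j : ℕ) :
    j ∈ sp τ i ↔ s i j ∈ sp (⇑(bp s) ∘ τ) i := by
  simp only [sp, Finset.mem_biUnion, Finset.mem_univ, true_and, Function.comp_apply]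
  exact exists_congr fun a => bn_bp s i (τ a) j

theorem lev_sp (m : J → ℕ) (τ : Fin D → Om Z d) :
    (∀ a, τ a ∈ lev m) ↔ ∀ i, sp τ i ⊆ Finset.range (m i) := by
  constructor
  · intro h i
    refine Finset.biUnion_subset.mpr fun a _ => (lev_iff m (τ a)).mp (h a) i
  · intro h a
    refine (lev_iff m (τ a)).mpr fun i => ?_
    exact (Finset.subset_biUnion_of_mem (fun a => bn i (τ a)) (Finset.mem_univ a)).trans (h i)

theorem bp_inv (s : J → Perm ℕ) (ω : Om Z d) : bp (fun i => (s i)⁻¹) (bp s ω) = ω := by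
  rcases ω with z | x
  · rfl
  · simp [bp]

theorem bp_inv' (s : J → Perm ℕ) (ω : Om Z d) : bp s (bp (fun i => (s i)⁻¹) ω) = ω := by
  rcases ω with z | x
  · rfl
  · simp [bp]

theorem lev_finite [Finite J] [Finite Z] (m : J → ℕ) : (lev (Z := Z) (d := d) m).Finite := by
  refine Set.Finite.subset ((Set.finite_range (Sum.inl : Z → Om Z d)).union
    (Set.finite_range (fun x : (Σ i : J, Fin (m i) × Fin (d i)) =>
      (Sum.inr ⟨x.1, ((x.2.1 : ℕ), x.2.2)⟩ : Om Z d)))) ?_
  rintro (z | x) h
  · exact Or.inl ⟨z, rfl⟩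
  · exact Or.inr ⟨⟨x.1, (⟨x.2.1, h x rfl⟩, x.2.2)⟩, rfl⟩

theorem tup_finite [Finite J] [Finite Z] (m : J → ℕ) :
    {τ : Fin D → Om Z d | ∀ a, τ a ∈ lev m}.Finite :=
  Set.Finite.pi' fun _ => lev_finite m

/-- the number of tuples with given block numbers -/
noncomputable def cc (R : Set (Fin D → Om Z d)) (S : J → Finset ℕ) : ℕ :=
  Nat.card {τ : Fin D → Om Z d // τ ∈ R ∧ sp τ = S}

theorem fib_finite [Finite J] [Finite Z] (R : Set (Fin D → Om Z d)) (S : J → Finset ℕ) :
    Finite {τ : Fin D → Om Z d // τ ∈ R ∧ sp τ = S} := by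
  refine Set.Finite.subset (tup_finite (fun i => (S i).sup id + 1)) ?_
  rintro τ ⟨_, h⟩
  refine (lev_sp _ τ).mpr fun i j hj => ?_
  rw [h] at hj
  exact Finset.mem_range.mpr (Nat.lt_succ_of_le (Finset.le_sup (f := id) hj))

theorem cc_le (R : Set (Fin D → Om Z d)) (hR : Winv R) (S S' : J → Finset ℕ)
    (h : ∀ i, (S i).card = (S' i).card) : cc R S = cc R S' := by
  choose s hs1 hs2 using fun i => exists_perm (S i) (S' i) (h i)
  refine Nat.card_congr
    { toFun := fun τ => ⟨⇑(bp s) ∘ τ.1, hR s hs1 τ.1 τ.2.1, ?_⟩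
      invFun := fun τ => ⟨⇑(bp (fun i => (s i)⁻¹)) ∘ τ.1, hR _ ?_ τ.1 τ.2.1, ?_⟩
      left_inv := ?_
      right_inv := ?_ }
  · funext i
    ext j
    obtain ⟨k, rfl⟩ := (s i).surjective j
    rw [← sp_bp s τ.1 i k, τ.2.2, hs2 i k]
  · intro i
    obtain ⟨n, hn⟩ := hs1 i
    refine ⟨n, fun j hj => ?_⟩
    rw [Equiv.Perm.inv_eq_iff_eq]
    exact (hn j hj).symm
  · funext i
    ext j
    have h1 := sp_bp (fun i => (s i)⁻¹) τ.1 i (s i j)
    have h1' : (s i)⁻¹ (s i j) = j := (s i).symm_apply_apply j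
    simp only [h1'] at h1
    rw [← h1, τ.2.2, hs2 i j]
  · intro τ
    apply Subtype.ext
    funext a
    exact bp_inv s (τ.1 a)
  · intro τ
    apply Subtype.ext
    funext a
    exact bp_inv' s (τ.1 a)

end IG1b

open IG1b in
open Classical in
theorem prG1b : StG1b := by
  intro J Z _ _ _ d D R hR
  refine ⟨fun r => cc R (fun i => Finset.range (r i)), fun m => ?_⟩
  have h1 : Nat.card {τ : Fin D → Om Z d // τ ∈ R ∧ ∀ a, τ a ∈ lev m} =
      ∑ S ∈ Fintype.piFinset (fun i => (Finset.range (m i)).powerset), cc R S := by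
    have e : {τ : Fin D → Om Z d // τ ∈ R ∧ ∀ a, τ a ∈ lev m} ≃
        Σ S : {S : J → Finset ℕ // S ∈ Fintype.piFinset (fun i => (Finset.range (m i)).powerset)},
          {τ : Fin D → Om Z d // τ ∈ R ∧ sp τ = S.1} :=
      { toFun := fun τ => ⟨⟨sp τ.1, Fintype.mem_piFinset.mpr fun i =>
          Finset.mem_powerset.mpr ((lev_sp m τ.1).mp τ.2.2 i)⟩, ⟨τ.1, τ.2.1, rfl⟩⟩
        invFun := fun x => ⟨x.2.1, x.2.2.1, (lev_sp m x.2.1).mpr fun i => by
          have h2 := Fintype.mem_piFinset.mp x.1.2 i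
          rw [← x.2.2.2] at h2
          exact Finset.mem_powerset.mp h2⟩
        left_inv := fun τ => rfl
        right_inv := fun x => Sigma.subtype_ext (Subtype.ext x.2.2.2) rfl }
    rw [Nat.card_congr e]
    have hfin : ∀ S : {S : J → Finset ℕ // S ∈ Fintype.piFinset
        (fun i => (Finset.range (m i)).powerset)},
        Finite {τ : Fin D → Om Z d // τ ∈ R ∧ sp τ = S.1} := fun S => fib_finite R S.1
    rw [Nat.card_sigma]
    exact Finset.sum_coe_sort (Fintype.piFinset (fun i => (Finset.range (m i)).powerset)) (cc R)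
  have h2 : ∀ S : J → Finset ℕ, cc R S =
      ∑ r : J → Fin (D + 1), if (∀ i, (S i).card = (r i : ℕ)) then
        cc R (fun i => Finset.range (r i)) else 0 := by
    intro S
    by_cases hS : ∀ i, (S i).card ≤ D
    · obtain ⟨r0, hr0⟩ : ∃ r0 : J → Fin (D + 1), ∀ i, (S i).card = (r0 i : ℕ) :=
        ⟨fun i => ⟨(S i).card, Nat.lt_succ_of_le (hS i)⟩, fun i => rfl⟩
      rw [Finset.sum_eq_single r0]
      · rw [if_pos hr0]
        exact cc_le R hR _ _ fun i => by rw [Finset.card_range]; exact hr0 i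
      · intro r _ hr
        rw [if_neg]
        intro hr'
        apply hr
        funext i
        apply Fin.ext
        rw [← hr' i, ← hr0 i]
      · intro h
        exact absurd (Finset.mem_univ _) h
    · push Not at hS
      obtain ⟨i, hi⟩ := hS
      have e1 : cc R S = 0 := by
        unfold cc
        rw [Nat.card_eq_zero]
        left
        constructor
        rintro ⟨τ, _, hτ⟩
        have h3 := card_sp τ i
        rw [hτ] at h3
        omega
      rw [e1]
      symm
      refine Finset.sum_eq_zero fun r _ => ?_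
      rw [if_neg]
      intro hr
      have h4 := hr i
      have h5 := (r i).isLt
      omega
  rw [h1, Finset.sum_congr rfl (fun S _ => h2 S), Finset.sum_comm]
  refine Finset.sum_congr rfl fun r _ => ?_
  rw [← Finset.sum_filter, Finset.sum_const, smul_eq_mul, mul_comm]
  congr 1
  have h3 : (Fintype.piFinset (fun i => (Finset.range (m i)).powerset)).filter
      (fun S => ∀ i, (S i).card = (r i : ℕ)) =
      Fintype.piFinset (fun i => Finset.powersetCard (r i) (Finset.range (m i))) := by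
    ext S
    simp only [Finset.mem_filter, Fintype.mem_piFinset, Finset.mem_powerset,
      Finset.mem_powersetCard]
    constructor
    · rintro ⟨h4, h5⟩ i
      exact ⟨h4 i, h5 i⟩
    · intro h4
      exact ⟨fun i => (h4 i).1, fun i => (h4 i).2⟩
  rw [h3, Fintype.card_piFinset]
  refine Finset.prod_congr rfl fun i _ => ?_
  rw [Finset.card_powersetCard, Finset.card_range]

end Pool.Agent.Work.MP_6da7fa_al.MB
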