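import Pool.Agent.Work.MP_6da7fa_al.MB.Stmts

set_option autoImplicit false

/-!
MP_6da7fa_al, block MB, item G2 (helper72): transitivity of a system of groups on the orbit of a block.
-/

namespace Pool.Agent.Work.MP_6da7fa_al.MB

open Equiv

namespace IG2

/-- A permutation of `[0, n)` which moves a small set below `D`. -/
lemma perm_small (n D : ℕ) (hD : D ≤ n) (F : Finset ℕ) (hF : F.card ≤ D) :
    ∃ s : Perm ℕ, (∀ j, n ≤ j → s j = j) ∧ ∀ j ∈ F, j < n → s j < D := by
  classical
  set F' : Finset (Fin n) := Finset.univ.filter (fun x => (x : ℕ) ∈ F) with hF'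
  have hc : F'.card ≤ F.card := by
    refine Finset.card_le_card_of_injOn (fun x : Fin n => (x : ℕ)) ?_ ?_
    · intro x hx
      have hx' : x ∈ F' := hx
      rw [hF', Finset.mem_filter] at hx'
      exact hx'.2
    · intro x _ y _ hxy
      exact Fin.ext hxy
  have hcn : F'.card ≤ n := le_trans hc (le_trans hF hD)
  set Q : Finset (Fin n) := Finset.univ.image (Fin.castLE hcn) with hQ
  have hQc : Q.card = F'.card := by
    rw [hQ, Finset.card_image_of_injective _ (Fin.castLE_injective hcn), Finset.card_univ,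
      Fintype.card_fin]
  have e : {x // x ∈ F'} ≃ {x // x ∈ Q} := Finset.equivOfCardEq hQc.symm
  set t : Perm (Fin n) := e.extendSubtype with ht
  have htm : ∀ x ∈ F', t x ∈ Q := fun x hx => e.extendSubtype_mem x hx
  refine ⟨t.extendDomain Fin.equivSubtype, ?_, ?_⟩
  · intro j hj
    exact Equiv.Perm.extendDomain_apply_not_subtype _ _ (by simpa using hj)
  · intro j hj hjn
    have h1 : (t.extendDomain Fin.equivSubtype) j = ((t ⟨j, hjn⟩ : Fin n) : ℕ) := by
      have := Equiv.Perm.extendDomain_apply_image t Fin.equivSubtype (⟨j, hjn⟩ : Fin n)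
      simpa using this
    rw [h1]
    have h2 : (⟨j, hjn⟩ : Fin n) ∈ F' := by
      rw [hF', Finset.mem_filter]
      exact ⟨Finset.mem_univ _, hj⟩
    have h3 := htm _ h2
    rw [hQ, Finset.mem_image] at h3
    obtain ⟨y, -, hy⟩ := h3
    rw [← hy]
    have := y.isLt
    simp only [Fin.val_castLE]
    omega

variable {J Z : Type} {d : J → ℕ}

lemma lev_finite [Finite J] [Finite Z] (m : J → ℕ) : (lev m : Set (Om Z d)).Finite := by
  set f : Z ⊕ (Σ i : J, Fin (m i) × Fin (d i)) → Om Z d := fun w => match w with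
    | Sum.inl z => Sum.inl z
    | Sum.inr x => Sum.inr ⟨x.1, ((x.2.1 : ℕ), x.2.2)⟩ with hf
  refine (Set.finite_range f).subset ?_
  intro ω hω
  rcases ω with z | x
  · exact ⟨Sum.inl z, rfl⟩
  · have h := hω x rfl
    exact ⟨Sum.inr ⟨x.1, (⟨x.2.1, h⟩, x.2.2)⟩, rfl⟩

lemma bp_inl (s : J → Perm ℕ) (z : Z) : (bp s : Perm (Om Z d)) (Sum.inl z) = Sum.inl z := rfl

lemma bp_inr (s : J → Perm ℕ) (x : Σ i : J, ℕ × Fin (d i)) :
    (bp s : Perm (Om Z d)) (Sum.inr x) = Sum.inr ⟨x.1, (s x.1 x.2.1, x.2.2)⟩ := rfl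

end IG2

open IG2 in
theorem prG2 : StG2 := by
  classical
  intro hGo J Z _ _ _ d G hG
  set D : ℕ := ∑ i, d i with hDdef
  set c : J → ℕ := fun _ => D with hc
  -- the good levels
  have key : ∀ i : J, ∀ᶠ b in (Filter.atTop : Filter (J → ℕ)),
      ∀ ρ ∈ {τ : Fin (d i) → Om Z d | ∀ a, τ a ∈ (lev c : Set (Om Z d))},
        ρ ∈ orb G i → ∃ g ∈ G b, ∃ j, j < b i ∧ ρ = g ∘ blk i j := by
    intro i
    have hfin : {τ : Fin (d i) → Om Z d | ∀ a, τ a ∈ (lev c : Set (Om Z d))}.Finite :=
      Set.Finite.pi' (fun _ => lev_finite c)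
    rw [Filter.eventually_all_finite hfin]
    intro ρ _
    by_cases h : ρ ∈ orb G i
    · obtain ⟨m, g, hg, j, hj⟩ := h
      refine Filter.eventually_atTop.mpr ⟨m ⊔ (fun _ => j + 1), ?_⟩
      intro b hb _
      refine ⟨g, hG.mono m b (le_trans le_sup_left hb) hg, j, ?_, hj⟩
      have h1 : (fun _ => j + 1 : J → ℕ) ≤ b := le_trans le_sup_right hb
      have h2 := h1 i
      simp only at h2
      omega
    · exact Filter.Eventually.of_forall (fun b hb => absurd hb h)
  have key2 := (Filter.eventually_all.mpr key).and (Filter.eventually_ge_atTop c)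
  obtain ⟨b, hb, hcb⟩ := key2.exists
  refine ⟨b, ?_⟩
  intro m i hbm τ hτ hlev
  set M : J → ℕ := m + Pi.single i 1 with hM
  have hmM : m ≤ M := le_self_add
  have hdi : d i ≤ D := Finset.single_le_sum (f := d) (fun _ _ => Nat.zero_le _) (Finset.mem_univ i)
  -- the permutation which moves everything into small blocks
  set φ : J → Fin (d i) → ℕ := fun i' a => match τ a with
    | Sum.inl _ => 0
    | Sum.inr x => if x.1 = i' then x.2.1 else 0 with hφ
  have hs : ∀ i' : J, ∃ s : Perm ℕ, (∀ j, M i' ≤ j → s j = j) ∧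
      ∀ j ∈ Finset.univ.image (φ i'), j < M i' → s j < D := by
    intro i'
    refine perm_small (M i') D ?_ _ ?_
    · have h1 : D ≤ b i' := hcb i'
      have h2 : b i' ≤ m i' := hbm i'
      have h3 : m i' ≤ M i' := hmM i'
      omega
    · refine le_trans Finset.card_image_le ?_
      rw [Finset.card_univ, Fintype.card_fin]
      exact hdi
  choose s hs1 hs2 using hs
  have hsM : bp s ∈ G M := hG.block M s hs1
  have hρorb : (⇑(bp s) ∘ τ) ∈ orb G i :=
    hGo J Z d G hG i s (fun i' => ⟨M i', hs1 i'⟩) τ hτ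
  have hρlev : ∀ a, (⇑(bp s) ∘ τ) a ∈ (lev c : Set (Om Z d)) := by
    intro a
    rw [Function.comp_apply]
    have hla := hlev a
    have hφa : ∀ x, τ a = Sum.inr x → φ x.1 a = x.2.1 := by
      intro x hx
      rw [hφ]
      simp only [hx, if_true]
    rcases hta : τ a with z | x
    · rw [bp_inl]
      intro x hx
      exact absurd hx (by simp)
    · rw [bp_inr]
      intro y hy
      have hy' := Sum.inr.inj hy
      subst hy'
      simp only
      refine hs2 x.1 x.2.1 ?_ (hla x hta)
      rw [Finset.mem_image]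
      exact ⟨a, Finset.mem_univ _, hφa x hta⟩
  obtain ⟨g, hg, j, hj, hρ⟩ := hb i _ hρlev hρorb
  have hgM : g ∈ G M := hG.mono b M (le_trans hbm hmM) hg
  have hjm : j < m i := lt_of_lt_of_le hj (hbm i)
  set s' : J → Perm ℕ := fun i' => if i' = i then swap j (m i) else 1 with hs'
  have hs'M : bp s' ∈ G M := by
    refine hG.block M s' ?_
    intro i' j' hj'
    rw [hs']
    by_cases hii : i' = i
    · subst hii
      simp only [if_true]
      have h4 : M i' = m i' + 1 := by simp [hM]
      rw [swap_apply_of_ne_of_ne (by omega) (by omega)]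
    · simp only [if_neg hii]
      rfl
  have hblk : (blk i j : Fin (d i) → Om Z d) = ⇑(bp s' : Perm (Om Z d)) ∘ blk i (m i) := by
    funext a
    rw [Function.comp_apply]
    show _ = (bp s' : Perm (Om Z d)) (Sum.inr ⟨i, (m i, a)⟩)
    rw [bp_inr]
    have h5 : s' i (m i) = j := by
      rw [hs']
      simp only [if_true, swap_apply_right]
    simp only [h5]
    rfl
  refine ⟨(bp s)⁻¹ * g * bp s', ?_, ?_⟩
  · exact (G M).mul_mem ((G M).mul_mem ((G M).inv_mem hsM) hgM) hs'M
  · funext a
    have h6 := congrFun hρ a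
    rw [hblk] at h6
    simp only [Function.comp_apply] at h6
    rw [Function.comp_apply, Perm.mul_apply, Perm.mul_apply, ← h6]
    simp

end Pool.Agent.Work.MP_6da7fa_al.MB
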