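import Pool.Agent.Work.MP_6da7fa_al.MB.Stmts

set_option autoImplicit false

/-!
# Theorem MB, item G3 (helper42): orbit and stabilizer of a block
-/

namespace Pool.Agent.Work.MP_6da7fa_al.MB

open Equiv

namespace IG3

theorem not_lev_blk {J Z : Type} {d : J → ℕ} (m : J → ℕ) (i : J) (a : Fin (d i)) :
    (blk i (m i) a : Om Z d) ∉ lev m := by
  intro h
  exact lt_irrefl _ (h _ rfl)

theorem exists_of_not_lev {J Z : Type} [DecidableEq J] {d : J → ℕ} (m : J → ℕ) (i : J)
    (ω : Om Z d) (h1 : ω ∉ lev m) (h2 : ω ∈ lev (m + Pi.single i 1)) :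
    ∃ a, ω = blk i (m i) a := by
  rcases ω with z | ⟨i', j, a⟩
  · exact absurd (fun x hx => by cases hx) h1
  · have h3 : j < (m + Pi.single i 1 : J → ℕ) i' := h2 ⟨i', (j, a)⟩ rfl
    have h4 : m i' ≤ j := by
      by_contra hc
      refine h1 fun x hx => ?_
      have := Sum.inr.inj hx
      subst this
      exact not_le.1 hc
    by_cases hi : i' = i
    · subst hi
      rw [Pi.add_apply, Pi.single_eq_same] at h3
      have h5 : j = m i' := by omega
      subst h5
      exact ⟨a, rfl⟩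
    · rw [Pi.add_apply, Pi.single_eq_of_ne hi] at h3
      omega

/-- The orbit. -/
def orbE {J Z : Type} {d : J → ℕ} (m : J → ℕ) (i : J) (K : Subgroup (Perm (Om Z d))) :
    {τ : Fin (d i) → Om Z d // ∃ g ∈ K, τ = g ∘ blk i (m i)} ≃
      MulAction.orbit K (blk i (m i) : Fin (d i) → Om Z d) :=
  Equiv.subtypeEquivRight fun τ => by
    constructor
    · rintro ⟨g, hg, rfl⟩
      exact ⟨⟨g, hg⟩, rfl⟩
    · rintro ⟨g, hg⟩
      exact ⟨g.1, g.2, hg.symm⟩

/-- The stabilizer. -/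
def stabE {J Z : Type} [DecidableEq J] {d : J → ℕ} (m : J → ℕ) (i : J)
    (K : Subgroup (Perm (Om Z d)))
    (hK : ∀ g ∈ K, ∀ ω, ω ∉ lev (m + Pi.single i 1) → g ω = ω) :
    {g : Perm (Om Z d) // g ∈ K ∧ ∀ ω, ω ∉ lev m → g ω = ω} ≃
      MulAction.stabilizer K (blk i (m i) : Fin (d i) → Om Z d) where
  toFun g := ⟨⟨g.1, g.2.1⟩, by
    rw [MulAction.mem_stabilizer_iff]
    funext a
    exact g.2.2 _ (not_lev_blk m i a)⟩
  invFun s := ⟨s.1.1, s.1.2, fun ω hω => by
    by_cases h : ω ∈ lev (m + Pi.single i 1)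
    · obtain ⟨a, rfl⟩ := exists_of_not_lev m i ω hω h
      have h1 := s.2
      rw [MulAction.mem_stabilizer_iff] at h1
      exact congrFun h1 a
    · exact hK _ s.1.2 ω h⟩
  left_inv g := rfl
  right_inv s := rfl

end IG3

theorem prG3 : StG3 := by
  intro J Z _ _ _ d m i K hK
  rw [Nat.card_congr (IG3.orbE m i K), Nat.card_congr (IG3.stabE m i K hK), ← Nat.card_prod]
  exact (Nat.card_congr
    (MulAction.orbitProdStabilizerEquivGroup K (blk i (m i) : Fin (d i) → Om Z d))).symm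

end Pool.Agent.Work.MP_6da7fa_al.MB
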