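import Pool.Agent.Work.MP_6da7fa_al.MB.Stmts

set_option autoImplicit false

namespace Pool.Agent.Work.MP_6da7fa_al.MB

open Equiv

namespace IG4

variable {J Z : Type} {d : J → ℕ}

theorem levFin [Fintype J] [Finite Z] (m : J → ℕ) : (lev m : Set (Om Z d)).Finite := by
  have h1 : (Set.range (Sum.inl : Z → Om Z d)).Finite := Set.finite_range _
  have h2 : (Set.range (fun x : (Σ i : J, Fin (m i) × Fin (d i)) =>
      (Sum.inr ⟨x.1, ((x.2.1 : ℕ), x.2.2)⟩ : Om Z d))).Finite := Set.finite_range _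
  refine (h1.union h2).subset ?_
  intro ω hω
  rcases ω with z | ⟨i, j, a⟩
  · left; exact ⟨z, rfl⟩
  · right
    exact ⟨⟨i, ⟨j, hω _ rfl⟩, a⟩, rfl⟩

theorem maps {Ω : Type} {L : Set Ω} {g : Perm Ω} (h : ∀ ω, ω ∉ L → g ω = ω) {ω : Ω}
    (hω : ω ∈ L) : g ω ∈ L := by
  by_contra hn
  have h1 : g ω = ω := g.injective (h _ hn)
  rw [h1] at hn
  exact hn hω

theorem finP {Ω : Type} {L : Set Ω} (hL : L.Finite) :
    Finite {g : Perm Ω // ∀ ω, ω ∉ L → g ω = ω} := by
  have := hL.to_subtype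
  refine Finite.of_injective (fun g : {g : Perm Ω // ∀ ω, ω ∉ L → g ω = ω} =>
    (fun x : L => (⟨g.1 x.1, maps g.2 x.2⟩ : L))) ?_
  intro g h hgh
  apply Subtype.ext
  apply Equiv.ext
  intro ω
  by_cases hω : ω ∈ L
  · exact congrArg Subtype.val (congrFun hgh ⟨ω, hω⟩)
  · rw [g.2 _ hω, h.2 _ hω]

theorem finK {Ω : Type} {L : Set Ω} (hL : L.Finite) (K : Subgroup (Perm Ω))
    (hK : ∀ g ∈ K, ∀ ω, ω ∉ L → g ω = ω) : Finite K := by
  have := finP hL
  exact Finite.of_injective (fun g : K =>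
    (⟨g.1, hK g.1 g.2⟩ : {g : Perm Ω // ∀ ω, ω ∉ L → g ω = ω}))
    (fun g h hgh => Subtype.ext (Subtype.mk.inj hgh))

theorem levMono {m m' : J → ℕ} (h : m ≤ m') {ω : Om Z d} (hω : ω ∈ (lev m : Set (Om Z d))) :
    ω ∈ (lev m' : Set (Om Z d)) :=
  fun x hx => lt_of_lt_of_le (hω x hx) (h x.1)

/-- `Gam G m` as a subgroup. -/
def GamS (G : (J → ℕ) → Subgroup (Perm (Om Z d))) (hG : Sys G) (m : J → ℕ) :
    Subgroup (Perm (Om Z d)) where
  carrier := Gam G m
  mul_mem' := by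
    rintro g h ⟨⟨m1, h1⟩, h2⟩ ⟨⟨m3, h3⟩, h4⟩
    refine ⟨⟨m1 ⊔ m3, mul_mem (hG.mono _ _ le_sup_left h1) (hG.mono _ _ le_sup_right h3)⟩,
      fun ω hω => ?_⟩
    rw [Perm.mul_apply, h4 _ hω, h2 _ hω]
  one_mem' := ⟨⟨0, one_mem _⟩, fun ω _ => rfl⟩
  inv_mem' := by
    rintro g ⟨⟨m1, h1⟩, h2⟩
    refine ⟨⟨m1, inv_mem h1⟩, fun ω hω => ?_⟩
    rw [Perm.inv_eq_iff_eq, h2 _ hω]

theorem mem_GamS (G : (J → ℕ) → Subgroup (Perm (Om Z d))) (hG : Sys G) (m : J → ℕ)
    (g : Perm (Om Z d)) : g ∈ GamS G hG m ↔ (∃ m', g ∈ G m') ∧ ∀ ω, ω ∉ lev m → g ω = ω :=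
  Iff.rfl

theorem le_GamS (G : (J → ℕ) → Subgroup (Perm (Om Z d))) (hG : Sys G) (m : J → ℕ) :
    G m ≤ GamS G hG m :=
  fun g hg => ⟨⟨m, hg⟩, hG.supp m g hg⟩

/-- The number of tuples of the orbit with labels in level `M`. -/
noncomputable def pc (G : (J → ℕ) → Subgroup (Perm (Om Z d))) (i : J) (M : J → ℕ) : ℕ :=
  Nat.card {τ : Fin (d i) → Om Z d // τ ∈ orb G i ∧ ∀ a, τ a ∈ lev M}

theorem orbCard [DecidableEq J] (G : (J → ℕ) → Subgroup (Perm (Om Z d))) (hG : Sys G)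
    (m : J → ℕ) (i : J)
    (hb : ∀ τ ∈ orb G i, (∀ a, τ a ∈ lev (m + Pi.single i 1)) →
      ∃ g ∈ G (m + Pi.single i 1), τ = g ∘ blk i (m i))
    (K : Subgroup (Perm (Om Z d))) (h1 : G (m + Pi.single i 1) ≤ K)
    (h2 : K ≤ GamS G hG (m + Pi.single i 1)) :
    Nat.card {τ : Fin (d i) → Om Z d // ∃ g ∈ K, τ = g ∘ blk i (m i)} =
      pc G i (m + Pi.single i 1) := by
  unfold pc
  apply Nat.card_congr
  apply Equiv.subtypeEquivRight
  intro τ
  constructor
  · rintro ⟨g, hg, rfl⟩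
    obtain ⟨⟨m', hm'⟩, hs⟩ := h2 hg
    refine ⟨⟨m', g, hm', m i, rfl⟩, fun a => ?_⟩
    apply maps hs
    intro x hx
    have hx' := Sum.inr.inj hx
    subst hx'
    simp
  · rintro ⟨h3, h4⟩
    obtain ⟨g, hg, h5⟩ := hb τ h3 h4
    exact ⟨g, h1 hg, h5⟩

end IG4

open IG4

theorem prG4 : StG4 := by
  intro hG1 hGo hG2 hG3 J Z _ _ _ d G hG
  obtain ⟨b, hb⟩ := hG2 J Z d G hG
  -- the polynomials
  have hp : ∀ i : J, ∃ p : MvPolynomial J ℂ, ∀ M : J → ℕ, (pc G i M : ℂ) = ev p M := fun i =>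
    hG1 J Z d (d i) (orb G i) (hGo J Z d G hG i)
  choose p hp using hp
  have hfin : ∀ (m : J → ℕ) (K : Subgroup (Perm (Om Z d))), K ≤ GamS G hG m → Finite K :=
    fun m K hK => finK (levFin m) K (fun g hg => (hK hg).2)
  have hle : ∀ (m : J → ℕ) (i : J), m ≤ m + Pi.single i 1 := fun m i => le_self_add
  -- (1)
  have e1 : ∀ (m : J → ℕ) (i : J), b ≤ m →
      pc G i (m + Pi.single i 1) * Nat.card (G m) ≤ Nat.card (G (m + Pi.single i 1)) := by
    intro m i hm
    have h := hG3 J Z d m i (G (m + Pi.single i 1)) (hG.supp _)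
    rw [orbCard G hG m i (hb m i hm) (G (m + Pi.single i 1)) le_rfl (le_GamS G hG _)] at h
    rw [h]
    apply Nat.mul_le_mul_left
    have hf : Finite {g : Perm (Om Z d) // g ∈ G (m + Pi.single i 1) ∧
        ∀ ω, ω ∉ lev m → g ω = ω} := by
      have := finP (levFin m : (lev m : Set (Om Z d)).Finite)
      exact Finite.of_injective (fun g : {g : Perm (Om Z d) // g ∈ G (m + Pi.single i 1) ∧
        ∀ ω, ω ∉ lev m → g ω = ω} =>
        (⟨g.1, g.2.2⟩ : {g : Perm (Om Z d) // ∀ ω, ω ∉ lev m → g ω = ω}))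
        (fun g h hgh => Subtype.ext (Subtype.mk.inj hgh))
    exact Nat.card_le_card_of_injective (fun g : G m =>
      (⟨g.1, hG.mono _ _ (hle m i) g.2, hG.supp _ _ g.2⟩ :
        {g : Perm (Om Z d) // g ∈ G (m + Pi.single i 1) ∧ ∀ ω, ω ∉ lev m → g ω = ω}))
      (fun g h hgh => Subtype.ext (Subtype.mk.inj hgh))
  -- (2)
  have e2 : ∀ (m : J → ℕ) (i : J), b ≤ m →
      Nat.card (GamS G hG (m + Pi.single i 1)) =
        pc G i (m + Pi.single i 1) * Nat.card (GamS G hG m) := by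
    intro m i hm
    have h := hG3 J Z d m i (GamS G hG (m + Pi.single i 1)) (fun g hg => hg.2)
    rw [orbCard G hG m i (hb m i hm) (GamS G hG (m + Pi.single i 1)) (le_GamS G hG _)
      le_rfl] at h
    rw [h]
    congr 1
    apply Nat.card_congr
    apply Equiv.subtypeEquivRight
    intro g
    constructor
    · rintro ⟨⟨h1, h2⟩, h3⟩
      exact ⟨h1, h3⟩
    · rintro ⟨h1, h3⟩
      exact ⟨⟨h1, fun ω hω => h3 ω (fun h4 => hω (levMono (hle m i) h4))⟩, h3⟩
  -- (3)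
  have hS : ∀ m, 0 < Nat.card (G m) := fun m => by
    have := hfin m (G m) (le_GamS G hG m)
    exact Nat.card_pos
  have hT : ∀ m, 0 < Nat.card (GamS G hG m) := fun m => by
    have := hfin m (GamS G hG m) le_rfl
    exact Nat.card_pos
  have hq : ∀ m, ∃ q : ℕ, Nat.card (GamS G hG m) = Nat.card (G m) * q := fun m =>
    Subgroup.card_dvd_of_le (le_GamS G hG m)
  choose q hq using hq
  have e3 : ∀ (m : J → ℕ) (i : J), b ≤ m → q (m + Pi.single i 1) ≤ q m := by
    intro m i hm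
    have h1 := e1 m i hm
    have h2 := e2 m i hm
    rw [hq, hq] at h2
    have h3 : Nat.card (G (m + Pi.single i 1)) * q (m + Pi.single i 1) ≤
        Nat.card (G (m + Pi.single i 1)) * q m := by
      rw [h2, ← mul_assoc]
      exact Nat.mul_le_mul_right _ h1
    exact Nat.le_of_mul_le_mul_left h3 (hS _)
  -- (4)
  obtain ⟨K, hK, hmin⟩ := WellFounded.has_min (InvImage.wf q Nat.lt_wfRel.wf) {m | b ≤ m}
    ⟨b, le_refl b⟩
  have hK' : b ≤ K := hK
  have e4 : ∀ (N : ℕ) (n : J → ℕ), ∑ j, n j = N → q (K + n) ≤ q K := by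
    intro N
    induction N with
    | zero =>
      intro n hn
      have h0 : n = 0 := by
        funext j
        exact (Finset.sum_eq_zero_iff.mp hn) j (Finset.mem_univ j)
      rw [h0, add_zero]
    | succ N ih =>
      intro n hn
      obtain ⟨i, -, hi⟩ : ∃ i ∈ Finset.univ, n i ≠ 0 := by
        apply Finset.exists_ne_zero_of_sum_ne_zero
        rw [hn]
        omega
      have hn' : n = (n - Pi.single i 1) + Pi.single i 1 := by
        funext j
        by_cases hj : j = i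
        · subst hj
          simp only [Pi.add_apply, Pi.sub_apply, Pi.single_eq_same]
          omega
        · simp [Pi.single_eq_of_ne hj]
      have hs : ∑ j, (n - (Pi.single i 1 : J → ℕ)) j = N := by
        have h5 : ∑ j, n j = ∑ j, ((n - (Pi.single i 1 : J → ℕ)) + (Pi.single i 1 : J → ℕ)) j := by
          rw [← hn']
        simp only [Pi.add_apply, Finset.sum_add_distrib] at h5
        rw [Finset.sum_pi_single'] at h5
        simp only [Finset.mem_univ, if_true] at h5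
        omega
      have h6 := ih _ hs
      rw [hn', ← add_assoc]
      exact (e3 _ i (hK'.trans le_self_add)).trans h6
  have e5 : ∀ m, K ≤ m → q m = q K := by
    intro m hm
    apply le_antisymm
    · have h7 := e4 _ (m - K) rfl
      rwa [add_tsub_cancel_of_le hm] at h7
    · exact not_lt.mp (hmin m (show b ≤ m from hK'.trans hm))
  have e6 : ∀ (m : J → ℕ) (i : J), K ≤ m →
      Nat.card (G (m + Pi.single i 1)) = pc G i (m + Pi.single i 1) * Nat.card (G m) := by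
    intro m i hm
    have h2 := e2 m i (hK'.trans hm)
    rw [hq, hq, e5 m hm, e5 _ (hm.trans (hle m i)), ← mul_assoc] at h2
    have hqK : 0 < q K := by
      have h8 := hT K
      rw [hq K] at h8
      exact Nat.pos_of_mul_pos_left h8
    exact Nat.eq_of_mul_eq_mul_right hqK h2
  refine ⟨K, fun i => MvPolynomial.bind₁
    (fun j => MvPolynomial.X j + MvPolynomial.C (((Pi.single i 1 : J → ℕ) j : ℕ) : ℂ)) (p i),
    fun m i hm => ?_⟩
  rw [e6 m i hm, Nat.cast_mul, hp]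
  congr 1
  unfold ev
  rw [← MvPolynomial.coe_aeval_eq_eval, ← MvPolynomial.coe_aeval_eq_eval]
  simp only [RingHom.coe_coe]
  rw [MvPolynomial.aeval_bind₁]
  congr 2
  funext j
  simp

end Pool.Agent.Work.MP_6da7fa_al.MB
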