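import Pool.Agent.Work.MP_6da7fa_al.MB.Stmts

set_option autoImplicit false

/-!
# Theorem MB, item Go (helper37): orbits of the blocks are invariant under block permutations
-/

namespace Pool.Agent.Work.MP_6da7fa_al.MB

open Equiv

theorem prGo : StGo := by
  intro J Z _ _ d G hG i s hs τ hτ
  obtain ⟨m, g, hg, j, rfl⟩ := hτ
  choose n hn using hs
  have h1 : bp s ∈ G n := hG.block n s (fun i j hj => hn i j hj)
  have h2 : bp s ∈ G (m ⊔ n) := hG.mono n (m ⊔ n) le_sup_right h1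
  have h3 : g ∈ G (m ⊔ n) := hG.mono m (m ⊔ n) le_sup_left hg
  exact ⟨m ⊔ n, bp s * g, (G (m ⊔ n)).mul_mem h2 h3, j, rfl⟩

end Pool.Agent.Work.MP_6da7fa_al.MB
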