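import Pool.Agent.Work.MP_6da7fa_al.MB.Stmts

set_option autoImplicit false

/-!
# Theorem MB, item Gs: additivity and change of variables for the generating series
-/

namespace Pool.Agent.Work.MP_6da7fa_al.MB

namespace IGs

theorem add_part (T : Type) (N : T → ℕ) (a b : T → ℂ) (ha : FibFin N a) (hb : FibFin N b) :
    gs N (fun t => a t + b t) = gs N a + gs N b := by
  ext n
  rw [map_add]
  unfold gs
  rw [PowerSeries.coeff_mk, PowerSeries.coeff_mk, PowerSeries.coeff_mk]
  exact finsum_mem_add_distrib' (s := {t | N t = n}) (ha n) (hb n)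

theorem comp_part (T T' : Type) (N : T → ℕ) (a : T → ℂ) (f : T' → T) (hf : Function.Injective f) :
    gs N (Set.indicator (Set.range f) a) = gs (fun t => N (f t)) (fun t => a (f t)) := by
  ext n
  unfold gs
  rw [PowerSeries.coeff_mk, PowerSeries.coeff_mk]
  have h1 : (∑ᶠ (t : T) (_ : N t = n), Set.indicator (Set.range f) a t) =
      ∑ᶠ t ∈ {t | N t = n} ∩ Set.range f, a t := by
    rw [finsum_mem_def, ← Set.indicator_indicator, ← finsum_mem_def]
    rfl
  have h2 : (∑ᶠ (t : T') (_ : N (f t) = n), a (f t)) =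
      ∑ᶠ t ∈ {t | N t = n} ∩ Set.range f, a t := by
    refine finsum_mem_eq_of_bijOn (s := {t | N (f t) = n}) f ⟨?_, hf.injOn, ?_⟩ (fun x _ => rfl)
    · intro t ht
      exact ⟨ht, t, rfl⟩
    · rintro t ⟨ht, s, rfl⟩
      exact ⟨s, ht, rfl⟩
  rw [h1, h2]

end IGs

theorem prGs : StGs := ⟨IGs.add_part, IGs.comp_part⟩

end Pool.Agent.Work.MP_6da7fa_al.MB
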