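import Pool.Agent.Work.MP_6da7fa_al.MB.Stmts

set_option autoImplicit false

/-!
# Theorem MB, item H: the generating series of a hypergeometric family is D-finite (helper78)
-/

namespace Pool.Agent.Work.MP_6da7fa_al.MB

theorem prH : StH := by
  intro hHa hHb hHc hHd J _ _ d e P a hd ha
  exact hHd _ (hHc J d e a hd (hHb hHa J d e P a ha))

end Pool.Agent.Work.MP_6da7fa_al.MB
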