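import Pool.Agent.Work.MP_6da7fa_al.MB.Stmts

set_option autoImplicit false

/-!
# Theorem MB, item Ha: going down in a hypergeometric family
-/

namespace Pool.Agent.Work.MP_6da7fa_al.MB

open MvPolynomial

namespace IHa

theorem shift {J : Type} (p : MvPolynomial J ℂ) (γ : J → ℂ) :
    ∃ q : MvPolynomial J ℂ, q.totalDegree ≤ p.totalDegree ∧
      ∀ x : J → ℂ, eval x q = eval (fun j => x j - γ j) p := by
  refine ⟨∑ α ∈ p.support, C (coeff α p) * ∏ j ∈ α.support, (X j - C (γ j)) ^ α j, ?_, ?_⟩
  · apply totalDegree_finsetSum_le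
    intro α hα
    have h1 : (∏ j ∈ α.support, (X j - C (γ j) : MvPolynomial J ℂ) ^ α j).totalDegree ≤
        ∑ j ∈ α.support, α j := by
      refine (totalDegree_finsetProd _ _).trans ?_
      apply Finset.sum_le_sum
      intro j _
      refine (totalDegree_pow _ _).trans ?_
      have h2 : (X j - C (γ j) : MvPolynomial J ℂ).totalDegree ≤ 1 := by
        have e : (X j - C (γ j) : MvPolynomial J ℂ) = X j + C (-γ j) := by
          rw [C_neg, sub_eq_add_neg]
        rw [e]
        refine (totalDegree_add _ _).trans ?_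
        rw [totalDegree_X, totalDegree_C]
        simp
      calc α j * (X j - C (γ j) : MvPolynomial J ℂ).totalDegree ≤ α j * 1 :=
            Nat.mul_le_mul_left _ h2
        _ = α j := mul_one _
    have h3 : ∑ j ∈ α.support, α j ≤ p.totalDegree := le_totalDegree hα
    refine (totalDegree_mul _ _).trans ?_
    rw [totalDegree_C, zero_add]
    exact h1.trans h3
  · intro x
    rw [map_sum, eval_eq]
    apply Finset.sum_congr rfl
    intro α _
    rw [map_mul, eval_C, map_prod]
    congr 1
    apply Finset.prod_congr rfl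
    intro j _
    rw [map_pow, map_sub, eval_X, eval_C]

theorem ev_mul {J : Type} [Fintype J] [DecidableEq J] (p q : MvPolynomial J ℂ) (m : J → ℕ) :
    ev (p * q) m = ev p m * ev q m := by
  unfold ev
  rw [map_mul]

theorem down {J : Type} [Fintype J] [DecidableEq J] (P : J → MvPolynomial J ℂ)
    (a : (J → ℕ) → ℂ) (ha : ∀ m i, a m = ev (P i) m * a (m + Pi.single i 1)) (D : ℕ)
    (hD : ∀ i, (P i).totalDegree ≤ D) : ∀ (n : ℕ) (β : J → ℕ), ∑ i, β i = n →
    ∃ Q : MvPolynomial J ℂ, Q.totalDegree ≤ D * n ∧
      ∀ m : J → ℕ, β ≤ m → a (m - β) = ev Q m * a m := by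
  intro n
  induction n with
  | zero =>
    intro β hβ
    have h0 : β = 0 := by
      funext i
      have := (Finset.sum_eq_zero_iff.1 hβ) i (Finset.mem_univ i)
      simpa using this
    refine ⟨1, ?_, ?_⟩
    · simp
    · intro m _
      subst h0
      unfold ev
      rw [map_one, one_mul]
      rfl
  | succ n ih =>
    intro β hβ
    obtain ⟨i, hi⟩ : ∃ i, β i ≠ 0 := by
      by_contra hcon
      have : ∀ i, β i = 0 := by
        intro i
        by_contra h
        exact hcon ⟨i, h⟩
      rw [Finset.sum_eq_zero (fun i _ => this i)] at hβ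
      omega
    set β' : J → ℕ := β - Pi.single i 1 with hβ'
    have hββ : β = β' + Pi.single i 1 := by
      funext j
      rw [hβ', Pi.add_apply, Pi.sub_apply]
      by_cases hj : j = i
      · subst hj
        rw [Pi.single_eq_same]
        omega
      · rw [Pi.single_eq_of_ne hj]
        omega
    have hpt : ∀ j, β j = β' j + (Pi.single i 1 : J → ℕ) j := fun j => congrFun hββ j
    clear_value β'
    have hs : ∑ j, β' j = n := by
      have h1 : ∑ j, β j = ∑ j, β' j + ∑ j, (Pi.single i 1 : J → ℕ) j := by
        rw [← Finset.sum_add_distrib]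
        apply Finset.sum_congr rfl
        intro j _
        exact hpt j
      have h2 : ∑ j, (Pi.single i 1 : J → ℕ) j = 1 := by
        rw [Finset.sum_eq_single i]
        · exact Pi.single_eq_same _ _
        · intro j _ hj
          exact Pi.single_eq_of_ne hj _
        · intro h
          exact absurd (Finset.mem_univ _) h
      omega
    obtain ⟨Q, hQ1, hQ2⟩ := ih β' hs
    obtain ⟨S, hS1, hS2⟩ := shift (P i) (fun j => (β j : ℂ))
    refine ⟨S * Q, ?_, ?_⟩
    · refine (totalDegree_mul _ _).trans ?_
      have := hD i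
      calc S.totalDegree + Q.totalDegree ≤ D + D * n := Nat.add_le_add (hS1.trans this) hQ1
        _ = D * (n + 1) := by ring
    · intro m hm
      have hm' : β' ≤ m := by
        intro j
        have h4 : β j ≤ m j := hm j
        rw [hpt j] at h4
        exact le_trans (Nat.le_add_right _ _) h4
      have e1 : m - β + Pi.single i 1 = m - β' := by
        funext j
        have h4 : β j ≤ m j := hm j
        have h3 := hpt j
        rw [Pi.add_apply, Pi.sub_apply, Pi.sub_apply]
        omega
      have e2 : ev (P i) (m - β) = ev S m := by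
        unfold ev
        rw [hS2]
        congr 1
        congr 1
        funext j
        rw [Pi.sub_apply, Nat.cast_sub (hm j)]
      rw [ha (m - β) i, e1, hQ2 m hm', ev_mul, e2]
      ring

end IHa

theorem prHa : StHa := by
  intro J _ _ d e P a ha
  set D := ∑ i, (P i).totalDegree with hD
  have hDi : ∀ i, (P i).totalDegree ≤ D := fun i =>
    Finset.single_le_sum (f := fun i => (P i).totalDegree) (fun _ _ => Nat.zero_le _)
      (Finset.mem_univ i)
  refine ⟨1 + D * Fintype.card J, ?_⟩
  intro v b β hb hβ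
  obtain ⟨Q, hQ1, hQ2⟩ := IHa.down P a ha D hDi (∑ i, β i) β rfl
  set L : MvPolynomial J ℂ := C ((e : ℂ) - ∑ i, (d i : ℂ) * (β i : ℂ)) + ∑ i, C (d i : ℂ) * X i
    with hL
  have hL1 : L.totalDegree ≤ 1 := by
    rw [hL]
    refine (totalDegree_add _ _).trans ?_
    rw [totalDegree_C]
    refine max_le (Nat.zero_le _) ?_
    apply totalDegree_finsetSum_le
    intro i _
    refine (totalDegree_mul _ _).trans ?_
    rw [totalDegree_C, totalDegree_X]
  have hL2 : ∀ m : J → ℕ, β ≤ m → ev L m = (wt e d (m - β) : ℂ) := by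
    intro m hm
    unfold ev wt
    rw [hL, map_add, eval_C, map_sum]
    push_cast
    have h1 : ∀ i ∈ (Finset.univ : Finset J), (d i : ℂ) * (((m - β) i : ℕ) : ℂ) =
        (d i : ℂ) * (m i : ℂ) - (d i : ℂ) * (β i : ℂ) := by
      intro i _
      rw [Pi.sub_apply, Nat.cast_sub (hm i)]
      ring
    rw [Finset.sum_congr rfl h1, Finset.sum_sub_distrib]
    have h2 : ∀ i ∈ (Finset.univ : Finset J), eval (fun j => (m j : ℂ)) (C (d i : ℂ) * X i) =
        (d i : ℂ) * (m i : ℂ) := by
      intro i _
      rw [map_mul, eval_C, eval_X]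
    rw [Finset.sum_congr rfl h2]
    ring
  have hsum : ∑ i, β i ≤ Fintype.card J * v := by
    calc ∑ i, β i ≤ ∑ _i : J, v := Finset.sum_le_sum (fun i _ => hβ i)
      _ = Fintype.card J * v := by
        rw [Finset.sum_const, Finset.card_univ, smul_eq_mul]
  refine ⟨L ^ b * Q, ?_, ?_⟩
  · refine (totalDegree_mul _ _).trans ?_
    have h1 : (L ^ b).totalDegree ≤ b := by
      refine (totalDegree_pow _ _).trans ?_
      calc b * L.totalDegree ≤ b * 1 := Nat.mul_le_mul_left _ hL1
        _ = b := mul_one _
    calc (L ^ b).totalDegree + Q.totalDegree ≤ b + D * ∑ i, β i := Nat.add_le_add h1 hQ1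
      _ ≤ v + D * (Fintype.card J * v) := Nat.add_le_add hb (Nat.mul_le_mul_left _ hsum)
      _ = (1 + D * Fintype.card J) * v := by ring
  · intro m hm
    have h3 : ev (L ^ b * Q) m = ev L m ^ b * ev Q m := by
      unfold ev
      rw [map_mul, map_pow]
    rw [h3, hL2 m hm, hQ2 m hm]
    ring

end Pool.Agent.Work.MP_6da7fa_al.MB
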