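import Pool.Agent.Work.MP_6da7fa_al.MB.Stmts

set_option autoImplicit false

/-!
# Item Hb of Theorem MB: counting dimensions
-/

namespace Pool.Agent.Work.MP_6da7fa_al.MB

namespace IHb

/-- the one-variable functions -/
noncomputable def psi {v K : ℕ} (t : Fin v ⊕ Fin K) (x : ℕ) : ℂ :=
  Sum.elim (fun c : Fin v => if x = (c : ℕ) then 1 else 0) (fun k : Fin K => (x : ℂ) ^ (k : ℕ)) t

theorem one (v K β α : ℕ) (hβ : β ≤ v) (hα : α < K) : ∃ c : Fin v ⊕ Fin K → ℂ, ∀ x : ℕ,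
    (if β ≤ x then (x : ℂ) ^ α else 0) = ∑ t, c t * psi t x := by
  refine ⟨Sum.elim (fun c => if (c : ℕ) < β then -((c : ℕ) : ℂ) ^ α else 0)
    (fun k => if (k : ℕ) = α then 1 else 0), fun x => ?_⟩
  rw [Fintype.sum_sum_type]
  have h1 : ∑ k : Fin K, Sum.elim (fun c : Fin v => if (c : ℕ) < β then -((c : ℕ) : ℂ) ^ α else 0)
      (fun k : Fin K => if (k : ℕ) = α then (1 : ℂ) else 0) (Sum.inr k) *
        psi (Sum.inr k : Fin v ⊕ Fin K) x = (x : ℂ) ^ α := by
    rw [Finset.sum_eq_single (⟨α, hα⟩ : Fin K)]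
    · simp [psi]
    · intro k _ hk
      have : (k : ℕ) ≠ α := fun h => hk (Fin.ext h)
      simp [this]
    · intro h
      exact absurd (Finset.mem_univ _) h
  rw [h1]
  by_cases hx : β ≤ x
  · rw [if_pos hx, Finset.sum_eq_zero, zero_add]
    intro c _
    by_cases hc : (c : ℕ) < β
    · have : x ≠ (c : ℕ) := by omega
      simp [psi, this]
    · simp [hc]
  · rw [if_neg hx, Finset.sum_eq_single (⟨x, by omega⟩ : Fin v)]
    · simp [psi, not_le.1 hx]
    · intro c _ hc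
      have : x ≠ (c : ℕ) := fun h => hc (Fin.ext h.symm)
      simp [psi, this]
    · intro h
      exact absurd (Finset.mem_univ _) h

variable {J : Type} [Fintype J] [DecidableEq J]

/-- the products of one-variable functions -/
noncomputable def Psi {v K : ℕ} (φ : J → Fin v ⊕ Fin K) (m : J → ℕ) : ℂ := ∏ i, psi (φ i) (m i)

theorem prodmem {v K : ℕ} (f : J → ℕ → ℂ) (c : J → (Fin v ⊕ Fin K) → ℂ)
    (h : ∀ i x, f i x = ∑ t, c i t * psi t x) :
    (fun m : J → ℕ => ∏ i, f i (m i)) ∈ Submodule.span ℂ (Set.range (Psi (J := J) (v := v) (K := K))) := by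
  have e : (fun m : J → ℕ => ∏ i, f i (m i)) =
      ∑ φ : J → Fin v ⊕ Fin K, (∏ i, c i (φ i)) • Psi φ := by
    funext m
    rw [Finset.sum_apply]
    have h1 : ∏ i, f i (m i) = ∏ i, ∑ t, c i t * psi t (m i) :=
      Finset.prod_congr rfl fun i _ => h i (m i)
    rw [h1, Finset.prod_univ_sum, Fintype.piFinset_univ]
    refine Finset.sum_congr rfl fun φ _ => ?_
    rw [Finset.prod_mul_distrib]
    rfl
  rw [e]
  exact Submodule.sum_mem _ fun φ _ => Submodule.smul_mem _ _ (Submodule.subset_span ⟨φ, rfl⟩)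

theorem polymem (v K : ℕ) (β : J → ℕ) (hβ : ∀ i, β i ≤ v) (R : MvPolynomial J ℂ)
    (hR : R.totalDegree < K) :
    (fun m : J → ℕ => if (∀ i, β i ≤ m i) then ev R m else 0) ∈
      Submodule.span ℂ (Set.range (Psi (J := J) (v := v) (K := K))) := by
  have e : (fun m : J → ℕ => if (∀ i, β i ≤ m i) then ev R m else 0) =
      ∑ α ∈ R.support, R.coeff α • (fun m : J → ℕ => ∏ i,
        (fun i x => if β i ≤ x then (x : ℂ) ^ (α i) else 0) i (m i)) := by
    funext m
    rw [Finset.sum_apply]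
    by_cases hm : ∀ i, β i ≤ m i
    · rw [if_pos hm]
      unfold ev
      rw [MvPolynomial.eval_eq']
      refine Finset.sum_congr rfl fun α _ => ?_
      show _ = R.coeff α * ∏ i, (if β i ≤ m i then (m i : ℂ) ^ (α i) else 0)
      congr 1
      exact Finset.prod_congr rfl fun i _ => (if_pos (hm i)).symm
    · rw [if_neg hm]
      push Not at hm
      obtain ⟨i, hi⟩ := hm
      refine (Finset.sum_eq_zero fun α _ => ?_).symm
      show R.coeff α * ∏ i, (if β i ≤ m i then (m i : ℂ) ^ (α i) else 0) = 0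
      rw [Finset.prod_eq_zero (Finset.mem_univ i) (if_neg (not_le.2 hi)), mul_zero]
  rw [e]
  refine Submodule.sum_mem _ fun α hα => Submodule.smul_mem _ _ ?_
  have hα' : ∀ i, α i < K := fun i =>
    lt_of_le_of_lt ((MvPolynomial.monomial_le_degreeOf i hα).trans
      (MvPolynomial.degreeOf_le_totalDegree R i)) hR
  choose c hc using fun i => one v K (β i) (α i) (hβ i) (hα' i)
  exact prodmem _ c hc

/-- cutting out the degree -/
def cut (e : ℕ) (d : J → ℕ) (a : (J → ℕ) → ℂ) (Dv ρ : ℕ) :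
    ((J → ℕ) → ℂ) →ₗ[ℂ] (ℕ × (J → ℕ) → ℂ) where
  toFun f := fun p => if p.1 + Dv = wt e d p.2 + ρ then a p.2 * f p.2 else 0
  map_add' f g := by
    funext p
    show (if p.1 + Dv = wt e d p.2 + ρ then a p.2 * (f p.2 + g p.2) else 0) =
      (if p.1 + Dv = wt e d p.2 + ρ then a p.2 * f p.2 else 0) +
        (if p.1 + Dv = wt e d p.2 + ρ then a p.2 * g p.2 else 0)
    split_ifs <;> ring
  map_smul' r f := by
    funext p
    show (if p.1 + Dv = wt e d p.2 + ρ then a p.2 * (r * f p.2) else 0) =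
      r * (if p.1 + Dv = wt e d p.2 + ρ then a p.2 * f p.2 else 0)
    split_ifs <;> ring

omit [DecidableEq J] in
theorem wt_sub (e : ℕ) (d m β : J → ℕ) (h : ∀ i, β i ≤ m i) :
    wt e d (fun i => m i - β i) + ∑ i, d i * β i = wt e d m := by
  unfold wt
  rw [add_assoc, ← Finset.sum_add_distrib]
  congr 1
  refine Finset.sum_congr rfl fun i _ => ?_
  rw [← mul_add, Nat.sub_add_cancel (h i)]

/-- the number of the functions -/
theorem count (q D C : ℕ) : ((D + 1) * ((D + 1) * (C + 1) ^ q) + 1) *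
    ((D + 1) * (C + 1) ^ q + (C * ((D + 1) * (C + 1) ^ q) + 1)) ^ q <
      ((D + 1) * (C + 1) ^ q + 1) * (((D + 1) * (C + 1) ^ q + 1) *
        ((D + 1) * (C + 1) ^ q + 1) ^ q) := by
  obtain ⟨v, hv⟩ : ∃ v, v = (D + 1) * (C + 1) ^ q := ⟨_, rfl⟩
  rw [← hv]
  have h1 : (D + 1) * v + 1 ≤ (D + 1) * (v + 1) := by
    rw [mul_add]
    omega
  have h2 : v + (C * v + 1) ≤ (C + 1) * (v + 1) := by
    have : (C + 1) * (v + 1) = v + (C * v + 1) + C := by ring
    omega
  calc ((D + 1) * v + 1) * (v + (C * v + 1)) ^ q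
      ≤ ((D + 1) * (v + 1)) * ((C + 1) * (v + 1)) ^ q :=
        Nat.mul_le_mul h1 (Nat.pow_le_pow_left h2 q)
    _ = v * ((v + 1) * (v + 1) ^ q) := by
        rw [mul_pow]
        rw [show (D + 1) * (v + 1) * ((C + 1) ^ q * (v + 1) ^ q) =
          ((D + 1) * (C + 1) ^ q) * ((v + 1) * (v + 1) ^ q) from by ring, ← hv]
    _ < (v + 1) * ((v + 1) * (v + 1) ^ q) :=
        Nat.mul_lt_mul_of_pos_right (Nat.lt_succ_self v) (by positivity)

end IHb

open IHb in
theorem prHb : StHb := by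
  intro hHa J _ _ d e P a ha
  obtain ⟨C, hC⟩ := hHa J d e P a ha
  obtain ⟨D, hD⟩ : ∃ D, D = ∑ i, d i := ⟨_, rfl⟩
  obtain ⟨v, hv⟩ : ∃ v, v = (D + 1) * (C + 1) ^ (Fintype.card J) := ⟨_, rfl⟩
  -- the functions
  let g : Fin (v + 1) × Fin (v + 1) × (J → Fin (v + 1)) → (ℕ × (J → ℕ) → ℂ) := fun x p =>
    if (∀ i, (x.2.2 i : ℕ) ≤ p.2 i) ∧ (x.1 : ℕ) ≤ p.1 ∧
        wt e d (fun i => p.2 i - (x.2.2 i : ℕ)) = p.1 - (x.1 : ℕ) then
      ((p.1 : ℂ) - (x.1 : ℕ)) ^ (x.2.1 : ℕ) * a (fun i => p.2 i - (x.2.2 i : ℕ)) else 0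
  let h : Fin ((D + 1) * v + 1) × (J → Fin v ⊕ Fin (C * v + 1)) → (ℕ × (J → ℕ) → ℂ) := fun y =>
    cut e d a (D * v) y.1 (Psi y.2)
  have hmem : ∀ x, g x ∈ Submodule.span ℂ (Set.range h) := by
    rintro ⟨s, b, β⟩
    have hβv : ∀ i, (β i : ℕ) ≤ v := fun i => Nat.lt_succ_iff.1 (β i).2
    have hsv : (s : ℕ) ≤ v := Nat.lt_succ_iff.1 s.2
    obtain ⟨R, hRd, hR⟩ := hC v b (fun i => (β i : ℕ)) (Nat.lt_succ_iff.1 b.2) hβv
    have hsum : ∑ i, d i * (β i : ℕ) ≤ D * v := by
      rw [hD, Finset.sum_mul]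
      exact Finset.sum_le_sum fun i _ => Nat.mul_le_mul_left _ (hβv i)
    obtain ⟨ρ, hρ⟩ : ∃ ρ, ρ = (s : ℕ) + (D * v - ∑ i, d i * (β i : ℕ)) := ⟨_, rfl⟩
    have hρv : ρ < (D + 1) * v + 1 := by
      have : (D + 1) * v = D * v + v := by ring
      omega
    have hF := polymem v (C * v + 1) (fun i => (β i : ℕ)) hβv R (Nat.lt_succ_of_le hRd)
    have hg : g (s, b, β) = cut e d a (D * v) ρ
        (fun m : J → ℕ => if (∀ i, (β i : ℕ) ≤ m i) then ev R m else 0) := by
      funext p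
      obtain ⟨n, m⟩ := p
      show (if (∀ i, (β i : ℕ) ≤ m i) ∧ (s : ℕ) ≤ n ∧
        wt e d (fun i => m i - (β i : ℕ)) = n - (s : ℕ) then
        ((n : ℂ) - (s : ℕ)) ^ (b : ℕ) * a (fun i => m i - (β i : ℕ)) else 0) =
        if n + D * v = wt e d m + ρ then
          a m * (if (∀ i, (β i : ℕ) ≤ m i) then ev R m else 0) else 0
      by_cases hm : ∀ i, (β i : ℕ) ≤ m i
      · have hw := wt_sub e d m (fun i => (β i : ℕ)) hm
        rw [if_pos hm]
        by_cases hc : n + D * v = wt e d m + ρ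
        · have hn : (s : ℕ) ≤ n ∧ wt e d (fun i => m i - (β i : ℕ)) = n - (s : ℕ) := by
            omega
          rw [if_pos ⟨hm, hn⟩, if_pos hc]
          have h1 : ((n : ℂ) - (s : ℕ)) = (wt e d (fun i => m i - (β i : ℕ)) : ℂ) := by
            rw [hn.2, Nat.cast_sub hn.1]
          rw [h1]
          have h2 := hR m hm
          rw [mul_comm (a m)]
          exact h2
        · rw [if_neg hc, if_neg]
          rintro ⟨-, h3, h4⟩
          apply hc
          omega
      · rw [if_neg (fun h => hm h.1), if_neg hm, mul_zero, ite_self]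
    rw [hg]
    have h3 := Submodule.mem_map_of_mem (f := cut e d a (D * v) ρ) hF
    rw [Submodule.map_span] at h3
    refine Submodule.span_mono ?_ h3
    rintro _ ⟨_, ⟨φ, rfl⟩, rfl⟩
    exact ⟨(⟨ρ, hρv⟩, φ), rfl⟩
  have hnot : ¬ LinearIndependent ℂ g := by
    intro hli
    let _ : Fintype (Set.range h) := Fintype.ofFinite _
    have h1 := linearIndependent_le_span' g hli (Set.range h) (by
      rintro _ ⟨x, rfl⟩
      exact hmem x)
    have h2 : Fintype.card (Set.range h) ≤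
        Fintype.card (Fin ((D + 1) * v + 1) × (J → Fin v ⊕ Fin (C * v + 1))) :=
      Fintype.card_le_of_surjective (Set.rangeFactorization h) Set.rangeFactorization_surjective
    have h3 : Fintype.card (Fin (v + 1) × Fin (v + 1) × (J → Fin (v + 1))) ≤
        Fintype.card (Set.range h) := by
      rw [Cardinal.mk_fintype] at h1
      exact Nat.cast_le.1 h1
    have h4 := h3.trans h2
    simp only [Fintype.card_prod, Fintype.card_fin, Fintype.card_fun, Fintype.card_sum] at h4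
    have h5 := count (Fintype.card J) D C
    rw [← hv] at h5
    omega
  rw [Fintype.not_linearIndependent_iff] at hnot
  obtain ⟨c, hc, x₀, hx₀⟩ := hnot
  refine ⟨v, fun s b β => c (s, b, β), fun h0 => hx₀ ?_, fun n m => ?_⟩
  · exact congrFun (congrFun (congrFun h0 x₀.1) x₀.2.1) x₀.2.2
  · have h1 := congrFun hc (n, m)
    rw [Finset.sum_apply, Fintype.sum_prod_type] at h1
    simp only [Fintype.sum_prod_type] at h1
    exact h1

end Pool.Agent.Work.MP_6da7fa_al.MB
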