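import Pool.Agent.Work.MP_6da7fa_al.MB.Stmts

set_option autoImplicit false

/-!
# Item Hc: elimination of the variables `z`

Instead of polynomials in `y`, `z = 1 + y`, the coefficient of `y ^ γ` of `(1 + y) ^ m` is used:
the product of the binomial coefficients.
-/

namespace Pool.Agent.Work.MP_6da7fa_al.MB

open scoped Polynomial PowerSeries

namespace IHc

section
variable {J : Type} [Fintype J]

/-- the coefficient of `y ^ γ` in `(1 + y) ^ m` -/
noncomputable def ch (m γ : J → ℕ) : ℂ := ∏ i, ((m i).choose (γ i) : ℂ)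

/-- the coefficients after the substitution -/
noncomputable def Cp {v : ℕ} [DecidableEq J] (c : (J → Fin (v + 1)) → ℂ) (γ : J → ℕ) : ℂ :=
  ∑ β, c β * ch (fun i => (β i : ℕ)) γ

theorem ch_self (m : J → ℕ) : ch m m = 1 := by
  unfold ch
  refine Finset.prod_eq_one fun i _ => ?_
  rw [Nat.choose_self, Nat.cast_one]

theorem exists_ne [DecidableEq J] {v : ℕ} (c : (J → Fin (v + 1)) → ℂ) (h : c ≠ 0) :
    ∃ γ, Cp c γ ≠ 0 := by
  classical
  obtain ⟨β₀, hβ₀⟩ := Function.ne_iff.1 h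
  obtain ⟨β, hβ, hmax⟩ := Finset.exists_max_image
    (Finset.univ.filter fun β : J → Fin (v + 1) => c β ≠ 0) (fun β => ∑ i, (β i : ℕ))
    ⟨β₀, Finset.mem_filter.2 ⟨Finset.mem_univ _, hβ₀⟩⟩
  have hβ1 : c β ≠ 0 := (Finset.mem_filter.1 hβ).2
  refine ⟨fun i => (β i : ℕ), ?_⟩
  have hs : Cp c (fun i => (β i : ℕ)) = c β * ch (fun i => (β i : ℕ)) (fun i => (β i : ℕ)) := by
    unfold Cp
    refine Finset.sum_eq_single β ?_ (fun h => absurd (Finset.mem_univ _) h)
    intro β' _ hne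
    by_cases hc : c β' = 0
    · rw [hc, zero_mul]
    · have h1 := hmax β' (Finset.mem_filter.2 ⟨Finset.mem_univ _, hc⟩)
      have h2 : ∃ i, (β' i : ℕ) < (β i : ℕ) := by
        by_contra hcon
        push Not at hcon
        have h3 : ∑ i, (β i : ℕ) ≤ ∑ i, (β' i : ℕ) := Finset.sum_le_sum fun i _ => hcon i
        have h4 : ∑ i, (β i : ℕ) = ∑ i, (β' i : ℕ) := le_antisymm h3 h1
        have h5 := (Finset.sum_eq_sum_iff_of_le (fun i _ => hcon i)).1 h4
        apply hne
        funext i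
        exact Fin.ext (h5 i (Finset.mem_univ _)).symm
      obtain ⟨i, hi⟩ := h2
      have h6 : ch (fun i => (β' i : ℕ)) (fun i => (β i : ℕ)) = 0 := by
        unfold ch
        refine Finset.prod_eq_zero (Finset.mem_univ i) ?_
        rw [Nat.choose_eq_zero_of_lt hi, Nat.cast_zero]
      rw [h6, mul_zero]
  rw [hs, ch_self, mul_one]
  exact hβ1

theorem ch_add [DecidableEq J] (m β γ : J → ℕ) : ch (fun i => m i + β i) γ =
    ∑ x ∈ Fintype.piFinset (fun i => Finset.HasAntidiagonal.antidiagonal (γ i)),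
      ch m (fun i => (x i).1) * ch β (fun i => (x i).2) := by
  unfold ch
  have h1 : ∀ i, (((m i + β i).choose (γ i) : ℕ) : ℂ) =
      ∑ z ∈ Finset.HasAntidiagonal.antidiagonal (γ i), (((m i).choose z.1 : ℕ) : ℂ) * (((β i).choose z.2 : ℕ) : ℂ) := by
    intro i
    rw [Nat.add_choose_eq]
    push_cast
    rfl
  rw [Finset.prod_congr rfl fun i _ => h1 i, Finset.prod_univ_sum]
  refine Finset.sum_congr rfl fun x _ => ?_
  rw [Finset.prod_mul_distrib]

theorem vand [DecidableEq J] {v : ℕ} (c : (J → Fin (v + 1)) → ℂ) (γ : J → ℕ)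
    (hγ : ∀ γ' : J → ℕ, ∑ i, γ' i < ∑ i, γ i → Cp c γ' = 0) (m : J → ℕ) :
    ∑ β : J → Fin (v + 1), c β * ch (fun i => m i + (β i : ℕ)) γ = Cp c γ := by
  classical
  have h1 : ∀ β : J → Fin (v + 1), c β * ch (fun i => m i + (β i : ℕ)) γ =
      ∑ x ∈ Fintype.piFinset (fun i => Finset.HasAntidiagonal.antidiagonal (γ i)),
        ch m (fun i => (x i).1) * (c β * ch (fun i => (β i : ℕ)) (fun i => (x i).2)) := by
    intro β
    rw [ch_add m (fun i => (β i : ℕ)) γ, Finset.mul_sum]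
    refine Finset.sum_congr rfl fun x _ => ?_
    ring
  rw [Finset.sum_congr rfl fun β _ => h1 β, Finset.sum_comm]
  have h2 : ∀ x : J → ℕ × ℕ, ∑ β : J → Fin (v + 1),
      ch m (fun i => (x i).1) * (c β * ch (fun i => (β i : ℕ)) (fun i => (x i).2)) =
      ch m (fun i => (x i).1) * Cp c (fun i => (x i).2) := by
    intro x
    unfold Cp
    rw [Finset.mul_sum]
  rw [Finset.sum_congr rfl fun x _ => h2 x]
  rw [Finset.sum_eq_single (fun i => ((0, γ i) : ℕ × ℕ))]
  · have h3 : ch m (fun _ : J => 0) = 1 := by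
      unfold ch
      refine Finset.prod_eq_one fun i _ => ?_
      rw [Nat.choose_zero_right, Nat.cast_one]
    show ch m (fun _ : J => 0) * Cp c (fun i => γ i) = Cp c γ
    rw [h3, one_mul]
  · intro x hx hne
    rw [Fintype.mem_piFinset] at hx
    have hx' : ∀ i, (x i).1 + (x i).2 = γ i := fun i => Finset.HasAntidiagonal.mem_antidiagonal.1 (hx i)
    have h4 : ∑ i, (x i).2 < ∑ i, γ i := by
      refine Finset.sum_lt_sum (fun i _ => by have := hx' i; omega) ?_
      by_contra hcon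
      push Not at hcon
      apply hne
      funext i
      have h5 := hcon i (Finset.mem_univ _)
      have h6 := hx' i
      refine Prod.ext ?_ ?_
      · show (x i).1 = 0
        omega
      · show (x i).2 = γ i
        omega
    rw [hγ _ h4, mul_zero]
  · intro h
    exfalso
    apply h
    rw [Fintype.mem_piFinset]
    intro i
    rw [Finset.HasAntidiagonal.mem_antidiagonal]
    exact zero_add _

/-- the exponents of weight `k` -/
def W (e : ℕ) (d : J → ℕ) [DecidableEq J] (k : ℕ) : Finset (J → ℕ) :=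
  (Fintype.piFinset fun _ : J => Finset.range (k + 1)).filter fun m => wt e d m = k

theorem le_of_wt {e : ℕ} {d : J → ℕ} (hd : ∀ i, 1 ≤ d i) {m : J → ℕ} {k : ℕ}
    (h : wt e d m = k) (i : J) : m i ≤ k := by
  unfold wt at h
  have h1 : d i * m i ≤ ∑ i, d i * m i :=
    Finset.single_le_sum (f := fun i => d i * m i) (fun _ _ => Nat.zero_le _) (Finset.mem_univ i)
  have h2 : 1 * m i ≤ d i * m i := Nat.mul_le_mul_right _ (hd i)
  omega

theorem mem_W [DecidableEq J] {e : ℕ} {d : J → ℕ} (hd : ∀ i, 1 ≤ d i) {m : J → ℕ} {k : ℕ} :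
    m ∈ W e d k ↔ wt e d m = k := by
  unfold W
  rw [Finset.mem_filter, Fintype.mem_piFinset]
  constructor
  · exact fun h => h.2
  · intro h
    exact ⟨fun i => Finset.mem_range.2 (Nat.lt_succ_of_le (le_of_wt hd h i)), h⟩

theorem coeff_gs [DecidableEq J] {e : ℕ} {d : J → ℕ} (hd : ∀ i, 1 ≤ d i) (a : (J → ℕ) → ℂ)
    (k : ℕ) : PowerSeries.coeff k (gs (wt e d) a) = ∑ m ∈ W e d k, a m := by
  unfold gs
  rw [PowerSeries.coeff_mk]
  rw [← finsum_mem_coe_finset]
  refine finsum_congr fun t => ?_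
  have h : (wt e d t = k) = (t ∈ (W e d k : Set (J → ℕ))) := by
    rw [Finset.mem_coe, mem_W hd]
  rw [h]

theorem step [DecidableEq J] {e : ℕ} {d : J → ℕ} (hd : ∀ i, 1 ≤ d i) (a φ : (J → ℕ) → ℂ)
    (v n s : ℕ) (hs : s ≤ n) (β : J → Fin (v + 1)) (x : ℂ) :
    ∑ m ∈ Fintype.piFinset (fun _ : J => Finset.range (n + v + 1)),
      φ m * (if (∀ i, (β i : ℕ) ≤ m i) ∧ s ≤ n ∧ wt e d (fun i => m i - (β i : ℕ)) = n - s then
        x * a (fun i => m i - (β i : ℕ)) else 0) =
      x * ∑ m ∈ W e d (n - s), a m * φ (fun i => m i + (β i : ℕ)) := by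
  rw [Finset.mul_sum]
  have h1 : ∀ m : J → ℕ, φ m * (if (∀ i, (β i : ℕ) ≤ m i) ∧ s ≤ n ∧
      wt e d (fun i => m i - (β i : ℕ)) = n - s then x * a (fun i => m i - (β i : ℕ)) else 0) =
      if (∀ i, (β i : ℕ) ≤ m i) ∧ s ≤ n ∧ wt e d (fun i => m i - (β i : ℕ)) = n - s then
        φ m * (x * a (fun i => m i - (β i : ℕ))) else 0 := by
    intro m
    split_ifs
    · rfl
    · exact mul_zero _
  rw [Finset.sum_congr rfl fun m _ => h1 m, ← Finset.sum_filter]
  symm
  refine Finset.sum_nbij' (fun m i => m i + (β i : ℕ)) (fun m i => m i - (β i : ℕ)) ?_ ?_ ?_ ?_ ?_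
  · intro m hm
    rw [mem_W hd] at hm
    rw [Finset.mem_filter, Fintype.mem_piFinset]
    have h2 : (fun i => m i + (β i : ℕ) - (β i : ℕ)) = m := by
      funext i
      exact Nat.add_sub_cancel _ _
    refine ⟨fun i => ?_, fun i => Nat.le_add_left _ _, hs, ?_⟩
    · have h3 := le_of_wt hd hm i
      have h4 := (β i).isLt
      rw [Finset.mem_range]
      omega
    · show wt e d (fun i => m i + (β i : ℕ) - (β i : ℕ)) = n - s
      rw [h2]
      exact hm
  · intro m hm
    rw [Finset.mem_filter] at hm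
    rw [mem_W hd]
    exact hm.2.2.2
  · intro m _
    funext i
    exact Nat.add_sub_cancel _ _
  · intro m hm
    rw [Finset.mem_filter] at hm
    funext i
    exact Nat.sub_add_cancel (hm.2.1 i)
  · intro m _
    have h2 : (fun i => m i + (β i : ℕ) - (β i : ℕ)) = m := by
      funext i
      exact Nat.add_sub_cancel _ _
    show x * (a m * φ (fun i => m i + (β i : ℕ))) =
      φ (fun i => m i + (β i : ℕ)) * (x * a (fun i => m i + (β i : ℕ) - (β i : ℕ)))
    rw [h2]
    ring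

end

end IHc

open IHc in
theorem prHc : StHc := by
  intro J _ _ d e a hd hrel
  classical
  obtain ⟨v, c, hc, hrel⟩ := hrel
  -- a nonzero coefficient after the substitution, of minimal degree
  have hex : ∃ k : ℕ, ∃ (s b : Fin (v + 1)) (γ : J → ℕ), ∑ i, γ i = k ∧ Cp (c s b) γ ≠ 0 := by
    obtain ⟨s, hs⟩ := Function.ne_iff.1 hc
    obtain ⟨b, hb⟩ := Function.ne_iff.1 hs
    obtain ⟨γ, hγ⟩ := exists_ne (c s b) hb
    exact ⟨_, s, b, γ, rfl, hγ⟩
  obtain ⟨s₀, b₀, γ, hγk, hγ⟩ := Nat.find_spec hex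
  have hmin : ∀ (s b : Fin (v + 1)) (γ' : J → ℕ), ∑ i, γ' i < ∑ i, γ i → Cp (c s b) γ' = 0 := by
    intro s b γ' hlt
    by_contra hne
    rw [hγk] at hlt
    exact Nat.find_min hex hlt ⟨s, b, γ', rfl, hne⟩
  refine ⟨v, fun s b => Cp (c s b) γ, ?_, fun n => ?_⟩
  · intro h
    exact hγ (congrFun (congrFun h s₀) b₀)
  · -- sum the relation with the weights
    have h0 : ∑ m ∈ Fintype.piFinset (fun _ : J => Finset.range (n + v + 1)), ch m γ *
        ∑ s : Fin (v + 1), ∑ b : Fin (v + 1), ∑ β : J → Fin (v + 1), c s b β *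
          (if (∀ i, (β i : ℕ) ≤ m i) ∧ (s : ℕ) ≤ n ∧
            wt e d (fun i => m i - (β i : ℕ)) = n - (s : ℕ) then
            ((n : ℂ) - (s : ℕ)) ^ (b : ℕ) * a (fun i => m i - (β i : ℕ)) else 0) = 0 := by
      refine Finset.sum_eq_zero fun m _ => ?_
      rw [hrel n m, mul_zero]
    refine Eq.trans ?_ h0
    have h1 : ∀ m : J → ℕ, ch m γ *
        ∑ s : Fin (v + 1), ∑ b : Fin (v + 1), ∑ β : J → Fin (v + 1), c s b β *
          (if (∀ i, (β i : ℕ) ≤ m i) ∧ (s : ℕ) ≤ n ∧
            wt e d (fun i => m i - (β i : ℕ)) = n - (s : ℕ) then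
            ((n : ℂ) - (s : ℕ)) ^ (b : ℕ) * a (fun i => m i - (β i : ℕ)) else 0) =
        ∑ s : Fin (v + 1), ∑ b : Fin (v + 1), ∑ β : J → Fin (v + 1), c s b β * (ch m γ *
          (if (∀ i, (β i : ℕ) ≤ m i) ∧ (s : ℕ) ≤ n ∧
            wt e d (fun i => m i - (β i : ℕ)) = n - (s : ℕ) then
            ((n : ℂ) - (s : ℕ)) ^ (b : ℕ) * a (fun i => m i - (β i : ℕ)) else 0)) := by
      intro m
      rw [Finset.mul_sum]
      refine Finset.sum_congr rfl fun s _ => ?_
      rw [Finset.mul_sum]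
      refine Finset.sum_congr rfl fun b _ => ?_
      rw [Finset.mul_sum]
      refine Finset.sum_congr rfl fun β _ => ?_
      ring
    rw [Finset.sum_congr rfl fun m _ => h1 m]
    conv_rhs => rw [Finset.sum_comm]
    refine Finset.sum_congr rfl fun s _ => ?_
    conv_rhs => rw [Finset.sum_comm]
    refine Finset.sum_congr rfl fun b _ => ?_
    conv_rhs => rw [Finset.sum_comm]
    by_cases hs : (s : ℕ) ≤ n
    · rw [if_pos hs, coeff_gs hd]
      have h2 : ∀ β : J → Fin (v + 1),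
          ∑ m ∈ Fintype.piFinset (fun _ : J => Finset.range (n + v + 1)), c s b β * (ch m γ *
          (if (∀ i, (β i : ℕ) ≤ m i) ∧ (s : ℕ) ≤ n ∧
            wt e d (fun i => m i - (β i : ℕ)) = n - (s : ℕ) then
            ((n : ℂ) - (s : ℕ)) ^ (b : ℕ) * a (fun i => m i - (β i : ℕ)) else 0)) =
          ∑ m ∈ W e d (n - s), (((n : ℂ) - (s : ℕ)) ^ (b : ℕ) * a m) *
            (c s b β * ch (fun i => m i + (β i : ℕ)) γ) := by
        intro β
        rw [← Finset.mul_sum, step hd a (fun m => ch m γ) v n s hs β, Finset.mul_sum,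
          Finset.mul_sum]
        refine Finset.sum_congr rfl fun m _ => ?_
        ring
      rw [Finset.sum_congr rfl fun β _ => h2 β, Finset.sum_comm]
      have h3 : ∀ m : J → ℕ, ∑ β : J → Fin (v + 1), (((n : ℂ) - (s : ℕ)) ^ (b : ℕ) * a m) *
            (c s b β * ch (fun i => m i + (β i : ℕ)) γ) =
            (((n : ℂ) - (s : ℕ)) ^ (b : ℕ) * a m) * Cp (c s b) γ := by
        intro m
        rw [← Finset.mul_sum, vand (c s b) γ (hmin s b) m]
      rw [Finset.sum_congr rfl fun m _ => h3 m, Finset.mul_sum, Finset.mul_sum]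
      refine Finset.sum_congr rfl fun m _ => ?_
      ring
    · rw [if_neg hs, mul_zero]
      symm
      refine Finset.sum_eq_zero fun β _ => Finset.sum_eq_zero fun m _ => ?_
      rw [if_neg (fun h => hs h.2.1), mul_zero, mul_zero]

end Pool.Agent.Work.MP_6da7fa_al.MB
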