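import Pool.Agent.Work.MP_6da7fa_al.MB.Stmts

set_option autoImplicit false

namespace Pool.Agent.Work.MP_6da7fa_al.MB

open scoped Polynomial PowerSeries

namespace IHd

/-- the Euler operator -/
noncomputable def th (f : ℂ⟦X⟧) : ℂ⟦X⟧ := PowerSeries.X * PowerSeries.derivative ℂ f

theorem coeff_th (f : ℂ⟦X⟧) (n : ℕ) :
    PowerSeries.coeff n (th f) = (n : ℂ) * PowerSeries.coeff n f := by
  unfold th
  cases n with
  | zero => simp
  | succ n =>
    rw [PowerSeries.coeff_succ_X_mul, PowerSeries.coeff_derivative]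
    push_cast
    ring

theorem coeff_th_iter (f : ℂ⟦X⟧) (b n : ℕ) :
    PowerSeries.coeff n (th^[b] f) = (n : ℂ) ^ b * PowerSeries.coeff n f := by
  induction b with
  | zero => simp
  | succ b ih => rw [Function.iterate_succ_apply', coeff_th, ih]; ring

/-- Stirling numbers -/
def S : ℕ → ℕ → ℂ
  | 0, 0 => 1
  | 0, _ + 1 => 0
  | _ + 1, 0 => 0
  | b + 1, j + 1 => ((j : ℂ) + 1) * S b (j + 1) + S b j

theorem S_gt (b : ℕ) : ∀ j, b < j → S b j = 0 := by
  induction b with
  | zero =>
    intro j hj
    cases j with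
    | zero => omega
    | succ j => rfl
  | succ b ih =>
    intro j hj
    cases j with
    | zero => omega
    | succ j =>
      show ((j : ℂ) + 1) * S b (j + 1) + S b j = 0
      rw [ih (j + 1) (by omega), ih j (by omega)]
      ring

theorem S_self (b : ℕ) : S b b = 1 := by
  induction b with
  | zero => rfl
  | succ b ih =>
    show ((b : ℂ) + 1) * S b (b + 1) + S b b = 1
    rw [S_gt b (b + 1) (by omega), ih]
    ring

theorem S_zero (b : ℕ) : (((0 : ℕ) : ℂ)) * S b 0 = 0 := by simp

theorem th_g (f : ℂ⟦X⟧) (c : ℂ) (j : ℕ) :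
    th (PowerSeries.C c * (PowerSeries.X ^ j * (PowerSeries.derivative ℂ)^[j] f)) =
      PowerSeries.C (c * j) * (PowerSeries.X ^ j * (PowerSeries.derivative ℂ)^[j] f) +
      PowerSeries.C c * (PowerSeries.X ^ (j + 1) * (PowerSeries.derivative ℂ)^[j + 1] f) := by
  unfold th
  rw [Derivation.leibniz, PowerSeries.derivative_C, smul_zero, add_zero, Derivation.leibniz,
    Derivation.leibniz_pow, PowerSeries.derivative_X, Function.iterate_succ_apply']
  simp only [smul_eq_mul, mul_one]
  rw [map_mul, map_natCast]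
  cases j with
  | zero => simp; ring
  | succ j =>
    rw [nsmul_eq_mul]
    simp only [Nat.add_sub_cancel]
    push_cast
    ring

theorem th_add (f g : ℂ⟦X⟧) : th (f + g) = th f + th g := by
  unfold th; rw [map_add, mul_add]

theorem th_sum {ι : Type} (s : Finset ι) (f : ι → ℂ⟦X⟧) : th (∑ i ∈ s, f i) = ∑ i ∈ s, th (f i) := by
  unfold th; rw [map_sum, Finset.mul_sum]

theorem th_iter (f : ℂ⟦X⟧) (b : ℕ) :
    th^[b] f = ∑ j ∈ Finset.range (b + 1),
      PowerSeries.C (S b j) * (PowerSeries.X ^ j * (PowerSeries.derivative ℂ)^[j] f) := by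
  induction b with
  | zero => simp [S]
  | succ b ih =>
    rw [Function.iterate_succ_apply', ih, th_sum]
    rw [Finset.sum_congr rfl fun j _ => th_g f (S b j) j, Finset.sum_add_distrib,
      Finset.sum_range_succ' (n := b + 1)]
    have h0 : S (b + 1) 0 = 0 := rfl
    have h1 : ∀ j ∈ Finset.range (b + 1), PowerSeries.C (S (b + 1) (j + 1)) *
        (PowerSeries.X ^ (j + 1) * (PowerSeries.derivative ℂ)^[j + 1] f) =
        PowerSeries.C (S b (j + 1) * ((j + 1 : ℕ) : ℂ)) *
          (PowerSeries.X ^ (j + 1) * (PowerSeries.derivative ℂ)^[j + 1] f) +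
        PowerSeries.C (S b j) *
          (PowerSeries.X ^ (j + 1) * (PowerSeries.derivative ℂ)^[j + 1] f) := by
      intro j _
      have : S (b + 1) (j + 1) = S b (j + 1) * ((j + 1 : ℕ) : ℂ) + S b j := by
        show ((j : ℂ) + 1) * S b (j + 1) + S b j = _
        push_cast
        ring
      rw [this, map_add, add_mul]
    rw [Finset.sum_congr rfl h1, Finset.sum_add_distrib, h0, map_zero, zero_mul, add_zero]
    have h2 := Finset.sum_range_succ' (n := b + 1) (fun j : ℕ => PowerSeries.C (S b j * (j : ℂ)) *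
      (PowerSeries.X ^ j * (PowerSeries.derivative ℂ)^[j] f))
    have h3 := Finset.sum_range_succ (n := b + 1) (fun j : ℕ => PowerSeries.C (S b j * (j : ℂ)) *
      (PowerSeries.X ^ j * (PowerSeries.derivative ℂ)^[j] f))
    rw [h2] at h3
    rw [S_gt b (b + 1) (by omega)] at h3
    simp only [Nat.cast_zero, mul_zero, map_zero, zero_mul, add_zero] at h3
    rw [h3]

theorem th_iter' (f : ℂ⟦X⟧) (b N : ℕ) (h : b < N) :
    th^[b] f = ∑ j ∈ Finset.range N,
      PowerSeries.C (S b j) * (PowerSeries.X ^ j * (PowerSeries.derivative ℂ)^[j] f) := by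
  rw [th_iter]
  refine Finset.sum_subset (fun j hj => ?_) (fun j _ hj => ?_)
  · rw [Finset.mem_range] at hj ⊢
    omega
  · rw [Finset.mem_range, not_lt] at hj
    rw [S_gt b j (by omega), map_zero, zero_mul]

end IHd

open IHd in
theorem prHd : StHd := by
  rintro f ⟨v, p, hp, hrec⟩
  -- the operator equation
  have hop : ∑ s : Fin (v + 1), ∑ b : Fin (v + 1),
      PowerSeries.C (p s b) * (PowerSeries.X ^ (s : ℕ) * th^[(b : ℕ)] f) = 0 := by
    ext n
    rw [map_sum, map_zero, ← hrec n]
    refine Finset.sum_congr rfl fun s _ => ?_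
    rw [map_sum]
    refine Finset.sum_congr rfl fun b _ => ?_
    rw [PowerSeries.coeff_C_mul, PowerSeries.coeff_X_pow_mul']
    split_ifs with h
    · rw [coeff_th_iter, Nat.cast_sub h]
    · rfl
  -- the polynomial coefficients
  set q : Fin (v + 1) → ℂ[X] := fun j => ∑ s : Fin (v + 1), ∑ b : Fin (v + 1),
    Polynomial.C (p s b * S b j) * Polynomial.X ^ ((s : ℕ) + (j : ℕ)) with hq
  refine ⟨v, q, ?_, ?_⟩
  · -- some coefficient is not zero
    have hex : ∃ b : Fin (v + 1), ∃ s, p s b ≠ 0 := by
      by_contra hcon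
      push Not at hcon
      exact hp (funext fun s => funext fun b => hcon b s)
    classical
    have hne : (Finset.univ.filter fun b : Fin (v + 1) => ∃ s, p s b ≠ 0).Nonempty := by
      obtain ⟨b, hb⟩ := hex
      exact ⟨b, Finset.mem_filter.2 ⟨Finset.mem_univ _, hb⟩⟩
    obtain ⟨b0, hb0, hmax⟩ := Finset.exists_max_image _ (fun b : Fin (v + 1) => b) hne
    obtain ⟨s0, hs0⟩ := (Finset.mem_filter.1 hb0).2
    refine ⟨b0, fun h0 => hs0 ?_⟩
    have hc : (q b0).coeff ((s0 : ℕ) + (b0 : ℕ)) = p s0 b0 := by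
      simp only [hq, Polynomial.finsetSum_coeff, Polynomial.coeff_C_mul, Polynomial.coeff_X_pow]
      rw [Finset.sum_eq_single s0]
      · rw [Finset.sum_eq_single b0]
        · rw [S_self, if_pos rfl]
          ring
        · intro b _ hb
          rcases lt_or_gt_of_ne hb with h | h
          · rw [S_gt b b0 h]
            ring
          · have : p s0 b = 0 := by
              by_contra hne
              have h1 := hmax b (Finset.mem_filter.2 ⟨Finset.mem_univ _, ⟨s0, hne⟩⟩)
              exact absurd h1 (not_le.2 h)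
            rw [this]
            ring
        · intro h
          exact absurd (Finset.mem_univ _) h
      · intro s _ hs
        refine Finset.sum_eq_zero fun b _ => ?_
        rw [if_neg, mul_zero]
        intro h
        exact hs (Fin.ext (by omega))
      · intro h
        exact absurd (Finset.mem_univ _) h
    rw [h0, Polynomial.coeff_zero] at hc
    exact hc.symm
  · rw [← hop]
    have h1 : ∀ j : Fin (v + 1), ((q j : ℂ[X]) : ℂ⟦X⟧) * (PowerSeries.derivative ℂ)^[(j : ℕ)] f =
        ∑ s : Fin (v + 1), ∑ b : Fin (v + 1), PowerSeries.C (p s b) *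
          (PowerSeries.X ^ (s : ℕ) * (PowerSeries.C (S b j) *
            (PowerSeries.X ^ (j : ℕ) * (PowerSeries.derivative ℂ)^[(j : ℕ)] f))) := by
      intro j
      have h2 : ((q j : ℂ[X]) : ℂ⟦X⟧) = ∑ s : Fin (v + 1), ∑ b : Fin (v + 1),
          PowerSeries.C (p s b * S b j) * PowerSeries.X ^ ((s : ℕ) + (j : ℕ)) := by
        simp only [hq, ← Polynomial.coeToPowerSeries.ringHom_apply, map_sum, map_mul, map_pow]
        simp only [Polynomial.coeToPowerSeries.ringHom_apply, Polynomial.coe_C, Polynomial.coe_X,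
          map_mul]
      rw [h2, Finset.sum_mul]
      refine Finset.sum_congr rfl fun s _ => ?_
      rw [Finset.sum_mul]
      refine Finset.sum_congr rfl fun b _ => ?_
      rw [map_mul, pow_add]
      ring
    rw [Finset.sum_congr rfl fun j _ => h1 j, Finset.sum_comm]
    refine Finset.sum_congr rfl fun s _ => ?_
    rw [Finset.sum_comm]
    refine Finset.sum_congr rfl fun b _ => ?_
    rw [← Finset.mul_sum, ← Finset.mul_sum, th_iter' f b (v + 1) b.2, ← Fin.sum_univ_eq_sum_range
      (fun j => PowerSeries.C (S b j) * (PowerSeries.X ^ j * (PowerSeries.derivative ℂ)^[j] f))]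

end Pool.Agent.Work.MP_6da7fa_al.MB
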