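import Pool.Agent.Work.MP_6da7fa_al.MB.Stmts

set_option autoImplicit false

/-!
# Theorem MB, item Ord: the order on the types
-/

namespace Pool.Agent.Work.MP_6da7fa_al.MB

namespace IOrd

theorem wf_tlt (r p : ℕ) : WellFounded (@tlt r p) := by
  have h1 : WellFounded (Pi.Lex (fun i j : Fin r => i < j)
      (fun {i : Fin r} (a b : ℕ) => a < b) : (Fin r → ℕ) → (Fin r → ℕ) → Prop) :=
    Pi.Lex.wellFounded _ (fun _ => Nat.lt_wfRel.wf)
  have h2 : WellFounded (fun a b : Fin p => a < b) := wellFounded_lt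
  refine Subrelation.wf (r := Prod.Lex (Pi.Lex (fun i j : Fin r => i < j)
      (fun {i : Fin r} (a b : ℕ) => a < b)) (fun a b : Fin p => a < b)) ?_ (WellFounded.prod_lex h1 h2)
  rintro ⟨s1, s2⟩ ⟨t1, t2⟩ h
  rcases h with ⟨i, h3, h4⟩ | ⟨h3, h4⟩
  · exact Prod.Lex.left _ _ ⟨i, h4, h3⟩
  · have h5 : s1 = t1 := h3
    subst h5
    exact Prod.Lex.right _ h4

theorem tri {r p : ℕ} (s t : (Fin r → ℕ) × Fin p) : tlt s t ∨ s = t ∨ tlt t s := by
  by_cases h : s.1 = t.1
  · rcases lt_trichotomy s.2 t.2 with h2 | h2 | h2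
    · exact Or.inl (Or.inr ⟨h, h2⟩)
    · exact Or.inr (Or.inl (Prod.ext h h2))
    · exact Or.inr (Or.inr (Or.inr ⟨h.symm, h2⟩))
  · have hne : {i : Fin r | s.1 i ≠ t.1 i}.Nonempty := by
      by_contra hc
      rw [Set.not_nonempty_iff_eq_empty] at hc
      refine h (funext fun i => ?_)
      by_contra hi
      have : i ∈ ({i : Fin r | s.1 i ≠ t.1 i} : Set (Fin r)) := hi
      rw [hc] at this
      exact this
    obtain ⟨i, hi, hmin⟩ := WellFounded.has_min (wellFounded_lt : WellFounded (· < · : Fin r → Fin r → Prop))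
      _ hne
    have heq : ∀ j, j < i → s.1 j = t.1 j := by
      intro j hj
      by_contra hc
      exact hmin j hc hj
    have hi' : s.1 i ≠ t.1 i := hi
    rcases lt_or_gt_of_ne hi' with h2 | h2
    · exact Or.inl (Or.inl ⟨i, h2, heq⟩)
    · exact Or.inr (Or.inr (Or.inl ⟨i, h2, fun j hj => (heq j hj).symm⟩))

end IOrd

theorem prOrd : StOrd := by
  intro r p
  refine ⟨IOrd.wf_tlt r p, IOrd.tri, ?_⟩
  intro s t k h
  rcases h with ⟨i, h1, h2⟩ | ⟨h1, h2⟩
  · refine Or.inl ⟨i, ?_, fun j hj => ?_⟩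
    · show s.1 i + k i < t.1 i + k i
      omega
    · show s.1 j + k j = t.1 j + k j
      rw [h2 j hj]
  · exact Or.inr ⟨by show s.1 + k = t.1 + k; rw [h1], h2⟩

end Pool.Agent.Work.MP_6da7fa_al.MB
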