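import Pool.Agent.Work.MP_6da7fa_al.MB.Stmts

set_option autoImplicit false

/-!
# Theorem MB, item Piece
-/

namespace Pool.Agent.Work.MP_6da7fa_al.MB

open Equiv

open scoped Polynomial PowerSeries

namespace IPiece

theorem dfin_zero : DFinite (0 : ℂ⟦X⟧) := by
  refine ⟨0, fun _ => 1, ⟨0, one_ne_zero⟩, ?_⟩
  refine Finset.sum_eq_zero fun i _ => ?_
  have h : ∀ n : ℕ, (PowerSeries.derivative ℂ)^[n] (0 : ℂ⟦X⟧) = 0 := by
    intro n
    induction n with
    | zero => rfl
    | succ n ih => rw [Function.iterate_succ_apply', ih, map_zero]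
  rw [h, mul_zero]

theorem gs_zero {T : Type} (N : T → ℕ) : gs N (fun _ => (0 : ℂ)) = 0 := by
  unfold gs
  ext n
  rw [PowerSeries.coeff_mk]
  simp

/-- the multiplicities are additive -/
theorem uns_add {J : Type} [Fintype J] (d : J → ℕ) (k l : J → ℕ) :
    uns d (k + l) = uns d l + uns d k := by
  unfold uns
  rw [← Finset.sum_add_distrib]
  refine Finset.sum_congr rfl fun i _ => ?_
  rw [Pi.add_apply, add_comm, Multiset.replicate_add]

theorem pw_add {B : ℕ → Type} {J : Type} [Fintype J] {d : J → ℕ} {A : SetSeq B} (Q : MM d A)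
    (x : A.Sp Unit) (k l : J → ℕ) : Q.pw x (k + l) = Q.pw (Q.pw x k) l := by
  unfold MM.pw
  rw [uns_add, Q.prod_add]

/-- extension by zero -/
def ex {r : ℕ} (J : Finset (Fin r)) (m : J → ℕ) : Fin r → ℕ :=
  fun i => if h : i ∈ J then m ⟨i, h⟩ else 0

theorem ex_out {r : ℕ} {J : Finset (Fin r)} (m : J → ℕ) {i : Fin r} (h : i ∉ J) :
    ex J m i = 0 := dif_neg h

theorem ex_in {r : ℕ} {J : Finset (Fin r)} (m : J → ℕ) (i : J) : ex J m i = m i := by
  unfold ex
  rw [dif_pos i.2]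

theorem ex_add {r : ℕ} {J : Finset (Fin r)} (m m' : J → ℕ) :
    ex J (m + m') = ex J m + ex J m' := by
  funext i
  by_cases h : i ∈ J
  · simp [ex, h]
  · simp [ex, h]

theorem ex_inj {r : ℕ} {J : Finset (Fin r)} {m m' : J → ℕ} (h : ex J m = ex J m') : m = m' := by
  funext i
  rw [← ex_in m i, h, ex_in]

theorem mem_cone {r : ℕ} (k0 : Fin r → ℕ) (J : Finset (Fin r)) (m : J → ℕ) :
    k0 + ex J m ∈ cone k0 J := by
  refine ⟨fun i => Nat.le_add_right _ _, fun i hi => ?_⟩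
  rw [Pi.add_apply, ex_out m hi, add_zero]

theorem range_cone {r : ℕ} (k0 : Fin r → ℕ) (J : Finset (Fin r)) :
    Set.range (fun m : J → ℕ => k0 + ex J m) = cone k0 J := by
  ext k
  constructor
  · rintro ⟨m, rfl⟩
    exact mem_cone k0 J m
  · rintro ⟨h1, h2⟩
    refine ⟨fun i => k i - k0 i, ?_⟩
    funext i
    show k0 i + ex J (fun i => k i - k0 i) i = k i
    by_cases hi : i ∈ J
    · rw [show ex J (fun i => k i - k0 i) i = k i - k0 i from dif_pos hi]
      have := h1 i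
      omega
    · rw [ex_out _ hi, add_zero, h2 i hi]

theorem wt_add {J : Type} [Fintype J] (e : ℕ) (d m m' : J → ℕ) :
    wt (wt e d m) d m' = wt e d (m + m') := by
  unfold wt
  rw [add_assoc, ← Finset.sum_add_distrib]
  congr 1
  refine Finset.sum_congr rfl fun i _ => ?_
  rw [Pi.add_apply, mul_add]

end IPiece

open IPiece in
theorem prPiece : StPiece := by
  intro hOrd hUp hCnt hDec hGs hRes hPos hB4 hA hH hCone r p d B _ A Q y hgen j
  obtain ⟨a, ha⟩ : ∃ a : (Fin r → ℕ) → ℂ, a = (fun k => open Classical in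
    if (k, j) ∈ Mn Q y then (A.osz (Q.pw (y j) k) : ℂ) / (((Q.pw (y j) k).1).factorial : ℂ)
      else 0) := ⟨_, rfl⟩
  rw [← ha]
  have ha1 : ∀ k, (k, j) ∈ Mn Q y →
      a k = (A.osz (Q.pw (y j) k) : ℂ) / (((Q.pw (y j) k).1).factorial : ℂ) := by
    intro k hk
    rw [ha]
    exact if_pos hk
  have ha0 : ∀ k, (k, j) ∉ Mn Q y → a k = 0 := by
    intro k hk
    rw [ha]
    exact if_neg hk
  obtain ⟨N, hN⟩ : ∃ N : (Fin r → ℕ) → ℕ, N = fun k => (Q.pw (y j) k).1 := ⟨_, rfl⟩
  rw [← hN]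
  have hNk : ∀ k, N k = (Q.pw (y j) k).1 := fun k => by rw [hN]
  obtain ⟨U, hU⟩ : ∃ U : Set (Fin r → ℕ), U = {k | (k, j) ∉ Mn Q y} := ⟨_, rfl⟩
  have hUk : ∀ k, k ∈ U ↔ (k, j) ∉ Mn Q y := fun k => by rw [hU]; exact Iff.rfl
  have hfin : ∀ S : Set (Fin r → ℕ), FibFin N (S.indicator a) := by
    intro S n
    refine ((hCnt hOrd r p d B A Q y hgen).1 j n).subset ?_
    rintro k ⟨h1, h2⟩
    refine ⟨by rw [← hNk]; exact h1, ?_⟩
    by_contra h3
    apply h2
    by_cases hk : k ∈ S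
    · rw [Set.indicator_of_mem hk]
      exact ha0 k h3
    · exact Set.indicator_of_notMem hk a
  have hmain := hDec r U {S | DFinite (gs N (S.indicator a))} ?_ ?_ ?_ ?_
  · have e : Uᶜ.indicator a = a := by
      funext k
      by_cases hk : k ∈ U
      · rw [Set.indicator_of_notMem (by simpa using hk), ha0 k ((hUk k).1 hk)]
      · exact Set.indicator_of_mem hk a
    have h2 : DFinite (gs N (Uᶜ.indicator a)) := hmain
    rw [e] at h2
    exact h2
  · intro k l hk
    rw [hUk] at hk ⊢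
    exact hUp hOrd r p d B A Q y j k l hk
  · show DFinite (gs N ((∅ : Set (Fin r → ℕ)).indicator a))
    rw [Set.indicator_empty, gs_zero]
    exact dfin_zero
  · intro S hS T hT hd
    show DFinite (gs N ((S ∪ T).indicator a))
    have e : (S ∪ T).indicator a = fun k => S.indicator a k + T.indicator a k :=
      Set.indicator_union_of_disjoint hd a
    rw [e, hGs.1 _ N _ _ (hfin S) (hfin T)]
    exact hA _ _ hS hT
  · intro k0 J hJ
    have hMn : ∀ k ∈ cone k0 J, (k, j) ∈ Mn Q y := by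
      intro k hk
      by_contra h
      exact Set.disjoint_left.1 hJ hk ((hUk k).2 h)
    obtain ⟨x0, hx0⟩ : ∃ x0 : A.Sp Unit, x0 = Q.pw (y j) k0 := ⟨_, rfl⟩
    obtain ⟨Q', hQ'⟩ : ∃ Q' : MM (fun j : J => d (j : Fin r)) A,
      Q' = Q.comap (fun j : J => (j : Fin r)) := ⟨_, rfl⟩
    have hpw : ∀ m : J → ℕ, Q'.pw x0 m = Q.pw (y j) (k0 + ex J m) := by
      intro m
      rw [pw_add, ← hx0, hQ', hRes r d B A Q J x0 m]
      rfl
    have hm0 : ∀ m : J → ℕ, A.osz (Q'.pw x0 m) ≠ 0 := by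
      intro m
      rw [hpw]
      exact (hMn _ (mem_cone k0 J m)).1
    have hx0n : A.osz x0 ≠ 0 := by
      have h1 := (hMn k0 ⟨fun i => le_rfl, fun i _ => rfl⟩).1
      rw [hx0]
      exact h1
    obtain ⟨b, hb⟩ : ∃ b : B x0.1, A.pt b = x0 := by
      by_contra hcon
      apply hx0n
      have : IsEmpty {b : B x0.1 // A.pt b = x0} := ⟨fun b => hcon ⟨b.1, b.2⟩⟩
      exact Nat.card_of_isEmpty
    have hinj : Function.Injective (fun m : J → ℕ => Q'.pw x0 m) := by
      intro m m' h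
      have h1 : Q.pw (y j) (k0 + ex J m) = Q.pw (y j) (k0 + ex J m') := by
        rw [← hpw, ← hpw]
        exact h
      have e1 := (hMn _ (mem_cone k0 J m)).2
      have e2 := (hMn _ (mem_cone k0 J m')).2
      rcases (hOrd r p).2.1 (k0 + ex J m, j) (k0 + ex J m', j) with h2 | h2 | h2
      · exact absurd h1 (e2 _ h2)
      · have h3 := congrArg Prod.fst h2
        exact ex_inj (add_left_cancel h3)
      · exact absurd h1.symm (e1 _ h2)
    have hd := hPos hB4 J (fun j : J => d (j : Fin r)) B A Q' x0 hinj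
    have hwt : ∀ m : J → ℕ, (Q'.pw x0 m).1 = wt x0.1 (fun j : J => d (j : Fin r)) m :=
      fun m => (hB4 J (fun j : J => d (j : Fin r)) B A Q' x0.1 b m).2 x0
    obtain ⟨m0, P, hP⟩ := hCone J (fun j : J => d (j : Fin r)) B A Q' x0.1 b
      (fun m => by rw [hb]; exact hm0 m)
    rw [hb] at hP
    refine ⟨ex J m0, fun i hi => ex_out m0 hi, ?_⟩
    show DFinite (gs N ((cone (k0 + ex J m0) J).indicator a))
    have hres := hH J (fun j : J => d (j : Fin r)) (wt x0.1 (fun j : J => d (j : Fin r)) m0) P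
      (fun m => (A.osz (Q'.pw x0 (m0 + m)) : ℂ) /
        ((wt x0.1 (fun j : J => d (j : Fin r)) (m0 + m)).factorial : ℂ)) hd hP
    rw [← range_cone, hGs.2 _ _ N a (fun m : J → ℕ => k0 + ex J m0 + ex J m)
      (fun m m' h => ex_inj (add_left_cancel h))]
    have e1 : (fun t : J → ℕ => N (k0 + ex J m0 + ex J t)) =
        wt (wt x0.1 (fun j : J => d (j : Fin r)) m0) (fun j : J => d (j : Fin r)) := by
      funext t
      rw [hNk, wt_add, ← hwt, hpw, ex_add, add_assoc]
    have e2 : (fun t : J → ℕ => a (k0 + ex J m0 + ex J t)) =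
        fun m => (A.osz (Q'.pw x0 (m0 + m)) : ℂ) /
          ((wt x0.1 (fun j : J => d (j : Fin r)) (m0 + m)).factorial : ℂ) := by
      funext t
      have h3 : k0 + ex J m0 + ex J t = k0 + ex J (m0 + t) := by
        rw [ex_add, add_assoc]
      rw [h3, ha1 _ (hMn _ (mem_cone k0 J _)), ← hwt, hpw]
    rw [e1, e2]
    exact hres

end Pool.Agent.Work.MP_6da7fa_al.MB
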