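import Pool.Agent.Work.MP_6da7fa_al.MB.Stmts

set_option autoImplicit false

/-! Item Pos of block MB: the generators used in an injective family have positive degree. -/

namespace Pool.Agent.Work.MP_6da7fa_al.MB

open Equiv

namespace IPos

variable {ι : Type} {d : ι → ℕ} {B : ℕ → Type} {A : SetSeq B}

theorem prod_fst (Q : MM d A) {S : Type} (s : Multiset (LG d S)) (x : A.Sp S) :
    (Q.prod s x).1 = (s.map (fun β => d β.1)).sum + x.1 := by
  induction s using Multiset.induction with
  | empty => rw [Multiset.map_zero, Multiset.sum_zero, zero_add, Q.prod_zero]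
  | cons β s ih =>
    rw [Q.prod_cons, Multiset.map_cons, Multiset.sum_cons, add_assoc, ← ih]
    rfl

theorem uns_sum [Fintype ι] [DecidableEq ι] (i : ι) (t : ℕ) (hi : d i = 0) :
    ((uns d (Pi.single i t)).map (fun β => d β.1)).sum = 0 := by
  refine Multiset.sum_eq_zero ?_
  intro n hn
  obtain ⟨β, hβ, rfl⟩ := Multiset.mem_map.mp hn
  unfold uns at hβ
  obtain ⟨j, -, hj⟩ := Multiset.mem_sum.mp hβ
  obtain ⟨h1, h2⟩ := Multiset.mem_replicate.mp hj
  have h3 : j = i := by
    by_contra h4
    refine h1 ?_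
    rw [Pi.single_apply, if_neg h4]
  rw [h2, h3]
  exact hi

theorem ex_cls (z : A.Sp Unit) : ∀ N : ℕ, z.1 = N →
    ∃ u : Option (B N), A.cls N u (fun _ => ()) = z := by
  refine SetSeq.Sp.ind (p := fun z => ∀ N : ℕ, z.1 = N →
    ∃ u : Option (B N), A.cls N u (fun _ => ()) = z) ?_ z
  intro M u ℓ N h
  have h' : M = N := h
  subst h'
  exact ⟨u, rfl⟩

end IPos

open IPos in
/-- **Pos** -/
theorem prPos : StPos := by
  intro _ J _ _ d B _ A Q x hinj i
  by_contra hi
  have hi0 : d i = 0 := by omega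
  have h1 : Function.Injective (fun t : ℕ => Q.pw x (Pi.single i t)) :=
    hinj.comp (Pi.single_injective i)
  have h2 := Set.infinite_range_of_injective h1
  have h3 : (Set.range (fun u : Option (B x.1) => A.cls x.1 u (fun _ => ()))).Finite :=
    Set.finite_range _
  refine h2 (h3.subset ?_)
  rintro z ⟨t, rfl⟩
  have h4 : (Q.pw x (Pi.single i t)).1 = x.1 := by
    unfold MM.pw
    rw [prod_fst, uns_sum i t hi0, zero_add]
  obtain ⟨u, hu⟩ := ex_cls (Q.pw x (Pi.single i t)) x.1 h4
  exact ⟨u, hu⟩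

end Pool.Agent.Work.MP_6da7fa_al.MB
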