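import Pool.Agent.Work.MP_6da7fa_al.MB.Stmts

set_option autoImplicit false

/-! Item Res of block MB (helper22): restriction to a subset of the generators. -/

namespace Pool.Agent.Work.MP_6da7fa_al.MB

open Equiv

namespace IRes

/-- change of the index of a labelled generator -/
def emb {ι J S : Type} {d : ι → ℕ} (f : J → ι) (β : LG (fun j => d (f j)) S) : LG d S :=
  ⟨f β.1, β.2⟩

theorem comap_prod {B : ℕ → Type} {ι J : Type} {d : ι → ℕ} {A : SetSeq B} (Q : MM d A) (f : J → ι)
    {S : Type} (s : Multiset (LG (fun j => d (f j)) S)) (x : A.Sp S) :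
    (Q.comap f).prod s x = Q.prod (s.map (emb f)) x := by
  induction s using Multiset.induction with
  | empty => rfl
  | cons β s ih =>
    rw [MM.prod_cons, ih, Multiset.map_cons, MM.prod_cons]
    rfl

theorem uns_ext (r : ℕ) (d : Fin r → ℕ) (J : Finset (Fin r)) (m : J → ℕ) :
    uns d (fun i => if h : i ∈ J then m ⟨i, h⟩ else 0) =
      (uns (fun j : J => d (j : Fin r)) m).map (emb (fun j : J => (j : Fin r))) := by
  unfold uns
  have h1 : (∑ i : J, Multiset.replicate (m i)
      (⟨i, fun _ => ()⟩ : LG (fun j : J => d (j : Fin r)) Unit)).map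
        (emb (d := d) (fun j : J => (j : Fin r))) =
      ∑ i : J, (Multiset.replicate (m i)
        (⟨i, fun _ => ()⟩ : LG (fun j : J => d (j : Fin r)) Unit)).map
        (emb (d := d) (fun j : J => (j : Fin r))) :=
    map_sum (Multiset.mapAddMonoidHom (emb (d := d) (fun j : J => (j : Fin r)))) _ _
  rw [h1]
  rw [← Finset.sum_subset (Finset.subset_univ J)]
  · rw [← Finset.sum_coe_sort J]
    refine Finset.sum_congr rfl fun i _ => ?_
    beta_reduce
    rw [dif_pos i.2, Multiset.map_replicate]
    rfl
  · intro i _ hi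
    beta_reduce
    rw [dif_neg hi, Multiset.replicate_zero]

end IRes

/-- **item Res** -/
theorem prRes : StRes := by
  intro r d B A Q J x m
  unfold MM.pw
  rw [IRes.comap_prod, IRes.uns_ext]

end Pool.Agent.Work.MP_6da7fa_al.MB
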