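import Pool.Agent.Work.MP_6da7fa_al.MB.Stmts

set_option autoImplicit false

/-!
# Theorem MB, item T1: from a monomial basis to the combinatorial data
-/

namespace Pool.Agent.Work.MP_6da7fa_al.MB

open Equiv

namespace IT1

section
variable {M : ℕ → Type} [∀ n, AddCommGroup (M n)] [∀ n, Module ℂ (M n)] {β : ℕ → Type}
  (b : ∀ n, Module.Basis (β n) ℂ (M n))

theorem uniq {m : ℕ} {v : M m} {j j' : β m} {c c' : ℂ} (hc : c ≠ 0) (h : v = c • b m j)
    (h' : v = c' • b m j') : j = j' := by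
  classical
  by_contra hne
  have h1 : (b m).repr v j = c := by
    rw [h, map_smul, Module.Basis.repr_self]
    simp
  have h2 : (b m).repr v j = 0 := by
    rw [h', map_smul, Module.Basis.repr_self]
    simp [Ne.symm hne]
  exact hc (h1.symm.trans h2)

open Classical in
/-- the index of the basis vector proportional to `v` -/
noncomputable def code {m : ℕ} (v : M m) : Option (β m) :=
  if h : ∃ j : β m, ∃ c : ℂ, c ≠ 0 ∧ v = c • b m j then some h.choose else none

theorem code_some_iff {m : ℕ} (v : M m) (j : β m) :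
    code b v = some j ↔ ∃ c : ℂ, c ≠ 0 ∧ v = c • b m j := by
  unfold code
  by_cases h : ∃ j : β m, ∃ c : ℂ, c ≠ 0 ∧ v = c • b m j
  · rw [dif_pos h, Option.some.injEq]
    obtain ⟨c, hc, hv⟩ := h.choose_spec
    constructor
    · intro h1
      subst h1
      exact ⟨c, hc, hv⟩
    · rintro ⟨c', -, hv'⟩
      exact uniq b hc hv hv'
  · rw [dif_neg h]
    constructor
    · intro h1
      exact absurd h1 (by simp)
    · intro h1
      exact absurd ⟨j, h1⟩ h

theorem code_of_eq {m : ℕ} {v : M m} {j : β m} {c : ℂ} (hc : c ≠ 0) (h : v = c • b m j) :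
    code b v = some j := (code_some_iff b v j).2 ⟨c, hc, h⟩

theorem code_zero {m : ℕ} : code b (0 : M m) = none := by
  rw [Option.eq_none_iff_forall_ne_some]
  intro j hj
  obtain ⟨c, hc, h⟩ := (code_some_iff b _ j).1 hj
  rcases smul_eq_zero.1 h.symm with h1 | h1
  · exact hc h1
  · exact (b m).ne_zero j h1

theorem code_smul {m : ℕ} (v : M m) {c : ℂ} (hc : c ≠ 0) : code b (c • v) = code b v := by
  apply Option.ext
  intro j
  rw [code_some_iff, code_some_iff]
  constructor
  · rintro ⟨c', hc', h⟩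
    refine ⟨c⁻¹ * c', mul_ne_zero (inv_ne_zero hc) hc', ?_⟩
    rw [mul_smul, ← h, smul_smul, inv_mul_cancel₀ hc, one_smul]
  · rintro ⟨c', hc', h⟩
    refine ⟨c * c', mul_ne_zero hc hc', ?_⟩
    rw [h, smul_smul]

/-- `v` is zero or proportional to a basis vector -/
def Mono {m : ℕ} (v : M m) : Prop := v = 0 ∨ ∃ (j : β m) (c : ℂ), v = c • b m j

theorem mono_cases {m : ℕ} {v : M m} (h : Mono b v) :
    v = 0 ∨ ∃ (j : β m) (c : ℂ), c ≠ 0 ∧ v = c • b m j := by
  rcases h with h | ⟨j, c, h⟩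
  · exact Or.inl h
  · by_cases hc : c = 0
    · left
      rw [h, hc, zero_smul]
    · exact Or.inr ⟨j, c, hc, h⟩

theorem eq_zero_of_none {m : ℕ} {v : M m} (h : Mono b v) (hn : code b v = none) : v = 0 := by
  rcases mono_cases b h with h1 | ⟨j, c, hc, h1⟩
  · exact h1
  · rw [code_of_eq b hc h1] at hn
    exact absurd hn (by simp)

theorem act_zero (s : SymSeq M) (n : ℕ) (σ : Perm (Fin n)) : s.act n σ 0 = 0 := by
  have h := s.act_smul n σ 0 0
  rw [zero_smul, zero_smul] at h
  exact h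

theorem act_ne_zero (s : SymSeq M) (n : ℕ) (σ : Perm (Fin n)) {v : M n} (hv : v ≠ 0) :
    s.act n σ v ≠ 0 := by
  intro h
  apply hv
  have h1 : s.act n (σ⁻¹ * σ) v = s.act n σ⁻¹ (s.act n σ v) := s.act_mul n σ⁻¹ σ v
  rw [h, act_zero, inv_mul_cancel, s.act_one] at h1
  exact h1

end

section
variable {A : ℕ → Type} [∀ n, AddCommGroup (A n)] [∀ n, Module ℂ (A n)] {R : TCA A}
  {M : ℕ → Type} [∀ n, AddCommGroup (M n)] [∀ n, Module ℂ (M n)] (S : TCAModule R M)
  {β : ℕ → Type} (b : ∀ n, Module.Basis (β n) ℂ (M n))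

theorem app_zero {i j k : ℕ} (h : i + j = k) (a : A i) : S.smul.app h a 0 = 0 := by
  have h1 := S.smul.smul_right h 0 a 0
  rw [zero_smul, zero_smul] at h1
  exact h1

/-- the permutation of the basis vectors up to scalars -/
noncomputable def tact (hb : ∀ (n : ℕ) (σ : Perm (Fin n)) (i : β n), ∃ (j : β n) (c : ℂ),
    c ≠ 0 ∧ S.seq.act n σ (b n i) = c • b n j) (n : ℕ) (σ : Perm (Fin n)) (i : β n) : β n :=
  (hb n σ i).choose

theorem tact_spec (hb : ∀ (n : ℕ) (σ : Perm (Fin n)) (i : β n), ∃ (j : β n) (c : ℂ),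
    c ≠ 0 ∧ S.seq.act n σ (b n i) = c • b n j) (n : ℕ) (σ : Perm (Fin n)) (i : β n) :
    ∃ c : ℂ, c ≠ 0 ∧ S.seq.act n σ (b n i) = c • b n (tact S b hb n σ i) :=
  (hb n σ i).choose_spec

/-- the sequence of sets -/
noncomputable def TT (hb : ∀ (n : ℕ) (σ : Perm (Fin n)) (i : β n), ∃ (j : β n) (c : ℂ),
    c ≠ 0 ∧ S.seq.act n σ (b n i) = c • b n j) : SetSeq β where
  act := tact S b hb
  act_one := by
    intro n i
    obtain ⟨c, hc, h⟩ := tact_spec S b hb n 1 i
    rw [S.seq.act_one] at h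
    exact (uniq b (one_ne_zero) (one_smul ℂ (b n i)).symm h).symm
  act_mul := by
    intro n σ τ i
    obtain ⟨c1, hc1, h1⟩ := tact_spec S b hb n (σ * τ) i
    obtain ⟨c2, hc2, h2⟩ := tact_spec S b hb n τ i
    obtain ⟨c3, hc3, h3⟩ := tact_spec S b hb n σ (tact S b hb n τ i)
    rw [S.seq.act_mul, h2, S.seq.act_smul, h3, smul_smul] at h1
    exact (uniq b (mul_ne_zero hc2 hc3) rfl h1).symm

theorem code_act (hb : ∀ (n : ℕ) (σ : Perm (Fin n)) (i : β n), ∃ (j : β n) (c : ℂ),
    c ≠ 0 ∧ S.seq.act n σ (b n i) = c • b n j) {n : ℕ} (σ : Perm (Fin n)) {v : M n}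
    (hv : Mono b v) :
    code b (S.seq.act n σ v) = (code b v).map ((TT S b hb).act n σ) := by
  rcases mono_cases b hv with h1 | ⟨j, c, hc, h1⟩
  · rw [h1, act_zero, code_zero]
    rfl
  · rw [code_of_eq b hc h1, h1, S.seq.act_smul, code_smul b _ hc]
    obtain ⟨c1, hc1, h2⟩ := tact_spec S b hb n σ j
    exact code_of_eq b hc1 h2

variable {r : ℕ} {d : Fin r → ℕ} (x : ∀ i, A (d i))

theorem mono_app (hx : ∀ (i : Fin r) {n m : ℕ} (h : d i + n = m) (j : β n),
      Mono b (S.smul.app h (x i) (b n j))) (i : Fin r) {n m : ℕ} (h : d i + n = m) {v : M n}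
    (hv : Mono b v) : Mono b (S.smul.app h (x i) v) := by
  rcases hv with h1 | ⟨j, c, h1⟩
  · left
    rw [h1, app_zero]
  · rw [h1, S.smul.smul_right]
    rcases hx i h j with h2 | ⟨j', c', h2⟩
    · left
      rw [h2, smul_zero]
    · right
      exact ⟨j', c * c', by rw [h2, smul_smul]⟩

theorem code_app (i : Fin r) {n m : ℕ} (h : d i + n = m) {v : M n} (hv : Mono b v) :
    code b (S.smul.app h (x i) v) =
      (code b v).bind (fun j => code b (S.smul.app h (x i) (b n j))) := by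
  rcases mono_cases b hv with h1 | ⟨j, c, hc, h1⟩
  · rw [h1, app_zero, code_zero, code_zero]
    rfl
  · rw [code_of_eq b hc h1, h1, S.smul.smul_right, code_smul b _ hc]
    rfl

end

end IT1

open IT1 in
theorem prT1 : StT1 := by
  intro A _ _ R M _ _ S r d x β b hMB
  obtain ⟨hb0, hx0⟩ := hMB
  have hb : ∀ (n : ℕ) (σ : Perm (Fin n)) (i : β n), ∃ (j : β n) (c : ℂ),
      c ≠ 0 ∧ S.seq.act n σ (b n i) = c • b n j := by
    intro n σ i
    obtain ⟨j, c, h⟩ := hb0 n σ i
    refine ⟨j, c, ?_, h⟩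
    intro hc
    rw [hc, zero_smul] at h
    exact act_ne_zero S.seq n σ ((b n).ne_zero i) h
  have hx : ∀ (i : Fin r) {n m : ℕ} (h : d i + n = m) (j : β n),
      Mono b (S.smul.app h (x i) (b n j)) := fun i _ _ h j => hx0 i h j
  have hbm : ∀ (n : ℕ) (j : β n), Mono b (b n j) := fun n j => Or.inr ⟨j, 1, (one_smul _ _).symm⟩
  have hcb : ∀ (n : ℕ) (j : β n), code b (b n j) = some j := fun n j =>
    code_of_eq b one_ne_zero (one_smul ℂ (b n j)).symm
  refine ⟨TT S b hb, ⟨fun i {n m} h j => code b (S.smul.app h (x i) (b n j)), ?_, ?_⟩, ?_, ?_⟩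
  · -- equivariance
    intro i n m h σ j
    show code b (S.smul.app h (x i) (b n (tact S b hb n σ j))) =
      (code b (S.smul.app h (x i) (b n j))).map ((TT S b hb).act m (blockSum h 1 σ))
    obtain ⟨c, hc, h1⟩ := tact_spec S b hb n σ j
    have h2 := S.smul.equivariant h 1 σ (x i) (b n j)
    rw [R.seq.act_one, h1, S.smul.smul_right] at h2
    rw [← code_act S b hb _ (hx i h j), ← h2, code_smul b _ hc]
  · -- commutativity
    intro i j n p q m h1 h2 h3 h4 h5 k
    have e1 : code b (S.smul.app h2 (x i) (S.smul.app h1 (x j) (b n k))) =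
        (code b (S.smul.app h1 (x j) (b n k))).bind
          (fun l => code b (S.smul.app h2 (x i) (b p l))) := code_app S b x i h2 (hx j h1 k)
    have e2 : code b (S.smul.app h4 (x j) (S.smul.app h3 (x i) (b n k))) =
        (code b (S.smul.app h3 (x i) (b n k))).bind
          (fun l => code b (S.smul.app h4 (x j) (b q l))) := code_app S b x j h4 (hx i h3 k)
    show (code b (S.smul.app h1 (x j) (b n k))).bind
          (fun l => code b (S.smul.app h2 (x i) (b p l))) =
        ((code b (S.smul.app h3 (x i) (b n k))).bind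
          (fun l => code b (S.smul.app h4 (x j) (b q l)))).map _
    rw [← e1, ← e2, ← code_act S b hb _ (mono_app S b x hx j h4 (hx i h3 k))]
    congr 1
    have h' : d j + d i = d i + d j := Nat.add_comm _ _
    rw [← S.mul_smul (rfl : d i + d j = d i + d j) h5 h1 h2 (x i) (x j) (b n k),
      ← S.mul_smul h' h5 h3 h4 (x j) (x i) (b n k),
      R.comm (rfl : d i + d j = d i + d j) h' (x i) (x j)]
    have h6 := S.smul.equivariant h5 (blockSwap (rfl : d i + d j = d i + d j)) 1
      (R.mul.app h' (x j) (x i)) (b n k)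
    rw [S.seq.act_one] at h6
    exact h6
  · intro n σ i
    exact tact_spec S b hb n σ i
  · intro i n m h j
    refine ⟨fun h1 => eq_zero_of_none b (hx i h j) h1, fun j' h1 => ?_⟩
    exact (code_some_iff b _ j').1 h1

end Pool.Agent.Work.MP_6da7fa_al.MB
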