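import Pool.Agent.Work.MP_6da7fa_al.MB.Stmts

set_option autoImplicit false

/-!
# Theorem MB, item T2: generation
-/

namespace Pool.Agent.Work.MP_6da7fa_al.MB

open Equiv

namespace IT2

theorem uns_add {r : ℕ} (d : Fin r → ℕ) (k : Fin r → ℕ) (l : Fin r) :
    uns d (k + Pi.single l 1) = (⟨l, fun _ => ()⟩ : LG d Unit) ::ₘ uns d k := by
  unfold uns
  have h1 : ∀ i : Fin r, Multiset.replicate ((k + (Pi.single l 1 : Fin r → ℕ)) i)
      (⟨i, fun _ => ()⟩ : LG d Unit) = Multiset.replicate (k i) (⟨i, fun _ => ()⟩ : LG d Unit) +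
        Multiset.replicate ((Pi.single l 1 : Fin r → ℕ) i) (⟨i, fun _ => ()⟩ : LG d Unit) := by
    intro i
    rw [Pi.add_apply, Multiset.replicate_add]
  rw [Finset.sum_congr rfl (fun i _ => h1 i), Finset.sum_add_distrib]
  have h2 : ∑ i, Multiset.replicate ((Pi.single l 1 : Fin r → ℕ) i)
      (⟨i, fun _ => ()⟩ : LG d Unit) = {(⟨l, fun _ => ()⟩ : LG d Unit)} := by
    rw [Finset.sum_eq_single l]
    · rw [Pi.single_eq_same]
      rfl
    · intro i _ hi
      rw [Pi.single_eq_of_ne hi]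
      rfl
    · intro h
      exact absurd (Finset.mem_univ l) h
  rw [h2, ← Multiset.singleton_add, add_comm]

theorem uns_zero {r : ℕ} (d : Fin r → ℕ) : uns d (0 : Fin r → ℕ) = 0 := by
  unfold uns
  exact Finset.sum_eq_zero fun i _ => rfl

section
variable {β : ℕ → Type} {r : ℕ} {d : Fin r → ℕ} {T : SetSeq β} (Q : MM d T) {p : ℕ}
  (y : Fin p → T.Sp Unit)

/-- the good basis vectors -/
def G (n : ℕ) : Set (β n) := {i | ∃ (j : Fin p) (k : Fin r → ℕ), Q.pw (y j) k = T.pt i}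

theorem G_act (n : ℕ) (σ : Perm (Fin n)) (i : β n) (hi : i ∈ G Q y n) :
    T.act n σ i ∈ G Q y n := by
  obtain ⟨j, k, h⟩ := hi
  refine ⟨j, k, ?_⟩
  rw [h]
  exact SetSeq.cls_eq.mpr ⟨σ, rfl, rfl⟩

theorem G_op (l : Fin r) {n m : ℕ} (h : d l + n = m) (i : β n) (i' : β m)
    (hg : Q.g l h i = some i') (hi : i ∈ G Q y n) : i' ∈ G Q y m := by
  obtain ⟨j, k, hk⟩ := hi
  refine ⟨j, k + Pi.single l 1, ?_⟩
  have h1 : Q.pw (y j) (k + Pi.single l 1) = Q.op l (fun _ => ()) (Q.pw (y j) k) := by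
    unfold MM.pw
    rw [uns_add, Q.prod_cons]
  rw [h1, hk]
  unfold SetSeq.pt
  rw [Q.op_cls l (fun _ => ()) h, Option.bind_some, hg]

end

section
variable {A : ℕ → Type} [∀ n, AddCommGroup (A n)] [∀ n, Module ℂ (A n)] {R : TCA A}
  {M : ℕ → Type} [∀ n, AddCommGroup (M n)] [∀ n, Module ℂ (M n)] (S : TCAModule R M)
  {r : ℕ} {d : Fin r → ℕ} (x : ∀ i, A (d i)) {β : ℕ → Type}
  (b : ∀ n, Module.Basis (β n) ℂ (M n)) {T : SetSeq β} (Q : MM d T) {p : ℕ}
  (y : Fin p → T.Sp Unit)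

/-- the span of the good basis vectors -/
def Nc (n : ℕ) : Submodule ℂ (M n) := Submodule.span ℂ (b n '' G Q y n)

theorem Nc_act (hF : Fits S x b T Q) (n : ℕ) (σ : Perm (Fin n)) :
    ∀ v ∈ Nc b Q y n, S.seq.act n σ v ∈ Nc b Q y n := by
  have h : Nc b Q y n ≤ (Nc b Q y n).comap (S.seq.actL n σ) := by
    unfold Nc
    rw [Submodule.span_le]
    rintro _ ⟨i, hi, rfl⟩
    show S.seq.act n σ (b n i) ∈ Submodule.span ℂ (b n '' G Q y n)
    obtain ⟨c, _, hc⟩ := hF.1 n σ i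
    rw [hc]
    exact Submodule.smul_mem _ _ (Submodule.subset_span ⟨_, G_act Q y n σ i hi, rfl⟩)
  exact fun v hv => h hv

theorem Nc_x (hF : Fits S x b T Q) (l : Fin r) {n m : ℕ} (h : d l + n = m) :
    ∀ v ∈ Nc b Q y n, S.smul.app h (x l) v ∈ Nc b Q y m := by
  have h' : Nc b Q y n ≤ (Nc b Q y m).comap (S.smulL h (x l)) := by
    unfold Nc
    rw [Submodule.span_le]
    rintro _ ⟨i, hi, rfl⟩
    show S.smul.app h (x l) (b n i) ∈ Submodule.span ℂ (b m '' G Q y m)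
    cases hg : Q.g l h i with
    | none =>
      rw [(hF.2 l h i).1 hg]
      exact Submodule.zero_mem _
    | some i' =>
      obtain ⟨c, _, hc⟩ := (hF.2 l h i).2 i' hg
      rw [hc]
      exact Submodule.smul_mem _ _ (Submodule.subset_span ⟨_, G_op Q y l h i i' hg hi, rfl⟩)
  exact fun v hv => h' hv

/-- the elements of the algebra which preserve `Nc` -/
def Cc (l : ℕ) : Submodule ℂ (A l) where
  carrier := {a | ∀ {j k : ℕ} (h : l + j = k), ∀ v ∈ Nc b Q y j, S.smul.app h a v ∈ Nc b Q y k}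
  add_mem' := by
    intro a a' ha ha' j k h v hv
    rw [S.smul.add_left]
    exact Submodule.add_mem _ (ha h v hv) (ha' h v hv)
  zero_mem' := by
    intro j k h v _
    have h1 := S.smul.smul_left h 0 (0 : A l) v
    rw [zero_smul, zero_smul] at h1
    rw [h1]
    exact Submodule.zero_mem _
  smul_mem' := by
    intro c a ha j k h v hv
    rw [S.smul.smul_left]
    exact Submodule.smul_mem _ _ (ha h v hv)

theorem Cc_top (hG : GenBy R x) (hF : Fits S x b T Q) : ∀ n, Cc S b Q y n = ⊤ := by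
  refine hG (Cc S b Q y) ?_ ?_ ?_ ?_
  · intro l j k h v hv
    exact Nc_x S x b Q y hF l h v hv
  · intro j k h v hv
    have hk : k = j := by omega
    subst hk
    rw [S.one_smul h v]
    exact hv
  · intro l σ a ha j k h v hv
    have h1 := S.smul.equivariant h σ 1 a v
    rw [S.seq.act_one] at h1
    rw [h1]
    exact Nc_act S x b Q y hF k _ _ (ha h v hv)
  · intro i j k h a ha a' ha' m n h' v hv
    rw [S.mul_smul h h' (rfl : j + m = j + m) (by omega : i + (j + m) = n) a a' v]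
    exact ha _ _ (ha' _ _ hv)

/-- the submodule spanned by the good basis vectors -/
def Ns (hG : GenBy R x) (hF : Fits S x b T Q) : SubMod S where
  carrier := Nc b Q y
  act_mem := Nc_act S x b Q y hF
  smul_mem := by
    intro i j k h a v hv
    have h1 : a ∈ Cc S b Q y i := by
      rw [Cc_top S x b Q y hG hF]
      trivial
    exact h1 h v hv

end

end IT2

theorem prT2 : StT2 := by
  classical
  intro A _ _ R M _ _ S r d x β b T Q hG hFG hF
  obtain ⟨s, hs⟩ := hFG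
  obtain ⟨Y, hY⟩ : ∃ Y : Finset (Σ n, β n), ∀ z ∈ s, ∀ i ∈ ((b z.1).repr z.2).support,
      (⟨z.1, i⟩ : Σ n, β n) ∈ Y := by
    refine ⟨s.biUnion fun z => ((b z.1).repr z.2).support.image fun i => ⟨z.1, i⟩, ?_⟩
    intro z hz i hi
    rw [Finset.mem_biUnion]
    exact ⟨z, hz, Finset.mem_image_of_mem _ hi⟩
  have hmain : ∃ y : Fin Y.card → T.Sp Unit, ∀ z : Σ n, β n, z ∈ Y → ∃ j, y j = T.pt z.2 := by
    refine ⟨fun j => T.pt (Y.equivFin.symm j).1.2, fun z hz => ⟨Y.equivFin ⟨z, hz⟩, ?_⟩⟩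
    show T.pt (Y.equivFin.symm (Y.equivFin ⟨z, hz⟩)).1.2 = T.pt z.2
    rw [Equiv.symm_apply_apply]
  obtain ⟨y, hy⟩ := hmain
  refine ⟨Y.card, y, ?_⟩
  intro n i
  have htop := hs (IT2.Ns S x b Q y hG hF) (by
    intro z hz
    show z.2 ∈ Submodule.span ℂ (b z.1 '' IT2.G Q y z.1)
    rw [Module.Basis.mem_span_image]
    intro i hi
    obtain ⟨j, hj⟩ := hy ⟨z.1, i⟩ (hY z hz i hi)
    refine ⟨j, 0, ?_⟩
    unfold MM.pw
    rw [IT2.uns_zero, Q.prod_zero]
    exact hj) n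
  have h1 : b n i ∈ Submodule.span ℂ (b n '' IT2.G Q y n) := by
    show b n i ∈ (IT2.Ns S x b Q y hG hF).carrier n
    rw [htop]
    trivial
  rw [Module.Basis.mem_span_image, Module.Basis.repr_self,
    Finsupp.support_single_ne_zero i one_ne_zero] at h1
  exact h1 (Finset.mem_coe.2 (Finset.mem_singleton_self i))

end Pool.Agent.Work.MP_6da7fa_al.MB
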