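import Pool.Agent.Work.MP_6da7fa_al.MB.Stmts
import Pool.Agent.Work.MP_6da7fa_al.MB.I_A1
import Pool.Agent.Work.MP_6da7fa_al.MB.I_A2
import Pool.Agent.Work.MP_6da7fa_al.MB.I_Ha
import Pool.Agent.Work.MP_6da7fa_al.MB.I_Hb
import Pool.Agent.Work.MP_6da7fa_al.MB.I_Hc
import Pool.Agent.Work.MP_6da7fa_al.MB.I_Hd
import Pool.Agent.Work.MP_6da7fa_al.MB.I_H
import Pool.Agent.Work.MP_6da7fa_al.MB.I_G1a
import Pool.Agent.Work.MP_6da7fa_al.MB.I_G1b
import Pool.Agent.Work.MP_6da7fa_al.MB.I_G1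
import Pool.Agent.Work.MP_6da7fa_al.MB.I_Go
import Pool.Agent.Work.MP_6da7fa_al.MB.I_G2
import Pool.Agent.Work.MP_6da7fa_al.MB.I_G3
import Pool.Agent.Work.MP_6da7fa_al.MB.I_G4
import Pool.Agent.Work.MP_6da7fa_al.MB.I_B1
import Pool.Agent.Work.MP_6da7fa_al.MB.I_B2
import Pool.Agent.Work.MP_6da7fa_al.MB.I_B3
import Pool.Agent.Work.MP_6da7fa_al.MB.I_B4
import Pool.Agent.Work.MP_6da7fa_al.MB.I_Cone
import Pool.Agent.Work.MP_6da7fa_al.MB.I_Ord
import Pool.Agent.Work.MP_6da7fa_al.MB.I_Up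
import Pool.Agent.Work.MP_6da7fa_al.MB.I_Cnt
import Pool.Agent.Work.MP_6da7fa_al.MB.I_Dec
import Pool.Agent.Work.MP_6da7fa_al.MB.I_Gs
import Pool.Agent.Work.MP_6da7fa_al.MB.I_Res
import Pool.Agent.Work.MP_6da7fa_al.MB.I_Pos
import Pool.Agent.Work.MP_6da7fa_al.MB.I_Piece
import Pool.Agent.Work.MP_6da7fa_al.MB.I_C
import Pool.Agent.Work.MP_6da7fa_al.MB.I_T1
import Pool.Agent.Work.MP_6da7fa_al.MB.I_T2
import Pool.Agent.Work.MP_6da7fa_al.MB.I_Fin

set_option autoImplicit false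

/-! Theorem MB: assembly. -/

namespace Pool.Agent.Work.MP_6da7fa_al.MB

theorem conA : ConA := prA2 prA1
theorem conH : ConH := prH prHa prHb prHc prHd
theorem conG1 : ConG1 := prG1 prG1a prG1b
theorem conG2 : ConG2 := prG2 prGo
theorem conG : ConG := prG4 conG1 prGo conG2 prG3
theorem conCone : ConCone := prCone prB1 prB2 prB3 prB4 conG
theorem conC : ConC := prC prOrd prCnt conA
  (prPiece prOrd prUp prCnt prDec prGs prRes prPos prB4 conA conH conCone)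
theorem conFin : ConFin := prFin prT1 prT2 conC

end Pool.Agent.Work.MP_6da7fa_al.MB
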