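import Pool.Agent.Work.MP_6da7fa_al.MB.Defs2

set_option autoImplicit false

/-!
# Theorem MB: statements

Modules with a monomial basis over twisted commutative algebras have D-finite Hilbert series.
Every docstring is the complete proof.  Item `Foo`: `def StFoo`, file `MB/I_Foo.lean`, theorem
`prFoo : StFoo`.  All items are independent (the earlier statements are hypotheses).
-/

namespace Pool.Agent.Work.MP_6da7fa_al.MB

open Equiv

open scoped Polynomial PowerSeries

/-! ## Part A: D-finite series -/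

/-- [A1] EASY-MEDIUM. The derivatives of a D-finite series, up to denominators, lie in a finitely
generated module.
PROOF. Let `∑_{i ≤ r} p_i D^i f = 0`, not all `p_i` zero; let `r'` be the largest index with
`p_{r'} ≠ 0`; put `P = p_{r'}`, so `P D^{r'} f = - ∑_{i < r'} p_i D^i f` (take this `r'` as the `r` of the
statement).  Induction on `k`: for `k < r'` take `N = 0` and `c = Pi.single k 1`.  Let
`P^N D^k f = ∑_{j < r'} c_j D^j f`, `k ≥ r' - 1`; differentiate: `P^N D^{k+1} f + N P^{N-1} P' D^k f =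
∑ c_j' D^j f + ∑ c_j D^{j+1} f`.  Multiply by `P ^ (N + 1)` (so that the second term on the left is a
polynomial times `P ^ N D^k f`, for `N = 0` it is absent) and replace `P D^{r'} f` in the term `j = r' - 1`:
the result is `P^{2N+1} D^{k+1} f = ∑_{j < r'} c'_j D^j f`.  (If `r' = 0` then `P f = 0`, `f = 0`.)
`PowerSeries.derivative` is a derivation; `Polynomial.derivative` corresponds to it under the coercion
(`PowerSeries.derivative_coe`). -/
def StA1 : Prop := ∀ f : ℂ⟦X⟧, DFinite f → ∃ (r : ℕ) (P : ℂ[X]), P ≠ 0 ∧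
  ∀ k : ℕ, ∃ (N : ℕ) (c : Fin r → ℂ[X]),
    ((P ^ N : ℂ[X]) : ℂ⟦X⟧) * (PowerSeries.derivative ℂ)^[k] f =
      ∑ j, ((c j : ℂ[X]) : ℂ⟦X⟧) * (PowerSeries.derivative ℂ)^[(j : ℕ)] f

/-- [A2] EASY-MEDIUM. Sums of D-finite series.
PROOF. Let `(r, P)` be for `f` and `(s, Q)` for `g` from A1.  For `k = 0, …, r + s` there are `N_k`, `M_k` with
`P^{N_k} D^k f ∈ ∑ ℂ[X] D^j f`, `Q^{M_k} D^k g ∈ ∑ ℂ[X] D^j g`; with `H_k = P^{N_k} Q^{M_k}`:
`H_k D^k (f + g) = ∑_{l < r + s} C_{k l} u_l`, `u` = the list `f, …, D^{r-1} f, g, …, D^{s-1} g`.  The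
`r + s + 1` rows `C_k ∈ (Fin (r + s) → ℂ[X])` are linearly dependent over the domain `ℂ[X]`
(`LinearIndependent.fintype_card_le_finrank` or `exists_ne_zero`-type results for matrices, e.g.
`Matrix.exists_vecMul_eq_zero_iff`, or pass to the fraction field): there is `w ≠ 0` with
`∑_k w_k C_k = 0`, so `∑_k w_k H_k D^k (f + g) = 0`, and some `w_k H_k ≠ 0`. -/
def StA2 : Prop := StA1 → ∀ f g : ℂ⟦X⟧, DFinite f → DFinite g → DFinite (f + g)

/-! ## Part H: hypergeometric multisums -/

/-- [Ha] MEDIUM. Going down in a hypergeometric family.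
PROOF. First, for every `β` there is a polynomial `Q` with `totalDegree Q ≤ D * ∑ β i`, where `D` bounds the
total degrees of all `P i`, and `a (m - β) = ev Q m * a m` for all `m ≥ β`: induction on `∑ β i`; `β = 0`:
`Q = 1`.  For `β + e_i` (`e_i = Pi.single i 1`) and `m ≥ β + e_i`: `a (m - β - e_i) = ev (P i) (m - β - e_i) *
a (m - β) = ev (P i) (m - β - e_i) * ev Q m * a m`, and `m ↦ ev (P i) (m - β - e_i)` is `ev` of the polynomial
`P i` with `X j - (β + e_i) j` substituted for `X j` (`MvPolynomial.aeval`/`bind₁`; its total degree is at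
most that of `P i`: check it for monomials, or avoid degrees of substitutions by proving by induction
(`MvPolynomial.induction_on`) that for every polynomial `p` with `totalDegree ≤ K` and every `γ : J → ℂ` there
is a polynomial of total degree `≤ K` with value `eval (x - γ) p` at `x`).  Second,
`wt e d (m - β) = e + ∑ d_i (m_i - β_i)` is a polynomial of degree `≤ 1` in `m` for `m ≥ β`.  So
`R = (linear) ^ b * Q` has total degree `≤ b + D ∑ β i ≤ (1 + D * card J) * v`. -/
def StHa : Prop := ∀ (J : Type) [Fintype J] [DecidableEq J] (d : J → ℕ) (e : ℕ)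
  (P : J → MvPolynomial J ℂ) (a : (J → ℕ) → ℂ),
  (∀ m i, a m = ev (P i) m * a (m + Pi.single i 1)) →
  ∃ C : ℕ, ∀ (v b : ℕ) (β : J → ℕ), b ≤ v → (∀ i, β i ≤ v) →
    ∃ R : MvPolynomial J ℂ, R.totalDegree ≤ C * v ∧
      ∀ m : J → ℕ, β ≤ m → (wt e d (m - β) : ℂ) ^ b * a (m - β) = ev R m * a m

/-- A linear relation between the `t^s θ^b z^β U`, `U = ∑ a(m) z^m t^(wt m)`, `θ = t d/dt`, coefficient by
coefficient. -/
def Rel {J : Type} [Fintype J] [DecidableEq J] (e : ℕ) (d : J → ℕ) (a : (J → ℕ) → ℂ) : Prop :=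
  ∃ (v : ℕ) (c : Fin (v + 1) → Fin (v + 1) → (J → Fin (v + 1)) → ℂ), c ≠ 0 ∧
    ∀ (n : ℕ) (m : J → ℕ), ∑ s, ∑ b, ∑ β, c s b β *
      (if (∀ i, (β i : ℕ) ≤ m i) ∧ (s : ℕ) ≤ n ∧ wt e d (fun i => m i - (β i : ℕ)) = n - (s : ℕ) then
        ((n : ℂ) - (s : ℕ)) ^ (b : ℕ) * a (fun i => m i - (β i : ℕ)) else 0) = 0

/-- [Hb] MEDIUM. Counting dimensions.
PROOF. `C` from Ha, `D = ∑ d_i`, `q = card J`.  For `v ≥ 1` consider the functions of `(n, m) ∈ ℕ × (J → ℕ)`
`g_{s,b,β}(n, m) = [β ≤ m, s ≤ n, wt (m - β) = n - s] (n - s)^b a(m - β)`, `s, b ≤ v`, `β ∈ [0, v]^J`: there are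
`(v+1)^(q+2)` of them.  For `β ≤ m`: `wt (m - β) = wt m - ∑ d_i β_i`, so the condition is
`n + D v = wt m + ρ` with `ρ = s + (D v - ∑ d_i β_i) ∈ [0, (D+1) v]`, and then `n - s = wt (m - β)`, so the value
is `ev R m * a m` with `R = R_{b,β}` of Ha.  Write `R = ∑_α r_α X^α`; all `α_i ≤ C v`
(`MvPolynomial.le_totalDegree`).  For a natural number `x` and `β_i ≤ v`: `[β_i ≤ x] x^{α_i} = x^{α_i} -
∑_{c < β_i} c^{α_i} [x = c]`.  So `[β ≤ m] m^α = ∏_i (…)` is a linear combination of the products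
`∏_i ψ_{φ_i}(m_i)`, `φ_i ∈ Fin v ⊕ Fin (C v + 1)`, `ψ_{inl c}(x) = [x = c]`, `ψ_{inr k}(x) = x^k` (expand the
product: `Finset.prod_univ_sum`, or show by induction that the span of these products contains every product of
one-variable functions from the span of the `ψ`).  Hence all `g_{s,b,β}` lie in the span of the
`((D+1) v + 1) (v + C v + 1)^q` functions `(n, m) ↦ [n + D v = wt m + ρ] a(m) ∏_i ψ_{φ_i}(m_i)`.  This number
is `≤ (D+1) (C+1)^q (v+1)^(q+1)`, smaller than `(v+1)^(q+2)` for `v + 1 > (D+1) (C+1)^q`.  So the `g` are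
linearly dependent (`finrank_span_le_card`, `Module.exists_nontrivial_relation_of_finrank_lt_card`; or
`LinearIndependent` and `fintype_card_le_finrank`, `finrank` of the span); the coefficients of a nontrivial relation are `c`. -/
def StHb : Prop := StHa → ∀ (J : Type) [Fintype J] [DecidableEq J] (d : J → ℕ) (e : ℕ)
  (P : J → MvPolynomial J ℂ) (a : (J → ℕ) → ℂ),
  (∀ m i, a m = ev (P i) m * a (m + Pi.single i 1)) → Rel e d a

/-- A polynomial recurrence for the coefficients of `f`. -/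
def PRec (f : ℂ⟦X⟧) : Prop :=
  ∃ (v : ℕ) (p : Fin (v + 1) → Fin (v + 1) → ℂ), p ≠ 0 ∧ ∀ n : ℕ, ∑ s, ∑ b, p s b *
    (if (s : ℕ) ≤ n then ((n : ℂ) - (s : ℕ)) ^ (b : ℕ) * PowerSeries.coeff (n - (s : ℕ)) f else 0) = 0

/-- [Hc] MEDIUM. Elimination of the variables `z`.
PROOF. As `d_i ≥ 1`, `wt m = n` implies `m_i ≤ n`: finitely many `m`.  Let
`U_n = ∑_{wt m = n} a(m) z^m ∈ MvPolynomial J ℂ`; `U_n(1) = coeff n (gs (wt e d) a) =: f_n`.  Multiply the
relation by `z^m` and sum over the (finitely many relevant) `m`: for every `n`,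
`∑_{s, b; s ≤ n} (n - s)^b C_{s,b}(z) U_{n-s}(z) = 0`, `C_{s,b}(z) = ∑_β c(s,b,β) z^β`; some `C_{s,b} ≠ 0`.
Substitute `z_i = 1 + y_i` (an injective algebra homomorphism: it has an inverse): `C'_{s,b}(y)`, `U'_n(y)`.  Among all triples
`(s, b, γ)` with `coeff γ C'_{s,b} ≠ 0` choose one with `γ.degree` (sum of the entries) minimal, `γ = γ*`.
Compare the coefficients of `y^{γ*}`: in `∑_{γ + δ = γ*} coeff γ C'_{s,b} * coeff δ U'_{n-s}` all terms with
`δ ≠ 0` vanish (`γ` has smaller degree), so the equation is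
`∑_{s, b; s ≤ n} (n - s)^b coeff γ* C'_{s,b} * coeff 0 U'_{n-s} = 0` and `coeff 0 U'_{n-s} = U_{n-s}(1) = f_{n-s}`.
`p s b = coeff γ* C'_{s,b}`. -/
def StHc : Prop := ∀ (J : Type) [Fintype J] [DecidableEq J] (d : J → ℕ) (e : ℕ) (a : (J → ℕ) → ℂ),
  (∀ i, 1 ≤ d i) → Rel e d a → PRec (gs (wt e d) a)

/-- [Hd] MEDIUM. A polynomial recurrence gives a differential equation.
PROOF. Let `D` be the derivative, `θ f = X * D f`.  `coeff n (X^s θ^b f) = [s ≤ n] (n - s)^b coeff (n - s) f`
(`PowerSeries.coeff_X_pow_mul'`, `PowerSeries.coeff_derivative`, induction on `b`; `0 ^ 0 = 1` on both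
sides).  So `∑_{s,b} p s b X^s θ^b f = 0`.  By induction on `b`: `θ^b f = ∑_{j ≤ b} S(b, j) X^j D^j f` with
complex numbers `S(b, j)` and `S(b, b) = 1` (`X D (X^j D^j f) = j X^j D^j f + X^{j+1} D^{j+1} f`).  So
`∑_j q_j D^j f = 0`, `q_j = ∑_{s, b ≥ j} p s b S(b, j) X^{s + j}`.  Let `b*` be the largest `b` for which some
`p s b ≠ 0`: `q_{b*} = ∑_s p s b* X^{s + b*} ≠ 0`. -/
def StHd : Prop := ∀ f : ℂ⟦X⟧, PRec f → DFinite f

/-- The generating series of a hypergeometric family is D-finite. -/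
def ConH : Prop := ∀ (J : Type) [Fintype J] [DecidableEq J] (d : J → ℕ) (e : ℕ)
  (P : J → MvPolynomial J ℂ) (a : (J → ℕ) → ℂ), (∀ i, 1 ≤ d i) →
  (∀ m i, a m = ev (P i) m * a (m + Pi.single i 1)) → DFinite (gs (wt e d) a)

/-- [H] EASY. PROOF. Combine. -/
def StH : Prop := StHa → StHb → StHc → StHd → ConH

/-! ## Part G: systems of groups -/

/-- invariance under finitely supported block permutations -/
def Winv {J Z : Type} {d : J → ℕ} {D : ℕ} (R : Set (Fin D → Om Z d)) : Prop :=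
  ∀ s : J → Perm ℕ, (∀ i, ∃ n, ∀ j, n ≤ j → s i j = j) → ∀ τ ∈ R, (⇑(bp s) ∘ τ) ∈ R

/-- [G1a] EASY. PROOF. `(x).choose r` is the value at `x` of the polynomial `descPochhammer ℚ r / r!`
(`descPochhammer_eval_eq_descFactorial`, `Nat.choose_eq_descFactorial_div_factorial`, or
`Nat.cast_choose_eq_descPochhammer_div`-like lemmas, or directly by induction on `r` from
`(r + 1) * C(x, r + 1) = C(x, r) * (x - r)`, `Nat.choose_succ_right_eq`).  Put `X i` into the polynomial for
`r i` and take the product over `i`. -/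
def StG1a : Prop := ∀ (J : Type) [Fintype J] (r : J → ℕ), ∃ p : MvPolynomial J ℂ,
  ∀ m : J → ℕ, ev p m = ∏ i, ((m i).choose (r i) : ℂ)

/-- [G1b] MEDIUM. Counting tuples of labels.
PROOF. For a tuple `τ : Fin D → Om Z d` let `supp τ : J → Finset ℕ`, `supp τ i` = the set of the `j` such that some
`τ a` is a label `inr ⟨i, (j, _)⟩`; at most `D` elements.  `τ` has all labels in `lev m` iff `supp τ i ⊆ range (m i)`
for all `i`.  For `S : J → Finset ℕ` let `c' S = card {τ ∈ R | supp τ = S}` (a finite set: all labels are in the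
finite set `lev (sup S + 1)`; `Z` and the `Fin (d i)` are finite).  If `card (S i) = card (S' i)` for all `i`,
there is `s : J → Perm ℕ`, finitely supported, with `s i '' S i = S' i` (extend a bijection `S i ≃ S' i`, e.g.
`Finset.exists_equiv...`/`Equiv.Perm` extension inside the finite set `S i ∪ S' i`,
`Equiv.extendSubtype`, and `Equiv.Perm.ofSubtype`), and `τ ↦ bp s ∘ τ` is a bijection from
`{τ ∈ R | supp τ = S}` onto `{τ ∈ R | supp τ = S'}` (`Winv` for `s` and `s⁻¹`).  So `c' S = c (card ∘ S)` with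
`c r = c' (fun i => range (r i))`.  Finally `card {τ ∈ R | labels in lev m} = ∑_{S, S i ⊆ range (m i)} c' S =
∑_r c r * #{S | S i ⊆ range (m i), card (S i) = r i} = ∑_r c r ∏_i C(m i, r i)` (`Finset.card_powersetCard`,
`Fintype.card_piFinset`), where `r i ≤ D`. -/
def StG1b : Prop := ∀ (J Z : Type) [Fintype J] [DecidableEq J] [Finite Z] (d : J → ℕ) (D : ℕ)
  (R : Set (Fin D → Om Z d)), Winv R → ∃ c : (J → Fin (D + 1)) → ℕ, ∀ m : J → ℕ,
    Nat.card {τ : Fin D → Om Z d // τ ∈ R ∧ ∀ a, τ a ∈ lev m} =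
      ∑ r, c r * ∏ i, (m i).choose (r i)

/-- [G1] EASY. PROOF. From G1b and G1a: the polynomial `∑_r c r * p_r` with `p_r` of G1a. -/
def ConG1 : Prop := ∀ (J Z : Type) [Fintype J] [DecidableEq J] [Finite Z] (d : J → ℕ) (D : ℕ)
  (R : Set (Fin D → Om Z d)), Winv R → ∃ p : MvPolynomial J ℂ, ∀ m : J → ℕ,
    (Nat.card {τ : Fin D → Om Z d // τ ∈ R ∧ ∀ a, τ a ∈ lev m} : ℂ) = ev p m
def StG1 : Prop := StG1a → StG1b → ConG1

/-- [Go] EASY. PROOF. Let `τ = g ∘ blk i j`, `g ∈ G m`, and `s` finitely supported, `s i` fixes all `j ≥ n i`.  Then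
`bp s ∈ G n` (`Sys.block`), and with `M = m ⊔ n` (pointwise maximum) both are in `G M` (`Sys.mono`), so
`bp s * g ∈ G M` and `bp s ∘ τ = (bp s * g) ∘ blk i j`. -/
def StGo : Prop := ∀ (J Z : Type) [Fintype J] [DecidableEq J] (d : J → ℕ)
  (G : (J → ℕ) → Subgroup (Perm (Om Z d))), Sys G → ∀ i, Winv (orb G i)

/-- Transitivity. -/
def ConG2 : Prop := ∀ (J Z : Type) [Fintype J] [DecidableEq J] [Finite Z] (d : J → ℕ)
  (G : (J → ℕ) → Subgroup (Perm (Om Z d))), Sys G → ∃ b : J → ℕ, ∀ (m : J → ℕ) (i : J), b ≤ m →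
    ∀ τ ∈ orb G i, (∀ a, τ a ∈ lev (m + Pi.single i 1)) →
      ∃ g ∈ G (m + Pi.single i 1), τ = g ∘ blk i (m i)

/-- [G2] MEDIUM. PROOF. Let `D = ∑ i, d i` and `c : J → ℕ` the constant `D`.  For every `i` the set
`T_i = {τ ∈ orb G i | all labels in lev c}` is finite (`lev c` is a finite set as `Z` is finite).  For each of its
elements `ρ` choose `m_ρ`, `g_ρ ∈ G m_ρ`, `j_ρ` with `ρ = g_ρ ∘ blk i j_ρ`.  Choose `b` with `c ≤ b`, `m_ρ ≤ b`
and `j_ρ < b i` for all these finitely many `(i, ρ)` (a sum of everything, `+ 1`).  Let `b ≤ m`,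
`M = m + Pi.single i 1`, `τ ∈ orb G i` with all labels in `lev M`.  For every type `i'` the tuple `τ`, of length
`d i ≤ D`, meets at most `D` blocks `(i', j)`, all with `j < M i'`; as `D ≤ M i'` there is a permutation `s i'` of `ℕ`,
supported in `[0, M i')`, which maps these `j` into `[0, D)` (extend an injection of a finite subset of `Fin (M i')` with at
most `D` elements into `Fin (M i')` with values `< D`: `Equiv.extendSubtype`, `Equiv.Perm.ofSubtype`).  Then
`bp s ∈ G M`, `ρ = bp s ∘ τ` has all labels in `lev c` and is in `orb G i` (StGo), so `ρ = g_ρ ∘ blk i j_ρ` with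
`g_ρ ∈ G m_ρ ≤ G M`.  The swap `s'` of `j_ρ` and `m i` in type `i` (identity in the other types) is supported in
`[0, M i)`, so `bp s' ∈ G M`, and `blk i j_ρ = bp s' ∘ blk i (m i)`.  Hence `τ = g ∘ blk i (m i)`,
`g = (bp s)⁻¹ * g_ρ * bp s' ∈ G M`. -/
def StG2 : Prop := StGo → ConG2

/-- Orbit and stabilizer of a block. -/
def ConG3 : Prop := ∀ (J Z : Type) [Fintype J] [DecidableEq J] [Finite Z] (d : J → ℕ) (m : J → ℕ)
  (i : J) (K : Subgroup (Perm (Om Z d))),
  (∀ g ∈ K, ∀ ω, ω ∉ lev (m + Pi.single i 1) → g ω = ω) →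
  Nat.card K = Nat.card {τ : Fin (d i) → Om Z d // ∃ g ∈ K, τ = g ∘ blk i (m i)} *
    Nat.card {g : Perm (Om Z d) // g ∈ K ∧ ∀ ω, ω ∉ lev m → g ω = ω}

/-- [G3] EASY-MEDIUM. PROOF. `K` acts on tuples by `g • τ = g ∘ τ`; orbit and stabilizer of `blk i (m i)`
(`MulAction.card_orbit_mul_card_stabilizer_eq_card_group`, or `Nat.card` versions
`MulAction.orbitEquivQuotientStabilizer`, `Subgroup.card_mul_index`).  `g ∈ K` fixes the tuple iff it fixes every
label of the block `(i, m i)`; together with the support condition this means that `g` fixes every label outside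
`lev m` (`lev (m + e_i) \ lev m` is the block `(i, m i)`). -/
def StG3 : Prop := ConG3

/-- The conclusion of part G: the orders of the groups are eventually hypergeometric. -/
def ConG : Prop := ∀ (J Z : Type) [Fintype J] [DecidableEq J] [Finite Z] (d : J → ℕ)
  (G : (J → ℕ) → Subgroup (Perm (Om Z d))), Sys G →
  ∃ (K : J → ℕ) (P : J → MvPolynomial J ℂ), ∀ (m : J → ℕ) (i : J), K ≤ m →
    (Nat.card (G (m + Pi.single i 1)) : ℂ) = ev (P i) m * (Nat.card (G m) : ℂ)

/-- [G4] MEDIUM. PROOF. All groups are finite (`supp`, `lev m` finite).  `S m = Nat.card (G m) > 0`,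
`T m = Nat.card (Gam G m) > 0`; `Gam G m` is the set of elements of a subgroup (directed union, `Sys.mono`, and
the support condition), containing `G m`.  `p_i(m) = card {τ ∈ orb G i | labels in lev (m + e_i)}`; by ConG1
(with StGo) it is `ev` of a polynomial at `m + e_i`, hence `ev (P i) m` for `P i` = that polynomial with
`X i + 1` for `X i`.  Let `b` be from ConG2 and `m ≥ b`.  (1) ConG3 for `K = G (m + e_i)`: the orbit of
`blk i (m i)` is `{τ ∈ orb G i | labels in lev (m + e_i)}` (`⊆`: `g` maps `lev (m + e_i)` to itself because it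
fixes the complement pointwise; `⊇`: ConG2), and the stabilizer contains `G m`:
`S (m + e_i) ≥ p_i(m) S m`.  (2) ConG3 for `K = Gam G (m + e_i)`: the same orbit (`⊇`: ConG2 and
`G (m + e_i) ⊆ Gam G (m + e_i)`), stabilizer exactly `Gam G m`: `T (m + e_i) = p_i(m) T m`.  (3) `S m ∣ T m`
(Lagrange); `q m = T m / S m ≥ 1` satisfies `q (m + e_i) S (m + e_i) = T (m + e_i) = p_i(m) q m S m ≤
q m S (m + e_i)`, so `q (m + e_i) ≤ q m`, for `m ≥ b`.  (4) Choose `K ≥ b` with `q K` minimal among the values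
`q m`, `m ≥ b`.  For `m ≥ K`: `q m ≤ q K` (go from `K` to `m` by steps `e_i`), so `q m = q K`.  Hence for `m ≥ K`:
`q K * S (m + e_i) = T (m + e_i) = p_i(m) T m = p_i(m) q K S m`; cancel. -/
def StG4 : Prop := ConG1 → StGo → ConG2 → ConG3 → ConG

/-! ## Part B: monomial modules and their stabilizers -/

/-- [B1] EASY-MEDIUM. The system of groups of a monomial module.
PROOF. `G m = {g | g fixes the complement of lev m, (X y m).map g = X y m}` is a subgroup: `map` is functorial
(`map_id`, `map_comp` follow from `SetSeq.Sp.ind` and `map_cls`).  `supp` is by definition.  `block`: let `s` be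
supported in `m`.  `bp s` fixes the complement of `lev m`; by `MM.map_prod`,
`(X y m).map (bp s) = Q.prod ((blks ..).map (bp s ∘ ·)) ((cls e (some y) inl).map (bp s))`; the base is
unchanged (`bp s (inl z) = inl z`), and `bp s ∘ blk i j = blk i (s i j)`, so the multiset of the blocks is mapped
to itself: `s i` permutes `[0, m i)` (`Multiset.map` of `Multiset.range (m i)` by `s i` is
`Multiset.range (m i)`: both are without duplicates and have the same elements).  `mono`: for `m ≤ m'`,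
`blks m' = t + blks m`, `t` = the blocks `(i, j)` with `m i ≤ j < m' i`; so `X y m' = Q.prod t (X y m)`
(`MM.prod_add`); `g ∈ G m` fixes all labels of the blocks of `t`, so `(X y m').map g = Q.prod t ((X y m).map g) =
X y m'`, and `lev m ⊆ lev m'`. -/
def StB1 : Prop := ∀ (J : Type) [Fintype J] [DecidableEq J] (d : J → ℕ) (B : ℕ → Type)
  (A : SetSeq B) (Q : MM d A) (e : ℕ) (y : B e),
  ∃ G : (J → ℕ) → Subgroup (Perm (Om (Fin e) d)), Sys G ∧
    ∀ m g, g ∈ G m ↔ (∀ ω, ω ∉ lev m → g ω = ω) ∧ (Q.X y m).map g = Q.X y m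

/-- [B2] MEDIUM. The shape of `X y m`.
PROOF. General claim, by induction on a multiset `s` of labelled generators over a label set `S`: if
`x = A.cls N u ℓ` then `Q.prod s x = A.cls (N + ∑_{β ∈ s} d β.1) u' ℓ'` for some `u'` and some `ℓ'` with
`Set.range ℓ' = Set.range ℓ ∪ ⋃_{β ∈ s} Set.range β.2` (`MM.op_cls`, range of `Fin.append`; adjust `N` by a
cast: `A.cls N u ℓ = A.cls N' u' ℓ'` for `h : N = N'` by `subst`).  For `X y m`: `N = e`, `ℓ = inl`, total
`e + ∑_i m i * d i = wt e d m`, range = `lev m`.  Injectivity: `lev m` has exactly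
`e + ∑ m i * d i = wt e d m` elements (`Set.ncard`/`Nat.card`: `Fin e ⊕ Σ i, Fin (m i) × Fin (d i)`), and a map
`Fin n → Om` whose range has `n` elements is injective (or carry injectivity through the induction: the blocks
are pairwise disjoint). -/
def StB2 : Prop := ∀ (J : Type) [Fintype J] [DecidableEq J] (d : J → ℕ) (B : ℕ → Type)
  (A : SetSeq B) (Q : MM d A) (e : ℕ) (y : B e) (m : J → ℕ),
  ∃ (u : Option (B (wt e d m))) (ℓ : Fin (wt e d m) → Om (Fin e) d),
    Q.X y m = A.cls (wt e d m) u ℓ ∧ Function.Injective ℓ ∧ Set.range ℓ = lev m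

/-- [B3] MEDIUM. Orbit and stabilizer.
PROOF. `A` makes `B N` a `Perm (Fin N)`-set.  (i) `A.pt b' = A.pt b` iff `b' = act σ b` for some `σ`
(`SetSeq.cls_eq`; the labels are constant), so `A.osz (A.pt b)` is the size of the orbit of `b`
(`(A.pt b).1 = N` by definition).  (ii) If `g` fixes the complement of `lev m = range ℓ` then it permutes
`range ℓ`, so there is a unique `σ` with `g ∘ ℓ = ℓ ∘ σ`; conversely every `σ` comes from exactly one such `g`
(`Equiv.Perm.extendDomain`, or `Equiv.ofInjective` and `Equiv.Perm.ofSubtype`).  `(cls N (some b) ℓ).map g =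
cls N (some b) (ℓ ∘ σ) = cls N (some (act σ b)) ℓ` (`cls_eq` with `σ`), and `cls N (some b') ℓ = cls N (some b) ℓ`
iff `b' = b` (`cls_eq`: `ℓ = ℓ ∘ ρ` gives `ρ = 1` as `ℓ` is injective).  So the set on the left is in bijection
with the stabilizer of `b`.  (iii) `card stabilizer * card orbit = N!` (`Fintype.card_perm`). -/
def StB3 : Prop := ∀ (J Z : Type) (d : J → ℕ) (B : ℕ → Type) (A : SetSeq B) (m : J → ℕ) (N : ℕ)
  (ℓ : Fin N → Om Z d) (b : B N), Function.Injective ℓ → Set.range ℓ = lev m →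
  Nat.card {g : Perm (Om Z d) // (∀ ω, ω ∉ lev m → g ω = ω) ∧
    (A.cls N (some b) ℓ).map g = A.cls N (some b) ℓ} * A.osz (A.pt b) = N.factorial

/-- [B4] EASY. PROOF. `MM.map_prod` for the constant map to `Unit`; the block `blk i j` becomes the constant
function, so `blks` becomes `uns d m` (`Multiset.map` of a sum; `Multiset.map_const`); the base becomes
`A.pt y`.  The degree: `(Q.op i β x).1 = d i + x.1` by definition, induction over the multiset;
`(A.pt y).1 = e`. -/
def StB4 : Prop := ∀ (J : Type) [Fintype J] (d : J → ℕ) (B : ℕ → Type)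
  (A : SetSeq B) (Q : MM d A) (e : ℕ) (y : B e) (m : J → ℕ),
  (Q.X y m).map (fun _ => ()) = Q.pw (A.pt y) m ∧
  ∀ x : A.Sp Unit, (Q.pw x m).1 = wt x.1 d m

/-- The cone theorem. -/
def ConCone : Prop := ∀ (J : Type) [Fintype J] [DecidableEq J] (d : J → ℕ) (B : ℕ → Type)
  (A : SetSeq B) (Q : MM d A) (e : ℕ) (y : B e), (∀ m, A.osz (Q.pw (A.pt y) m) ≠ 0) →
  ∃ (m0 : J → ℕ) (P : J → MvPolynomial J ℂ), ∀ (m : J → ℕ) (i : J),
    (A.osz (Q.pw (A.pt y) (m0 + m)) : ℂ) / ((wt e d (m0 + m)).factorial : ℂ) =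
      ev (P i) m * ((A.osz (Q.pw (A.pt y) (m0 + (m + Pi.single i 1))) : ℂ) /
        ((wt e d (m0 + (m + Pi.single i 1))).factorial : ℂ))

/-- [Cone] EASY-MEDIUM. PROOF. `G` from B1, `K`, `P'` from ConG (`Z = Fin e`); `m0 = K`,
`P i` = the polynomial `P' i` with `X j + K j` for `X j`.  For every `m`: by B2 `X y m = cls (wt m) u ℓ`; by B4
`Q.pw (pt y) m = cls (wt m) u (fun _ => ())`; the orbit size is not zero, so `u = some b` (otherwise
`pt b' = cls N none _` for some `b'`, impossible by `cls_eq`) and `Q.pw (pt y) m = A.pt b`.  By B3 (the set on the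
left is `G m` by B1) `Nat.card (G m) * osz (Q.pw (pt y) m) = (wt m)!`, so `osz / (wt m)! = 1 / card (G m)`, and
`card (G (K + m + e_i)) = ev (P' i) (K + m) card (G (K + m))` gives the claim. -/
def StCone : Prop := StB1 → StB2 → StB3 → StB4 → ConG → ConCone

/-! ## Part U: types -/

/-- The order on the types `(k, j)`: lexicographic on `k`, then `j`. -/
def tlt {r p : ℕ} (s t : (Fin r → ℕ) × Fin p) : Prop :=
  (∃ i, s.1 i < t.1 i ∧ ∀ j, j < i → s.1 j = t.1 j) ∨ (s.1 = t.1 ∧ s.2 < t.2)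

/-- [Ord] EASY-MEDIUM. PROOF. The first component is the lexicographic order `Pi.Lex` on `Fin r → ℕ`, a
well-order (`Pi.Lex.wellFoundedLT`, `WellFounded.prod_lex` / `Prod.Lex`), or: by induction on `r`.  Totality:
`Pi.Lex` is a linear order, or take the first index where `s.1` and `t.1` differ.  Translation invariance: the
same index `i`. -/
def StOrd : Prop := ∀ r p : ℕ, WellFounded (@tlt r p) ∧
  (∀ s t : (Fin r → ℕ) × Fin p, tlt s t ∨ s = t ∨ tlt t s) ∧
  ∀ (s t : (Fin r → ℕ) × Fin p) (k : Fin r → ℕ), tlt s t → tlt (s.1 + k, s.2) (t.1 + k, t.2)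

/-- The minimal types: `x^k y_j ≠ 0`, and no smaller type has the same orbit. -/
def Mn {r p : ℕ} {d : Fin r → ℕ} {B : ℕ → Type} {A : SetSeq B} (Q : MM d A) (y : Fin p → A.Sp Unit) :
    Set ((Fin r → ℕ) × Fin p) :=
  {t | A.osz (Q.pw (y t.2) t.1) ≠ 0 ∧ ∀ t', tlt t' t → Q.pw (y t'.2) t'.1 ≠ Q.pw (y t.2) t.1}

/-- [Up] EASY-MEDIUM. The types that are not minimal form an up-set for each `j`.
PROOF. `Q.pw x (k + l) = Q.pw (Q.pw x k) l` (`uns d (k + l) = uns d l + uns d k`, `MM.prod_add`).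
`A.osz x = 0` iff `x = A.cls N none _` (for the finite sets `{b | pt b = x}` with `x = cls N (some b0) _ = pt b0`
nonempty; `Nat.card` of a nonempty finite type is not zero; the type is finite: `pt b' = pt b0` means
`b' = act σ b0`, finitely many `σ`), and `Q.op` maps `cls N none _` to `cls M none _`: so `osz (Q.pw x k) = 0`
implies `osz (Q.pw x (k + l)) = 0`.  If `(k, j)` is not minimal because `tlt t' (k, j)` and
`Q.pw (y t'.2) t'.1 = Q.pw (y j) k`, then `tlt (t'.1 + l, t'.2) (k + l, j)` (StOrd) and the values are equal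
again, so `(k + l, j)` is not minimal. -/
def StUp : Prop := StOrd → ∀ (r p : ℕ) (d : Fin r → ℕ) (B : ℕ → Type) (A : SetSeq B) (Q : MM d A)
  (y : Fin p → A.Sp Unit) (j : Fin p) (k l : Fin r → ℕ), (k, j) ∉ Mn Q y → (k + l, j) ∉ Mn Q y

/-- [Cnt] MEDIUM. Counting `B n` by minimal types.
PROOF. `B n` is the disjoint union of its orbits: the map `b ↦ A.pt b` from `B n` to the finite set
`O = {x : A.Sp Unit | x.1 = n, osz x ≠ 0}` (the image of the finite set `B n`) has fibre over `x` of size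
`osz x`.  For `x ∈ O` there is exactly one `t ∈ Mn Q y` with `Q.pw (y t.2) t.1 = x`: existence: `x = pt b`, by
hypothesis some `t` with this value exists; take a minimal one for `tlt` (`WellFounded.min`), it is in `Mn`;
uniqueness: two different elements of `Mn` with the same value contradict the trichotomy (StOrd) and
minimality.  So `{t ∈ Mn | (Q.pw (y t.2) t.1).1 = n}` is in bijection with `O`, hence finite, and
`card (B n) = ∑_{x ∈ O} osz x = ∑_{t} osz (value)`, split according to `t.2 = j`.  The finsum over `k` is over a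
finite support (`finsum_mem_eq_finite_toFinset_sum` or similar). -/
def StCnt : Prop := StOrd → ∀ (r p : ℕ) (d : Fin r → ℕ) (B : ℕ → Type) [∀ n, Finite (B n)]
  (A : SetSeq B) (Q : MM d A) (y : Fin p → A.Sp Unit),
  (∀ (n : ℕ) (b : B n), ∃ (j : Fin p) (k : Fin r → ℕ), Q.pw (y j) k = A.pt b) →
  (∀ j n, {k : Fin r → ℕ | (Q.pw (y j) k).1 = n ∧ (k, j) ∈ Mn Q y}.Finite) ∧
  ∀ n, (Nat.card (B n) : ℂ) = ∑ j, ∑ᶠ (k : Fin r → ℕ) (_ : (Q.pw (y j) k).1 = n),
    (open Classical in if (k, j) ∈ Mn Q y then (A.osz (Q.pw (y j) k) : ℂ) else 0)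

/-- [Dec] MEDIUM. Decomposition of the complement of an up-set.
PROOF. Claim, by induction on `card J`: for all `k0` the set `cone k0 J \ U` is in `𝒟`.  There is `m0`,
zero outside `J`, with `cone (k0 + m0) J \ U ∈ 𝒟`: if `cone k0 J` is disjoint from `U`, take `m0` of the
hypothesis (`cone (k0 + m0) J ⊆ cone k0 J`); otherwise some `k0 + m0 ∈ U` with `m0` zero outside `J`, then
`cone (k0 + m0) J ⊆ U` and the set is empty.  The rest `(cone k0 J \ cone (k0 + m0) J) \ U` is the disjoint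
union, over the pairs `(i, c)`, `i ∈ J`, `c < m0 i`, of the sets `cone k' (J.erase i) \ U`, where
`k' = k0 + c e_i + ∑_{i' ∈ J, i' < i} m0 i' e_{i'}` (`i` = the first index of `J` with `k i < k0 i + m0 i`, and
`c = k i - k0 i`), all in `𝒟` by induction.  (`𝒟` is closed under finite disjoint unions.)  For `J = ∅`,
`cone k0 ∅ = {k0}` and the first step with `m0 = 0` gives the claim.  Finally `Uᶜ = cone 0 univ \ U`. -/
def StDec : Prop := ∀ (r : ℕ) (U : Set (Fin r → ℕ)) (𝒟 : Set (Set (Fin r → ℕ))),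
  (∀ k l, k ∈ U → k + l ∈ U) → ∅ ∈ 𝒟 → (∀ S ∈ 𝒟, ∀ T ∈ 𝒟, Disjoint S T → S ∪ T ∈ 𝒟) →
  (∀ (k0 : Fin r → ℕ) (J : Finset (Fin r)), Disjoint (cone k0 J) U →
    ∃ m0 : Fin r → ℕ, (∀ i, i ∉ J → m0 i = 0) ∧ cone (k0 + m0) J ∈ 𝒟) → Uᶜ ∈ 𝒟

/-- [Gs] EASY. PROOF. (i) coefficientwise `finsum` is additive for finite supports
(`finsum_mem_add_distrib'`).  (ii) `finsum` over the fibre restricted to `range f`:
`finsum_mem_eq_of_bijOn`-type lemma, `f` injective, terms outside `range f` are zero. -/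
def StGs : Prop := (∀ (T : Type) (N : T → ℕ) (a b : T → ℂ), FibFin N a → FibFin N b →
    gs N (fun t => a t + b t) = gs N a + gs N b) ∧
  ∀ (T T' : Type) (N : T → ℕ) (a : T → ℂ) (f : T' → T), Function.Injective f →
    gs N (Set.indicator (Set.range f) a) = gs (fun t => N (f t)) (fun t => a (f t))

/-- [Res] EASY-MEDIUM. Restriction to a subset of the generators.
PROOF. Extend `m : J → ℕ` by zero to `ext m : Fin r → ℕ`.  The multiset `uns d (ext m)` is the image of
`uns (fun j : J => d j) m` under `⟨j, β⟩ ↦ ⟨j.1, β⟩` (generators outside `J` have multiplicity zero;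
`Finset.sum_coe_sort`/`Finset.sum_subtype`), and `(Q.comap _).op j β = Q.op j.1 β` by definition, so the
products agree (induction over the multiset). -/
def StRes : Prop := ∀ (r : ℕ) (d : Fin r → ℕ) (B : ℕ → Type) (A : SetSeq B) (Q : MM d A)
  (J : Finset (Fin r)) (x : A.Sp Unit) (m : J → ℕ),
  (Q.comap (fun j : J => (j : Fin r))).pw x m =
    Q.pw x (fun i => if h : i ∈ J then m ⟨i, h⟩ else 0)

/-- [Pos] EASY. PROOF. If `d i = 0` then all `Q.pw x (t e_i)`, `t ∈ ℕ`, have the same degree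
`(Q.pw x _).1 = wt x.1 d (t e_i) = x.1` (StB4, second part), and they are values of the map
`Option (B x.1) → A.Sp Unit`, `u ↦ A.cls x.1 u (fun _ => ())` (every element of `A.Sp Unit` of degree `N` is of
this form, `SetSeq.Sp.ind`), whose domain is finite: they cannot be pairwise different. -/
def StPos : Prop := StB4 → ∀ (J : Type) [Fintype J] [DecidableEq J] (d : J → ℕ) (B : ℕ → Type)
  [∀ n, Finite (B n)] (A : SetSeq B) (Q : MM d A) (x : A.Sp Unit),
  Function.Injective (fun m : J → ℕ => Q.pw x m) → ∀ i, 1 ≤ d i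

/-- The combinatorial theorem. -/
def ConC : Prop := ∀ (r p : ℕ) (d : Fin r → ℕ) (B : ℕ → Type) [∀ n, Finite (B n)]
  (A : SetSeq B) (Q : MM d A) (y : Fin p → A.Sp Unit),
  (∀ (n : ℕ) (b : B n), ∃ (j : Fin p) (k : Fin r → ℕ), Q.pw (y j) k = A.pt b) →
  DFinite (PowerSeries.mk fun n => (Nat.card (B n) : ℂ) / (n.factorial : ℂ))

/-- Closure of D-finiteness under sums. -/
def ConA : Prop := ∀ f g : ℂ⟦X⟧, DFinite f → DFinite g → DFinite (f + g)

/-- [Piece] MEDIUM. One `j`.
PROOF. Put `N k = (Q.pw (y j) k).1`, `a k = osz (Q.pw (y j) k) / (N k)!` for `(k, j) ∈ Mn`, `0` otherwise;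
`U = {k | (k, j) ∉ Mn}`, an up-set by Up.  `𝒟 = {S | DFinite (gs N (indicator S a))}`: `∅ ∈ 𝒟` (the zero
series is D-finite); disjoint unions by StGs (i) (`FibFin` by Cnt, first part) and ConA.  Cones: let `cone k0 J` be
disjoint from `U`.  `x0 = Q.pw (y j) k0` has `osz ≠ 0`, so `x0 = A.pt y0` for some `y0 ∈ B x0.1`.  For
`m : J → ℕ` put `ext m` as in Res; `Q.pw (y j) (k0 + ext m) = Q.pw x0 (ext m) = (Q.comap _).pw x0 m`
(`uns` is additive, `prod_add`; Res).  These are nonzero and pairwise different for different `m` (two minimal types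
with the same value are equal: trichotomy of StOrd), so `1 ≤ d i` for `i ∈ J` (Pos), and ConCone applies:
`m0`, `P`; by ConH `gs (wt x0.1 d) (m ↦ osz (..(m0 + m)) / (wt ..)!)` with the base weight
`e' = wt x0.1 d m0` is D-finite; `wt e' d m = wt x0.1 d (m0 + m) = N (k0 + ext m0 + ext m)` (StB4).  It is
`gs N (indicator (cone (k0 + ext m0) J) a)` by StGs (ii) for the injective map
`m ↦ k0 + ext m0 + ext m` with range `cone (k0 + ext m0) J`.  Dec gives `DFinite (gs N (indicator Uᶜ a))`,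
and `indicator Uᶜ a = a`. -/
def StPiece : Prop := StOrd → StUp → StCnt → StDec → StGs → StRes → StPos → StB4 → ConA → ConH →
  ConCone → ∀ (r p : ℕ) (d : Fin r → ℕ) (B : ℕ → Type) [∀ n, Finite (B n)]
  (A : SetSeq B) (Q : MM d A) (y : Fin p → A.Sp Unit),
  (∀ (n : ℕ) (b : B n), ∃ (j : Fin p) (k : Fin r → ℕ), Q.pw (y j) k = A.pt b) → ∀ j : Fin p,
  DFinite (gs (fun k : Fin r → ℕ => (Q.pw (y j) k).1) (fun k => open Classical in
    if (k, j) ∈ Mn Q y then (A.osz (Q.pw (y j) k) : ℂ) / (((Q.pw (y j) k).1).factorial : ℂ) else 0))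

/-- [C] EASY. The combinatorial theorem.
PROOF. Let `F j` be the series of StPiece for `j`.  By Cnt, `card (B n) / n! = ∑_j coeff n (F j)`: in the finsum
over `k` with `(Q.pw (y j) k).1 = n` the denominator `((Q.pw (y j) k).1)!` is `n!`, pull it out
(`finsum_div`-like lemma, or `mul_finsum_mem`; the supports are finite by the first part of Cnt).  So the
series is `∑_j F j`, D-finite by induction over the finite set of the `j` (the zero series is D-finite). -/
def StC : Prop := StOrd → StCnt → ConA →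
  (∀ (r p : ℕ) (d : Fin r → ℕ) (B : ℕ → Type) [∀ n, Finite (B n)]
  (A : SetSeq B) (Q : MM d A) (y : Fin p → A.Sp Unit),
  (∀ (n : ℕ) (b : B n), ∃ (j : Fin p) (k : Fin r → ℕ), Q.pw (y j) k = A.pt b) → ∀ j : Fin p,
  DFinite (gs (fun k : Fin r → ℕ => (Q.pw (y j) k).1) (fun k => open Classical in
    if (k, j) ∈ Mn Q y then (A.osz (Q.pw (y j) k) : ℂ) / (((Q.pw (y j) k).1).factorial : ℂ) else 0))) →
  ConC

/-! ## Part T: twisted commutative algebras -/

section
variable {A : ℕ → Type} [∀ n, AddCommGroup (A n)] [∀ n, Module ℂ (A n)]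

/-- The tca `A` is generated by the homogeneous elements `x i ∈ A (d i)`: a graded subspace that contains
them and the unit, and is stable under the symmetric groups and under multiplication, is everything. -/
def GenBy (R : TCA A) {r : ℕ} {d : Fin r → ℕ} (x : ∀ i, A (d i)) : Prop :=
  ∀ C : (n : ℕ) → Submodule ℂ (A n), (∀ i, x i ∈ C (d i)) → R.one ∈ C 0 →
    (∀ n σ, ∀ a ∈ C n, R.seq.act n σ a ∈ C n) →
    (∀ {i j k : ℕ} (h : i + j = k), ∀ a ∈ C i, ∀ b ∈ C j, R.mul.app h a b ∈ C k) → ∀ n, C n = ⊤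

variable {M : ℕ → Type} [∀ n, AddCommGroup (M n)] [∀ n, Module ℂ (M n)]

/-- The bases `b` of the `M_n` are monomial for the generators `x`: every permutation maps a basis vector to
a multiple of a basis vector, and every `x i` maps a basis vector to zero or to a multiple of a basis
vector. -/
def MonBasis {R : TCA A} (S : TCAModule R M) {r : ℕ} {d : Fin r → ℕ} (x : ∀ i, A (d i))
    {β : ℕ → Type} (b : ∀ n, Module.Basis (β n) ℂ (M n)) : Prop :=
  (∀ (n : ℕ) (σ : Perm (Fin n)) (i : β n), ∃ (j : β n) (c : ℂ), S.seq.act n σ (b n i) = c • b n j) ∧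
  ∀ (i : Fin r) {n m : ℕ} (h : d i + n = m) (j : β n), S.smul.app h (x i) (b n j) = 0 ∨
    ∃ (j' : β m) (c : ℂ), S.smul.app h (x i) (b n j) = c • b m j'

/-- The combinatorial data of a monomial basis. -/
def Fits {R : TCA A} (S : TCAModule R M) {r : ℕ} {d : Fin r → ℕ} (x : ∀ i, A (d i))
    {β : ℕ → Type} (b : ∀ n, Module.Basis (β n) ℂ (M n)) (T : SetSeq β) (Q : MM d T) : Prop :=
  (∀ (n : ℕ) (σ : Perm (Fin n)) (i : β n), ∃ c : ℂ, c ≠ 0 ∧
    S.seq.act n σ (b n i) = c • b n (T.act n σ i)) ∧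
  ∀ (i : Fin r) {n m : ℕ} (h : d i + n = m) (j : β n),
    (Q.g i h j = none → S.smul.app h (x i) (b n j) = 0) ∧
    ∀ j' : β m, Q.g i h j = some j' → ∃ c : ℂ, c ≠ 0 ∧ S.smul.app h (x i) (b n j) = c • b m j'

end

/-- [T1] MEDIUM. From a monomial basis to the combinatorial data.
PROOF. `act σ` is invertible (`act_one`, `act_mul`), so `act σ (b i) = c b j` has `c ≠ 0`, and `j` is unique
(linear independence of the basis: `c b j = c' b j'`, `c ≠ 0`, implies `j = j'`): this defines `T.act n σ i = j`;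
`act_one`, `act_mul` follow from uniqueness.  `Q.g i h j = none` if `x_i b_j = 0`, otherwise `some j'` with
`x_i b_j = c b_{j'}`, `c ≠ 0`, `j'` unique.  `equi`: `x_i (σ b_j) = (1 × σ) (x_i b_j)` by
`Pairing.equivariant` (with `σ = 1` on the left, `seq.act_one`), and `σ b_j = c b_{σ j}`; compare (both sides zero, or
uniqueness).  `comm`: `x_i (x_j b) = (x_i x_j) b = (τ (x_j x_i)) b = (τ × 1) ((x_j x_i) b) = (τ × 1) (x_j (x_i b))`,
`τ = blockSwap` (`mul_smul`, `TCA.comm`, `equivariant`); again compare. -/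
def StT1 : Prop := ∀ (A : ℕ → Type) [∀ n, AddCommGroup (A n)] [∀ n, Module ℂ (A n)] (R : TCA A)
  (M : ℕ → Type) [∀ n, AddCommGroup (M n)] [∀ n, Module ℂ (M n)] (S : TCAModule R M)
  (r : ℕ) (d : Fin r → ℕ) (x : ∀ i, A (d i)) (β : ℕ → Type)
  (b : ∀ n, Module.Basis (β n) ℂ (M n)), MonBasis S x b →
  ∃ (T : SetSeq β) (Q : MM d T), Fits S x b T Q

/-- [T2] MEDIUM. Generation.
PROOF. Let `s` be a finite generating set of `M`; `Y` = the finite set of all pairs `(n, i)`, `i : β n`, such that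
`b n i` occurs in the expansion (`Module.Basis.repr`) of some element of `s` of degree `n`; enumerate it by
`Fin p`: `y j = T.pt i_j`.  `N_n` = the span of the `b n i` with `T.pt i = Q.pw (y j) k` for some `j`, `k`.  It is a
submodule of `M`: (i) `act σ (b n i) = c b n (T.act σ i)` and `T.pt (T.act σ i) = T.pt i` (`cls_eq`).  (ii) The set
`C_a` of the `a ∈ A_l` with `a N_j ⊆ N_k` for all `h : l + j = k` is a graded subspace which contains the unit
(`one_smul`; `0 + j = k` gives `j = k`), is stable under the symmetric groups (`(σ a) x = (σ × 1) (a x)`,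
`equivariant` with `1` on the right, and (i)) and under products (`mul_smul`), and contains every `x l`: if
`Q.g l h i = some i'` then `x_l b_i = c b_{i'}` and `T.pt i' = Q.op l _ (T.pt i)` (`op_cls`; functions to `Unit` are
equal) `= Q.op l _ (Q.pw (y j) k) = Q.pw (y j) (k + e_l)` (`uns d (k + e_l) = ⟨l, _⟩ ::ₘ uns d k`,
`MM.prod_cons`).  So `C = ⊤` by `GenBy`.  `N` contains `s`, hence `N_n = ⊤`, and `b n i` in the span of some basis
vectors is one of them (`Module.Basis.mem_span_image`-like, or `LinearIndependent.notMem_span_image`). -/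
def StT2 : Prop := ∀ (A : ℕ → Type) [∀ n, AddCommGroup (A n)] [∀ n, Module ℂ (A n)] (R : TCA A)
  (M : ℕ → Type) [∀ n, AddCommGroup (M n)] [∀ n, Module ℂ (M n)] (S : TCAModule R M)
  (r : ℕ) (d : Fin r → ℕ) (x : ∀ i, A (d i)) (β : ℕ → Type)
  (b : ∀ n, Module.Basis (β n) ℂ (M n)) (T : SetSeq β) (Q : MM d T), GenBy R x → S.FG →
  Fits S x b T Q → ∃ (p : ℕ) (y : Fin p → T.Sp Unit),
    ∀ (n : ℕ) (i : β n), ∃ (j : Fin p) (k : Fin r → ℕ), Q.pw (y j) k = T.pt i

/-- [Fin] EASY. The theorem.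
PROOF. T1, T2; `β n` is finite because `M n` is finite-dimensional (`Module.Basis`,
`Module.Finite.finite_basis`), and `finrank = Nat.card (β n)` (`Module.finrank_eq_nat_card_basis`).  ConC. -/
def ConFin : Prop := ∀ (A : ℕ → Type) [∀ n, AddCommGroup (A n)] [∀ n, Module ℂ (A n)] (R : TCA A)
  (M : ℕ → Type) [∀ n, AddCommGroup (M n)] [∀ n, Module ℂ (M n)] (S : TCAModule R M)
  (r : ℕ) (d : Fin r → ℕ) (x : ∀ i, A (d i)) (β : ℕ → Type)
  (b : ∀ n, Module.Basis (β n) ℂ (M n)), GenBy R x → S.FG → (∀ n, FiniteDimensional ℂ (M n)) →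
  MonBasis S x b → DFinite (hilb M)
def StFin : Prop := StT1 → StT2 → ConC → ConFin

end Pool.Agent.Work.MP_6da7fa_al.MB
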