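import Pool.Agent.Work.MP_6da7fa_al.Tca

set_option autoImplicit false

/-!
# Theorem MB: definitions

Sequences of `S_n`-sets, monomial modules, evaluation on label sets.
-/

namespace Pool.Agent.Work.MP_6da7fa_al.MB

open Equiv

/-- A sequence `B_0, B_1, ...` of sets with actions of `S_0, S_1, ...`. -/
structure SetSeq (B : ℕ → Type) where
  act : ∀ n, Perm (Fin n) → B n → B n
  act_one : ∀ n (b : B n), act n 1 b = b
  act_mul : ∀ n (σ τ : Perm (Fin n)) (b : B n), act n (σ * τ) b = act n σ (act n τ b)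

/-- Monomial operators `x_i : B_n → B_(d_i + n)` (with the value `none` for zero), equivariant and
commuting in the twisted sense. -/
structure MM {ι : Type} (d : ι → ℕ) {B : ℕ → Type} (A : SetSeq B) where
  g : ∀ (i : ι) {n m : ℕ}, d i + n = m → B n → Option (B m)
  equi : ∀ (i : ι) {n m : ℕ} (h : d i + n = m) (σ : Perm (Fin n)) (b : B n),
    g i h (A.act n σ b) = (g i h b).map (A.act m (blockSum h 1 σ))
  comm : ∀ (i j : ι) {n p q m : ℕ} (h1 : d j + n = p) (h2 : d i + p = m) (h3 : d i + n = q)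
    (h4 : d j + q = m) (h5 : d i + d j + n = m) (b : B n),
    (g j h1 b).bind (g i h2) = ((g i h3 b).bind (g j h4)).map
      (A.act m (blockSum h5 (blockSwap (rfl : d i + d j = d i + d j)) 1))

/-- Restriction to some of the generators. -/
def MM.comap {ι J : Type} {d : ι → ℕ} {B : ℕ → Type} {A : SetSeq B} (Q : MM d A) (f : J → ι) :
    MM (fun j => d (f j)) A where
  g i := Q.g (f i)
  equi i := Q.equi (f i)
  comm i j := Q.comm (f i) (f j)

variable {B : ℕ → Type}

/-- `(σ u, ℓ)` and `(u, ℓ ∘ σ)` are identified. -/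
def SetSeq.rel (A : SetSeq B) (S : Type) (N : ℕ) :
    Option (B N) × (Fin N → S) → Option (B N) × (Fin N → S) → Prop :=
  fun x y => ∃ σ : Perm (Fin N), y.1 = x.1.map (A.act N σ) ∧ x.2 = y.2 ∘ σ

/-- the equivalence relation on labelled elements -/
def SetSeq.stoid (A : SetSeq B) (S : Type) (N : ℕ) : Setoid (Option (B N) × (Fin N → S)) where
  r := A.rel S N
  iseqv :=
    { refl := fun x => ⟨1, by
        constructor
        · have : A.act N 1 = id := funext (A.act_one N)
          rw [this, Option.map_id]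
          rfl
        · rfl⟩
      symm := by
        rintro x y ⟨σ, h1, h2⟩
        refine ⟨σ⁻¹, ?_, ?_⟩
        · rw [h1, Option.map_map]
          have : A.act N σ⁻¹ ∘ A.act N σ = id := by
            funext b
            show A.act N σ⁻¹ (A.act N σ b) = b
            rw [← A.act_mul, inv_mul_cancel, A.act_one]
          rw [this, Option.map_id]
          rfl
        · rw [h2]
          funext a
          simp
      trans := by
        rintro x y z ⟨σ, h1, h2⟩ ⟨τ, h3, h4⟩
        refine ⟨τ * σ, ?_, ?_⟩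
        · rw [h3, h1, Option.map_map]
          congr 1
          funext b
          exact (A.act_mul N τ σ b).symm
        · rw [h2, h4]
          rfl }

/-- The elements of `B` labelled by `S` (labels not necessarily different). -/
def SetSeq.Sp (A : SetSeq B) (S : Type) : Type := Σ N : ℕ, Quotient (A.stoid S N)

/-- The class of `u ∈ B_N` (or zero) with labels `ℓ`. -/
def SetSeq.cls (A : SetSeq B) {S : Type} (N : ℕ) (u : Option (B N)) (ℓ : Fin N → S) : A.Sp S :=
  ⟨N, Quotient.mk (A.stoid S N) (u, ℓ)⟩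

theorem SetSeq.cls_eq {A : SetSeq B} {S : Type} {N : ℕ} {u u' : Option (B N)} {ℓ ℓ' : Fin N → S} :
    A.cls N u ℓ = A.cls N u' ℓ' ↔ ∃ σ : Perm (Fin N), u' = u.map (A.act N σ) ∧ ℓ = ℓ' ∘ σ := by
  constructor
  · intro h
    have h1 := eq_of_heq (Sigma.mk.inj_iff.mp h).2
    exact Quotient.exact h1
  · intro h
    have h1 : Quotient.mk (A.stoid S N) (u, ℓ) = Quotient.mk (A.stoid S N) (u', ℓ') :=
      Quotient.sound h
    show (⟨N, Quotient.mk (A.stoid S N) (u, ℓ)⟩ : A.Sp S) = _
    rw [h1]
    rfl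

theorem SetSeq.Sp.ind {A : SetSeq B} {S : Type} {p : A.Sp S → Prop}
    (h : ∀ (N : ℕ) (u : Option (B N)) (ℓ : Fin N → S), p (A.cls N u ℓ)) (x : A.Sp S) : p x := by
  obtain ⟨N, q⟩ := x
  obtain ⟨⟨u, ℓ⟩, rfl⟩ := Quotient.exists_rep q
  exact h N u ℓ

/-- change of labels -/
def SetSeq.Sp.map {A : SetSeq B} {S T : Type} (f : S → T) (x : A.Sp S) : A.Sp T :=
  ⟨x.1, Quotient.map (sa := A.stoid S x.1) (sb := A.stoid T x.1) (fun y => (y.1, f ∘ y.2))
    (by
      rintro y z ⟨σ, h1, h2⟩
      exact ⟨σ, h1, by rw [h2]; rfl⟩) x.2⟩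

theorem SetSeq.Sp.map_cls {A : SetSeq B} {S T : Type} (f : S → T) (N : ℕ) (u : Option (B N))
    (ℓ : Fin N → S) : (A.cls N u ℓ).map f = A.cls N u (f ∘ ℓ) := rfl

theorem lift_zero_side {a n m : ℕ} (h : a + n = m) (σ : Perm (Fin n)) (x : Fin a) :
    blockSum h 1 σ (Fin.cast h (Fin.castAdd n x)) = Fin.cast h (Fin.castAdd n x) := by
  subst h
  simp [blockSum]

theorem lift_add_side {a n m : ℕ} (h : a + n = m) (σ : Perm (Fin n)) (x : Fin n) :
    blockSum h 1 σ (Fin.cast h (Fin.natAdd a x)) = Fin.cast h (Fin.natAdd a (σ x)) := by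
  subst h
  simp [blockSum]

theorem append_lift {S : Type} {a n m : ℕ} (h : a + n = m) (β : Fin a → S) (ℓ : Fin n → S)
    (σ : Perm (Fin n)) :
    Fin.append β (ℓ ∘ σ) ∘ Fin.cast h.symm =
      (Fin.append β ℓ ∘ Fin.cast h.symm) ∘ blockSum h 1 σ := by
  funext x
  obtain ⟨y, rfl⟩ : ∃ y : Fin (a + n), x = Fin.cast h y := ⟨Fin.cast h.symm x, by simp⟩
  refine Fin.addCases (fun z => ?_) (fun z => ?_) y
  · rw [Function.comp_apply, Function.comp_apply, lift_zero_side]
    simp
  · rw [Function.comp_apply, Function.comp_apply, lift_add_side]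
    simp

variable {ι : Type} {d : ι → ℕ} {A : SetSeq B}

/-- Multiplication of a labelled element by the generator `x_i` with labels `β`. -/
def MM.op (Q : MM d A) {S : Type} (i : ι) (β : Fin (d i) → S) (x : A.Sp S) : A.Sp S :=
  ⟨d i + x.1, Quotient.map (sa := A.stoid S x.1) (sb := A.stoid S (d i + x.1))
    (fun y => (y.1.bind (Q.g i rfl), Fin.append β y.2))
    (by
      rintro ⟨u, ℓ⟩ ⟨u', ℓ'⟩ ⟨σ, h1, h2⟩
      refine ⟨blockSum rfl 1 σ, ?_, ?_⟩
      · have h1' : u' = u.map (A.act x.1 σ) := h1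
        subst h1'
        cases u with
        | none => rfl
        | some b => exact Q.equi i rfl σ b
      · have h2' : ℓ = ℓ' ∘ σ := h2
        subst h2'
        exact append_lift rfl β ℓ' σ) x.2⟩

theorem MM.op_cls (Q : MM d A) {S : Type} (i : ι) (β : Fin (d i) → S) {N M : ℕ} (h : d i + N = M)
    (u : Option (B N)) (ℓ : Fin N → S) :
    Q.op i β (A.cls N u ℓ) = A.cls M (u.bind (Q.g i h)) (Fin.append β ℓ ∘ Fin.cast h.symm) := by
  subst h
  rfl

theorem append_swap {S : Type} {a b n p q m : ℕ} (h1 : b + n = p) (h2 : a + p = m) (h3 : a + n = q)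
    (h4 : b + q = m) (h5 : a + b + n = m) (β : Fin a → S) (γ : Fin b → S) (ℓ : Fin n → S) :
    Fin.append γ (Fin.append β ℓ ∘ Fin.cast h3.symm) ∘ Fin.cast h4.symm =
      (Fin.append β (Fin.append γ ℓ ∘ Fin.cast h1.symm) ∘ Fin.cast h2.symm) ∘
        blockSum h5 (blockSwap (rfl : a + b = a + b)) 1 := by
  subst h1
  subst h2
  subst h3
  have key : ∀ x : Fin (a + (b + n)),
      ((blockSum h5 (blockSwap (rfl : a + b = a + b)) (1 : Perm (Fin n)) x :
        Fin (a + (b + n))) : ℕ) =
      if (x : ℕ) < b then (x : ℕ) + a else if (x : ℕ) < a + b then (x : ℕ) - b else x := by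
    intro x
    obtain ⟨y, rfl⟩ : ∃ y : Fin (a + b + n), x = Fin.cast h5 y := ⟨Fin.cast h5.symm x, by simp⟩
    refine Fin.addCases (fun z => ?_) (fun z => ?_) y
    · have h6 : blockSum h5 (blockSwap (rfl : a + b = a + b)) (1 : Perm (Fin n))
          (Fin.cast h5 (Fin.castAdd n z)) =
          Fin.cast h5 (Fin.castAdd n (blockSwap (rfl : a + b = a + b) z)) := by
        simp [blockSum]
      rw [h6]
      show ((blockSwap (rfl : a + b = a + b) z : Fin (a + b)) : ℕ) = _
      rw [blockSwap_val]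
      have hz := z.isLt
      simp only [Fin.val_cast, Fin.val_castAdd]
      split_ifs <;> omega
    · have h6 : blockSum h5 (blockSwap (rfl : a + b = a + b)) (1 : Perm (Fin n))
          (Fin.cast h5 (Fin.natAdd (a + b) z)) = Fin.cast h5 (Fin.natAdd (a + b) z) := by
        simp [blockSum]
      rw [h6]
      simp only [Fin.val_cast, Fin.val_natAdd]
      split_ifs <;> omega
  have hap : ∀ {u v : ℕ} (f : Fin u → S) (g : Fin v → S) (x : Fin (u + v)),
      Fin.append f g x = if hx : (x : ℕ) < u then f ⟨x, hx⟩ else g ⟨x - u, by omega⟩ := by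
    intro u v f g x
    refine Fin.addCases (fun z => ?_) (fun z => ?_) x
    · rw [Fin.append_left]
      simp
    · rw [Fin.append_right]
      simp
  funext x
  have hx := x.isLt
  have hk := key x
  simp only [Function.comp_apply]
  rw [hap, hap]
  simp only [Function.comp_apply, Fin.val_cast]
  by_cases c1 : (x : ℕ) < b
  · rw [if_pos c1] at hk
    have c2 : ¬ (((blockSum h5 (blockSwap (rfl : a + b = a + b)) (1 : Perm (Fin n)) x :
        Fin (a + (b + n))) : ℕ) < a) := by omega
    rw [dif_pos c1, dif_neg c2, hap, dif_pos (by simp only [Fin.val_cast]; omega)]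
    congr 1
    apply Fin.ext
    simp only [Fin.val_cast]
    omega
  · rw [if_neg c1] at hk
    rw [dif_neg c1, hap]
    by_cases c3 : (x : ℕ) < a + b
    · rw [if_pos c3] at hk
      rw [dif_pos (by simp only [Fin.val_cast]; omega), dif_pos (by omega)]
      congr 1
      apply Fin.ext
      simp only [Fin.val_cast]
      omega
    · rw [if_neg c3] at hk
      rw [dif_neg (by simp only [Fin.val_cast]; omega), dif_neg (by omega), hap,
        dif_neg (by simp only [Fin.val_cast]; omega)]
      congr 1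
      apply Fin.ext
      simp only [Fin.val_cast]
      omega

theorem MM.op_comm (Q : MM d A) {S : Type} (i j : ι) (β : Fin (d i) → S) (γ : Fin (d j) → S)
    (x : A.Sp S) : Q.op i β (Q.op j γ x) = Q.op j γ (Q.op i β x) := by
  refine SetSeq.Sp.ind (p := fun x => Q.op i β (Q.op j γ x) = Q.op j γ (Q.op i β x)) ?_ x
  intro N u ℓ
  have h4 : d j + (d i + N) = d i + (d j + N) := by omega
  have h5 : d i + d j + N = d i + (d j + N) := by omega
  rw [Q.op_cls j γ (rfl : d j + N = d j + N), Q.op_cls i β (rfl : d i + N = d i + N),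
    Q.op_cls i β (rfl : d i + (d j + N) = d i + (d j + N)), Q.op_cls j γ h4]
  refine (SetSeq.cls_eq.mpr ⟨blockSum h5 (blockSwap (rfl : d i + d j = d i + d j)) 1, ?_, ?_⟩).symm
  · cases u with
    | none => rfl
    | some b => exact Q.comm i j rfl rfl rfl h4 h5 b
  · exact append_swap rfl rfl rfl h4 h5 β γ ℓ

theorem MM.map_op (Q : MM d A) {S T : Type} (f : S → T) (i : ι) (β : Fin (d i) → S)
    (x : A.Sp S) : (Q.op i β x).map f = Q.op i (f ∘ β) (x.map f) := by
  refine SetSeq.Sp.ind (p := fun x => (Q.op i β x).map f = Q.op i (f ∘ β) (x.map f)) ?_ x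
  intro N u ℓ
  rw [Q.op_cls i β (rfl : d i + N = d i + N), SetSeq.Sp.map_cls, SetSeq.Sp.map_cls,
    Q.op_cls i (f ∘ β) (rfl : d i + N = d i + N)]
  congr 1
  funext x
  simp only [Function.comp_apply]
  refine Fin.addCases (fun z => ?_) (fun z => ?_) x
  · simp
  · simp

/-- A labelled generator. -/
abbrev LG (d : ι → ℕ) (S : Type) : Type := Σ i : ι, (Fin (d i) → S)

instance (Q : MM d A) (S : Type) :
    LeftCommutative (fun (β : LG d S) (x : A.Sp S) => Q.op β.1 β.2 x) where
  left_comm β γ x := Q.op_comm β.1 γ.1 β.2 γ.2 x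

/-- The product of a multiset of labelled generators with a labelled element. -/
def MM.prod (Q : MM d A) {S : Type} (s : Multiset (LG d S)) (x : A.Sp S) : A.Sp S :=
  s.foldr (fun (β : LG d S) (x : A.Sp S) => Q.op β.1 β.2 x) x

theorem MM.prod_zero (Q : MM d A) {S : Type} (x : A.Sp S) : Q.prod 0 x = x := rfl

theorem MM.prod_cons (Q : MM d A) {S : Type} (β : LG d S) (s : Multiset (LG d S)) (x : A.Sp S) :
    Q.prod (β ::ₘ s) x = Q.op β.1 β.2 (Q.prod s x) :=
  Multiset.foldr_cons _ _ _ _

theorem MM.prod_add (Q : MM d A) {S : Type} (s t : Multiset (LG d S)) (x : A.Sp S) :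
    Q.prod (s + t) x = Q.prod s (Q.prod t x) := by
  induction s using Multiset.induction with
  | empty => rw [zero_add]; rfl
  | cons β s ih => rw [Multiset.cons_add, Q.prod_cons, Q.prod_cons, ih]

theorem MM.map_prod (Q : MM d A) {S T : Type} (f : S → T) (s : Multiset (LG d S)) (x : A.Sp S) :
    (Q.prod s x).map f = Q.prod (s.map fun β => (⟨β.1, f ∘ β.2⟩ : LG d T)) (x.map f) := by
  induction s using Multiset.induction with
  | empty => rfl
  | cons β s ih => rw [Q.prod_cons, Q.map_op, ih, Multiset.map_cons, Q.prod_cons]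

end Pool.Agent.Work.MP_6da7fa_al.MB
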