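import Pool.Agent.Work.MP_6da7fa_al.MB.Defs

set_option autoImplicit false

/-!
# Theorem MB: definitions, part 2

Generating series, label sets, systems of groups, types.
-/

namespace Pool.Agent.Work.MP_6da7fa_al.MB

open Equiv

/-- The series `∑ a(t) X ^ N(t)` (the sums over the fibres of `N` are `finsum`s: they are the true
sums when `a` has finite support on every fibre, see `FibFin`). -/
noncomputable def gs {T : Type} (N : T → ℕ) (a : T → ℂ) : PowerSeries ℂ :=
  PowerSeries.mk fun n => ∑ᶠ (t : T) (_ : N t = n), a t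

/-- `a` has finite support on every fibre of `N`. -/
def FibFin {T : Type} (N : T → ℕ) (a : T → ℂ) : Prop := ∀ n, {t | N t = n ∧ a t ≠ 0}.Finite

section
variable {J : Type} [Fintype J]

/-- the weight `e + ∑ d_i m_i` -/
def wt (e : ℕ) (d : J → ℕ) (m : J → ℕ) : ℕ := e + ∑ i, d i * m i

/-- value of a polynomial at a point with natural coordinates -/
noncomputable def ev (P : MvPolynomial J ℂ) (m : J → ℕ) : ℂ := MvPolynomial.eval (fun j => (m j : ℂ)) P

end

/-- The cone `k0 + ℕ^J` in `ℕ^ι`. -/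
def cone {ι : Type} (k0 : ι → ℕ) (J : Finset ι) : Set (ι → ℕ) :=
  {k | (∀ i, k0 i ≤ k i) ∧ ∀ i, i ∉ J → k i = k0 i}

/-! ## labels -/

section
variable {J : Type} (Z : Type) (d : J → ℕ)

/-- The label set: base labels `Z` and the labels of the blocks `(i, j)`, `i ∈ J`, `j ∈ ℕ`, with `d i`
labels each. -/
abbrev Om : Type := Z ⊕ (Σ i : J, ℕ × Fin (d i))

variable {Z d}

/-- The labels of level `m`: the blocks `(i, j)` with `j < m i`, and the base labels. -/
def lev (m : J → ℕ) : Set (Om Z d) := {ω | ∀ x, ω = Sum.inr x → x.2.1 < m x.1}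

/-- Block permutations. -/
def bp (s : J → Perm ℕ) : Perm (Om Z d) where
  toFun ω := match ω with
    | Sum.inl z => Sum.inl z
    | Sum.inr x => Sum.inr ⟨x.1, (s x.1 x.2.1, x.2.2)⟩
  invFun ω := match ω with
    | Sum.inl z => Sum.inl z
    | Sum.inr x => Sum.inr ⟨x.1, ((s x.1)⁻¹ x.2.1, x.2.2)⟩
  left_inv ω := by
    rcases ω with z | x
    · rfl
    · simp
  right_inv ω := by
    rcases ω with z | x
    · rfl
    · simp

/-- The labels of the block `(i, j)`. -/
def blk (i : J) (j : ℕ) : Fin (d i) → Om Z d := fun a => Sum.inr ⟨i, (j, a)⟩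

/-- A system of groups of permutations of the labels. -/
structure Sys (G : (J → ℕ) → Subgroup (Perm (Om Z d))) : Prop where
  supp : ∀ m, ∀ g ∈ G m, ∀ ω, ω ∉ lev m → g ω = ω
  mono : ∀ m m', m ≤ m' → G m ≤ G m'
  block : ∀ (m : J → ℕ) (s : J → Perm ℕ), (∀ i j, m i ≤ j → s i j = j) → bp s ∈ G m

/-- The orbit of the blocks of type `i` under all the groups. -/
def orb (G : (J → ℕ) → Subgroup (Perm (Om Z d))) (i : J) : Set (Fin (d i) → Om Z d) :=
  {τ | ∃ m, ∃ g ∈ G m, ∃ j, τ = g ∘ blk i j}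

/-- The permutations in some `G m'` that move only labels of level `m`. -/
def Gam (G : (J → ℕ) → Subgroup (Perm (Om Z d))) (m : J → ℕ) : Set (Perm (Om Z d)) :=
  {g | (∃ m', g ∈ G m') ∧ ∀ ω, ω ∉ lev m → g ω = ω}

end

/-! ## monomials -/

section
variable {B : ℕ → Type} {J : Type} {d : J → ℕ} {A : SetSeq B}

/-- The blocks of level `m`. -/
def blks [Fintype J] (Z : Type) (d : J → ℕ) (m : J → ℕ) : Multiset (LG d (Om Z d)) :=
  ∑ i, (Multiset.range (m i)).map fun j => (⟨i, blk i j⟩ : LG d (Om Z d))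

/-- The element `x^m y` with labels: the base labels are those of `y`. -/
def MM.X [Fintype J] (Q : MM d A) {e : ℕ} (y : B e) (m : J → ℕ) : A.Sp (Om (Fin e) d) :=
  Q.prod (blks (Fin e) d m) (A.cls e (some y) Sum.inl)

/-- The multiset of generators with multiplicities `k`, labels forgotten. -/
def uns [Fintype J] (d : J → ℕ) (k : J → ℕ) : Multiset (LG d Unit) :=
  ∑ i, Multiset.replicate (k i) (⟨i, fun _ => ()⟩ : LG d Unit)

/-- `x^k x` with forgotten labels. -/
def MM.pw [Fintype J] (Q : MM d A) (x : A.Sp Unit) (k : J → ℕ) : A.Sp Unit := Q.prod (uns d k) x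

/-- The class of `b ∈ B_N` with forgotten labels, i.e. its orbit. -/
def SetSeq.pt (A : SetSeq B) {N : ℕ} (b : B N) : A.Sp Unit := A.cls N (some b) (fun _ => ())

/-- The size of the orbit (zero for the orbit of zero). -/
noncomputable def SetSeq.osz (A : SetSeq B) (x : A.Sp Unit) : ℕ :=
  Nat.card {b : B x.1 // A.pt b = x}

end

end Pool.Agent.Work.MP_6da7fa_al.MB
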