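import Pool.Agent.Work.MP_6da7fa_al.MB.Stmts

set_option autoImplicit false

/-! Item G1 of block MB: the number of labelled tuples is a polynomial. -/

namespace Pool.Agent.Work.MP_6da7fa_al.MB

open Equiv

open scoped Polynomial PowerSeries

theorem prG1 : StG1 := by
  intro hA hB J Z _ _ _ d D R hR
  obtain ⟨c, hc⟩ := hB J Z d D R hR
  choose p hp using fun r : J → Fin (D + 1) => hA J (fun i => (r i : ℕ))
  refine ⟨∑ r, MvPolynomial.C (c r : ℂ) * p r, fun m => ?_⟩
  rw [hc m]
  push_cast
  unfold ev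
  rw [map_sum]
  refine Finset.sum_congr rfl fun r _ => ?_
  rw [map_mul, MvPolynomial.eval_C]
  have h := hp r m
  unfold ev at h
  rw [h]

end Pool.Agent.Work.MP_6da7fa_al.MB
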