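import Pool.Agent.Work.MP_6da7fa_al.MB.Stmts

set_option autoImplicit false

/-!
# Theorem MB, item Up: the types that are not minimal form an up-set
-/

namespace Pool.Agent.Work.MP_6da7fa_al.MB

open Equiv

namespace IUp

theorem uns_add {r : ℕ} (d : Fin r → ℕ) (k l : Fin r → ℕ) :
    uns d (k + l) = uns d l + uns d k := by
  unfold uns
  rw [← Finset.sum_add_distrib]
  refine Finset.sum_congr rfl fun i _ => ?_
  rw [Pi.add_apply, add_comm (k i) (l i), Multiset.replicate_add]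

theorem pw_add {r : ℕ} {d : Fin r → ℕ} {B : ℕ → Type} {A : SetSeq B} (Q : MM d A)
    (x : A.Sp Unit) (k l : Fin r → ℕ) : Q.pw x (k + l) = Q.pw (Q.pw x k) l := by
  unfold MM.pw
  rw [uns_add, Q.prod_add]

/-- The orbit of zero has size zero. -/
theorem osz_none {B : ℕ → Type} (A : SetSeq B) (N : ℕ) (ℓ : Fin N → Unit) :
    A.osz (A.cls N none ℓ) = 0 := by
  unfold SetSeq.osz
  have h : IsEmpty {b : B (A.cls N none ℓ).1 // A.pt b = A.cls N none ℓ} := by
    refine ⟨?_⟩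
    rintro ⟨b, hb⟩
    have hb' : A.cls N (some b) (fun _ => ()) = A.cls N none ℓ := hb
    obtain ⟨σ, h1, -⟩ := SetSeq.cls_eq.mp hb'
    cases h1
  exact Nat.card_of_isEmpty

/-- An element with orbit size zero is the class of zero. -/
theorem none_of_osz {B : ℕ → Type} {A : SetSeq B} (x : A.Sp Unit) (hx : A.osz x = 0) :
    ∃ (N : ℕ) (ℓ : Fin N → Unit), x = A.cls N none ℓ := by
  revert hx
  refine SetSeq.Sp.ind
    (p := fun x => A.osz x = 0 → ∃ (N : ℕ) (ℓ : Fin N → Unit), x = A.cls N none ℓ) ?_ x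
  intro N u ℓ hx
  cases u with
  | none => exact ⟨N, ℓ, rfl⟩
  | some b0 =>
    exfalso
    have hne : Nonempty {b : B N // A.pt b = A.cls N (some b0) ℓ} := ⟨⟨b0, rfl⟩⟩
    have hfin : Finite {b : B N // A.pt b = A.cls N (some b0) ℓ} := by
      refine Set.Finite.subset (Set.finite_range fun σ : Perm (Fin N) => A.act N σ b0) ?_
      intro b hb
      have hb' : A.cls N (some b) (fun _ => ()) = A.cls N (some b0) ℓ := hb
      obtain ⟨σ, h1, -⟩ := SetSeq.cls_eq.mp hb'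
      have h2 : b0 = A.act N σ b := Option.some.inj h1
      refine ⟨σ⁻¹, ?_⟩
      show A.act N σ⁻¹ b0 = b
      rw [h2, ← A.act_mul, inv_mul_cancel, A.act_one]
    have h3 : 0 < Nat.card {b : B N // A.pt b = A.cls N (some b0) ℓ} := Nat.card_pos
    exact absurd hx (ne_of_gt h3)

/-- Products with zero are zero. -/
theorem prod_none {r : ℕ} {d : Fin r → ℕ} {B : ℕ → Type} {A : SetSeq B} (Q : MM d A)
    (s : Multiset (LG d Unit)) (x : A.Sp Unit)
    (hx : ∃ (N : ℕ) (ℓ : Fin N → Unit), x = A.cls N none ℓ) :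
    ∃ (N : ℕ) (ℓ : Fin N → Unit), Q.prod s x = A.cls N none ℓ := by
  induction s using Multiset.induction with
  | empty => exact hx
  | cons β s ih =>
    obtain ⟨N, ℓ, h⟩ := ih
    refine ⟨d β.1 + N, fun _ => (), ?_⟩
    rw [Q.prod_cons, h, Q.op_cls β.1 β.2 (rfl : d β.1 + N = d β.1 + N)]
    rfl

theorem osz_pw {r : ℕ} {d : Fin r → ℕ} {B : ℕ → Type} {A : SetSeq B} (Q : MM d A)
    (x : A.Sp Unit) (l : Fin r → ℕ) (hx : A.osz x = 0) : A.osz (Q.pw x l) = 0 := by
  obtain ⟨N, ℓ, h⟩ := prod_none Q (uns d l) x (none_of_osz x hx)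
  unfold MM.pw
  rw [h]
  exact osz_none A N ℓ

end IUp

theorem prUp : StUp := by
  intro hO r p d B A Q y j k l h hm
  apply h
  refine ⟨?_, ?_⟩
  · intro h0
    have h1 : A.osz (Q.pw (y j) (k + l)) = 0 := by
      rw [IUp.pw_add]
      exact IUp.osz_pw Q _ l h0
    exact hm.1 h1
  · intro t' ht' heq
    have h2 : tlt (t'.1 + l, t'.2) (k + l, j) := (hO r p).2.2 t' (k, j) l ht'
    apply hm.2 (t'.1 + l, t'.2) h2
    show Q.pw (y t'.2) (t'.1 + l) = Q.pw (y j) (k + l)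
    rw [IUp.pw_add, IUp.pw_add]
    have heq' : Q.pw (y t'.2) t'.1 = Q.pw (y j) k := heq
    rw [heq']

end Pool.Agent.Work.MP_6da7fa_al.MB
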